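import Pool.Agent.CollatzDens.Equi

set_option autoImplicit false

/-!
# The worst case and the base of the induction over the stages
-/

open Filter Topology

namespace CollatzOne

namespace Sys

/-! ### Numerical facts -/

lemma blk_kappa (l : ℕ) : (2 : ℝ) ^ (l / 600) * (99 / 100) ^ l ≤ (199 / 200) ^ l := by
  have h1 : (198 / 199 : ℝ) ^ l ≤ (1 / 2) ^ (l / 600) := by
    calc (198 / 199 : ℝ) ^ l ≤ (198 / 199) ^ (600 * (l / 600)) :=
          pow_le_pow_of_le_one (by norm_num) (by norm_num) (Nat.mul_div_le _ _)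
      _ = ((198 / 199) ^ 600) ^ (l / 600) := by rw [pow_mul]
      _ ≤ (1 / 2) ^ (l / 600) := by
          refine pow_le_pow_left₀ (by positivity) ?_ _
          have h2 : (198 / 199 : ℝ) ^ 200 ≤ 3 / 8 := by norm_num
          calc (198 / 199 : ℝ) ^ 600 = ((198 / 199) ^ 200) ^ 3 := by rw [← pow_mul]
            _ ≤ (3 / 8) ^ 3 := pow_le_pow_left₀ (by positivity) h2 _
            _ ≤ 1 / 2 := by norm_num
  have h3 : (99 / 100 : ℝ) ^ l = (199 / 200) ^ l * (198 / 199) ^ l := by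
    rw [← mul_pow]; norm_num
  rw [h3]
  calc (2 : ℝ) ^ (l / 600) * ((199 / 200) ^ l * (198 / 199) ^ l)
      ≤ 2 ^ (l / 600) * ((199 / 200) ^ l * (1 / 2) ^ (l / 600)) := by gcongr
    _ = (2 ^ (l / 600) * (1 / 2) ^ (l / 600)) * (199 / 200) ^ l := by ring
    _ = (199 / 200) ^ l := by rw [← mul_pow]; norm_num

lemma exists_small1 : ∃ l₀ : ℕ, ∀ l : ℕ, l₀ ≤ l →
    3584 * ((l : ℝ) ^ 2 * (99 / 100) ^ l) < 1 ∧ 1496 * ((l : ℝ) ^ 1 * (199 / 200) ^ l) < 1 := by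
  have h1 := tendsto_pow_const_mul_const_pow_of_abs_lt_one 2 (r := (99 / 100 : ℝ))
    (by rw [abs_of_pos] <;> norm_num)
  have h2 := tendsto_pow_const_mul_const_pow_of_abs_lt_one 1 (r := (199 / 200 : ℝ))
    (by rw [abs_of_pos] <;> norm_num)
  have h3 := h1.eventually_lt_const (show (0 : ℝ) < 1 / 3584 by norm_num)
  have h4 := h2.eventually_lt_const (show (0 : ℝ) < 1 / 1496 by norm_num)
  obtain ⟨l₀, hl⟩ := eventually_atTop.1 (h3.and h4)
  refine ⟨l₀, fun l h => ?_⟩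
  obtain ⟨h5, h6⟩ := hl l h
  constructor <;> linarith

/-- worst case -/
theorem Str.worst : ∃ l₀ : ℕ, ∀ A : Sys, A.Str → l₀ ≤ A.l → ∃ c : ℝ, 0 < c ∧ ∀ (n : ℕ) (y : ℤ),
    c * (1 / 2 : ℝ) ^ (88 * (A.l : ℝ) * (99 / 100) ^ A.l * n) ≤ (A.T 1)^[n] (fun _ => 1) y := by
  obtain ⟨l₀, hl₀⟩ := exists_small1
  refine ⟨l₀, fun A hA hl => ?_⟩
  have h600 := hA.hl
  obtain ⟨hs, -⟩ := hl₀ A.l hl
  set κ : ℝ := (99 / 100) ^ A.l with hκ
  have hκ0 : 0 < κ := by positivity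
  have hl1 : (600 : ℝ) ≤ A.l := by exact_mod_cast h600
  have hκs : 8 * κ < 1 := by nlinarith
  have hlog := hA.neg_log_Z_le
  rw [← hκ] at hlog
  have hZ := hA.Z_ge
  rw [← hκ] at hZ
  obtain ⟨n₀, hn1, hn⟩ := A.main_abstract (γ := 1 - 8 * κ) (by linarith) (by linarith) (by
    have h1 : 1 + 5 * κ ≤ (2 : ℝ) ^ (1 - (1 - 8 * κ)) := by
      rw [show 1 - (1 - 8 * κ) = 8 * κ by ring, Real.rpow_def_of_pos (by norm_num)]
      have h2 := Real.add_one_le_exp (Real.log 2 * (8 * κ))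
      have h3 := Real.log_two_gt_d9
      nlinarith
    calc (1 : ℝ) < (1 + 5 * κ) * (1 - κ) := by nlinarith
      _ ≤ 2 ^ (1 - (1 - 8 * κ)) * A.Z := by
          refine mul_le_mul h1 hZ (by linarith) (by positivity)) (by
    have h2 : 256 * (A.l : ℝ) * (4 * A.l + 3) ≤ 1792 * (A.l : ℝ) ^ 2 := by nlinarith
    have h4 : 0 ≤ 256 * (A.l : ℝ) * (4 * A.l + 3) := by positivity
    calc 256 * (A.l : ℝ) * (4 * A.l + 3) * (-Real.log A.Z)
        ≤ 256 * (A.l : ℝ) * (4 * A.l + 3) * (2 * κ) := mul_le_mul_of_nonneg_left hlog h4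
      _ ≤ 1792 * (A.l : ℝ) ^ 2 * (2 * κ) := mul_le_mul_of_nonneg_right h2 (by positivity)
      _ = 3584 * ((A.l : ℝ) ^ 2 * κ) := by ring
      _ < 1 := hs)
  have hγ0 : 0 ≤ 1 - 8 * κ := by linarith
  refine ⟨Real.exp (-(A.bb * (1 - 8 * κ) * n₀)), Real.exp_pos _, fun n y => ?_⟩
  have h5 := A.P_bdd_below hγ0 hn1 hn n y
  have h6 : (1 / 2 : ℝ) ^ (88 * (A.l : ℝ) * κ * n) * A.P (1 - 8 * κ) n y ≤ A.P 1 n y := by
    rw [P_eq_sum, P_eq_sum, Finset.mul_sum]
    refine Finset.sum_le_sum fun p hp => ?_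
    have hq := A.q_posR
    have hJ := hA.J_nodes hp
    unfold wt
    set x : ℝ := (A.q : ℝ) ^ n / 2 ^ p.1 with hx
    have hx0 : 0 < x := by positivity
    have h7 : x ^ (1 : ℝ) = x ^ (8 * κ) * x ^ (1 - 8 * κ) := by
      rw [← Real.rpow_add hx0]
      congr 1; ring
    rw [h7]
    refine mul_le_mul_of_nonneg_right ?_ (by positivity)
    have h8 : (1 / 2 : ℝ) ^ ((11 * A.l * n : ℕ) : ℝ) ≤ x := by
      rw [Real.rpow_natCast]
      have h9 : (1 : ℝ) ≤ (A.q : ℝ) ^ n := one_le_pow₀ A.one_lt_q.le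
      calc (1 / 2 : ℝ) ^ (11 * A.l * n) ≤ (1 / 2) ^ p.1 :=
            pow_le_pow_of_le_one (by norm_num) (by norm_num) hJ
        _ = 1 / 2 ^ p.1 := by rw [div_pow, one_pow]
        _ ≤ x := div_le_div_of_nonneg_right h9 (by positivity)
    have h10 := Real.rpow_le_rpow (by positivity) h8 (show 0 ≤ 8 * κ by positivity)
    refine le_trans (le_of_eq ?_) h10
    rw [← Real.rpow_mul (by norm_num)]
    congr 1
    push_cast
    ring
  calc Real.exp (-(A.bb * (1 - 8 * κ) * n₀)) * (1 / 2 : ℝ) ^ (88 * (A.l : ℝ) * κ * n)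
      ≤ A.P (1 - 8 * κ) n y * (1 / 2 : ℝ) ^ (88 * (A.l : ℝ) * κ * n) :=
        mul_le_mul_of_nonneg_right h5 (by positivity)
    _ = (1 / 2 : ℝ) ^ (88 * (A.l : ℝ) * κ * n) * A.P (1 - 8 * κ) n y := mul_comm _ _
    _ ≤ A.P 1 n y := h6

/-- The recursion for the masses. -/
lemma Str.mass_abs : ∃ l₀ : ℕ, ∀ A : Sys, A.Str → l₀ ≤ A.l → ∀ n : ℕ, 17 * A.blk ≤ n → ∀ (J : ℕ) (v : ℤ),
    |A.PP^[n + 1] (fun _ _ => 1) J v - A.Z * A.PP^[n] (fun _ _ => 1) J v| ≤
      (1 / 2 : ℝ) ^ (100 * A.l) * A.PP^[n - 17 * A.blk] (fun _ _ => 1) J v := by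
  obtain ⟨l₁, h₁⟩ := Sys.Str.eqd
  obtain ⟨l₂, h₂⟩ := Sys.Str.iter_one_le'
  refine ⟨max l₁ l₂, fun A hA hl n hn J v => ?_⟩
  have hq1 : 1 ≤ A.q := A.q_pos
  have e1 : ∀ (J : ℕ) (v : ℤ), A.PP (fun _ _ => 1) J v = A.T 1 (fun _ => 1) v := fun J v =>
    A.PP_iter_const 1 (fun _ => 1) J v
  have hper : ∀ J, Per (A.q ^ 1) (A.PP (fun _ _ => 1) J) := by
    intro J
    exact A.PP_per 0 (fun _ _ => 1) (fun _ _ => rfl) J
  have h3 := h₁ A hA ((le_max_left _ _).trans hl) n (A.PP (fun _ _ => 1)) hn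
    (fun J => (hper J).pow_le (by norm_num)) (fun J v => A.PP_nonneg_one (fun _ _ => zero_le_one) J v) ?_ J v
  · have e2 : ∀ J, mean (A.q ^ 101) (A.PP (fun _ _ => 1) J) = A.Z := by
      intro J
      rw [mean_pow hq1 (by norm_num : 1 ≤ 101) (hper J), pow_one]
      unfold mean Sys.Z
      rw [S_congr (e1 J)]
    have e3 : (fun (J : ℕ) (_ : ℤ) => mean (A.q ^ 101) (A.PP (fun _ _ => 1) J)) =
        fun _ _ => A.Z * 1 := by
      funext J v
      rw [e2, mul_one]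
    rw [e3, A.PP_smul, ← Function.iterate_succ_apply (f := A.PP)] at h3
    exact h3
  · intro J v
    rw [e1]
    have h5 := h₂ A hA ((le_max_right _ _).trans hl) 1 (by omega) v
    refine h5.trans ?_
    rw [show (4 : ℝ) = 2 ^ 2 by norm_num, ← pow_mul]
    exact pow_le_pow_right₀ (by norm_num) (by omega)

end Sys

/-- Choice of the starting point of the stages. -/
lemma exists_start {w : ℕ → ℝ} {L : ℕ} (hw : ∀ n, 0 < w n) {c δ : ℝ} (hc : 0 < c)
    (hδ : δ * L < 1) (hlow : ∀ n : ℕ, c * (1 / 2 : ℝ) ^ (δ * n) ≤ w n) :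
    ∃ n₀ : ℕ, L ≤ n₀ ∧ ∀ n ≤ n₀, n₀ ≤ n + L → w n ≤ 2 * w n₀ := by
  by_contra hcon
  push Not at hcon
  obtain ⟨B, hB⟩ : ∃ B : ℝ, ∀ n < L, w n ≤ B := by
    refine ⟨∑ n ∈ Finset.range L, w n, fun n hn => ?_⟩
    exact Finset.single_le_sum (f := w) (fun i _ => (hw i).le) (Finset.mem_range.2 hn)
  set B' : ℝ := max B 0 with hB'
  have hclaim0 : ∀ n, w n ≤ B' := by
    intro n
    induction n using Nat.strong_induction_on with
    | _ n ih =>
      rcases lt_or_ge n L with h | h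
      · exact (hB n h).trans (le_max_left _ _)
      · obtain ⟨m, hm1, hm2, hm3⟩ := hcon n h
        have hmn : m < n := by
          rcases hm1.lt_or_eq with h' | h'
          · exact h'
          · subst h'
            have := hw m
            linarith
        have h1 := ih m hmn
        have h2 := hw n
        linarith
  have hclaim : ∀ k n : ℕ, k * L ≤ n → w n ≤ B' * (1 / 2) ^ k := by
    intro k
    induction k with
    | zero => intro n _; simpa using hclaim0 n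
    | succ k ih =>
      intro n hn
      have hL : L ≤ n := by nlinarith
      obtain ⟨m, hm1, hm2, hm3⟩ := hcon n hL
      have h1 := ih m (by
        have : (k + 1) * L = k * L + L := by ring
        omega)
      rw [pow_succ]
      linarith
  -- contradiction
  set ρ : ℝ := 2 * (1 / 2 : ℝ) ^ (δ * L) with hρ
  have hρ1 : 1 < ρ := by
    rw [hρ]
    have h1 : (1 / 2 : ℝ) ^ (1 : ℝ) < (1 / 2 : ℝ) ^ (δ * L) :=
      Real.rpow_lt_rpow_of_exponent_gt (by norm_num) (by norm_num) hδ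
    rw [Real.rpow_one] at h1
    linarith
  have hbd : ∀ k : ℕ, ρ ^ k ≤ B' / c := by
    intro k
    have h1 := hlow (k * L)
    have h2 := hclaim k (k * L) le_rfl
    have h3 : (1 / 2 : ℝ) ^ (δ * ((k * L : ℕ) : ℝ)) = ((1 / 2 : ℝ) ^ (δ * L)) ^ k := by
      rw [← Real.rpow_natCast, ← Real.rpow_mul (by norm_num)]
      congr 1
      push_cast
      ring
    rw [h3] at h1
    rw [le_div_iff₀ hc, hρ, mul_pow]
    have h4 : c * ((1 / 2 : ℝ) ^ (δ * L)) ^ k ≤ B' * (1 / 2) ^ k := h1.trans h2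
    have h5 := mul_le_mul_of_nonneg_left h4 (show (0 : ℝ) ≤ 2 ^ k by positivity)
    have h6 : (2 : ℝ) ^ k * (B' * (1 / 2) ^ k) = B' := by
      rw [mul_comm B', ← mul_assoc, ← mul_pow]
      norm_num
    rw [h6] at h5
    linarith
  obtain ⟨k, hk⟩ := ((tendsto_pow_atTop_atTop_of_one_lt hρ1).eventually_gt_atTop (B' / c)).exists
  exact absurd (hbd k) (not_le.2 hk)

lemma num_base {l : ℕ} (hl : 1200 ≤ l) {n : ℕ} (hn : n ≤ (2 ^ (l / 600)) ^ 6) :
    3 * (n * ((99 / 100 : ℝ) ^ l + (1 / 2) ^ (100 * l))) ≤ 1 / 2 := by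
  have h1 : (2 ^ (l / 600)) ^ 6 ≤ 2 ^ (l / 100) := by
    rw [← pow_mul]
    exact Nat.pow_le_pow_right (by norm_num) (by omega)
  have h2 : (n : ℝ) ≤ 2 ^ (l / 100) := by exact_mod_cast hn.trans h1
  set k := l / 100 with hk
  have hk12 : 12 ≤ k := by omega
  have hlk : 100 * k ≤ l := Nat.mul_div_le _ _
  have h3 : (2 : ℝ) ^ k * (99 / 100) ^ l ≤ 1 / 24 := by
    calc (2 : ℝ) ^ k * (99 / 100) ^ l ≤ 2 ^ k * (99 / 100) ^ (100 * k) := by
          gcongr 2 ^ k * ?_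
          exact pow_le_pow_of_le_one (by norm_num) (by norm_num) hlk
      _ = (2 * (99 / 100) ^ 100) ^ k := by rw [mul_pow, ← pow_mul]
      _ ≤ (3 / 4) ^ k := pow_le_pow_left₀ (by positivity) (by norm_num) _
      _ ≤ (3 / 4) ^ 12 := pow_le_pow_of_le_one (by norm_num) (by norm_num) hk12
      _ ≤ 1 / 24 := by norm_num
  have h4 : (2 : ℝ) ^ k * (1 / 2) ^ (100 * l) ≤ 1 / 24 := by
    calc (2 : ℝ) ^ k * (1 / 2) ^ (100 * l) ≤ 2 ^ k * (1 / 2) ^ (k + 5) := by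
          gcongr 2 ^ k * ?_
          exact pow_le_pow_of_le_one (by norm_num) (by norm_num) (by omega)
      _ = 1 / 32 := by
          rw [pow_add, ← mul_assoc, ← mul_pow]
          norm_num
      _ ≤ 1 / 24 := by norm_num
  calc 3 * (n * ((99 / 100 : ℝ) ^ l + (1 / 2) ^ (100 * l)))
      ≤ 3 * (2 ^ k * ((99 / 100 : ℝ) ^ l + (1 / 2) ^ (100 * l))) := by gcongr
    _ = 3 * (2 ^ k * (99 / 100 : ℝ) ^ l + 2 ^ k * (1 / 2) ^ (100 * l)) := by ring
    _ ≤ 1 / 2 := by linarith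

theorem Sys.Str.base : ∃ l₀ : ℕ, ∀ A : Sys, A.Str → l₀ ≤ A.l → ∀ (y : ℤ), ∃ n₀ : ℕ, 17 * A.blk ≤ n₀ ∧
    ∀ n ≤ A.blk ^ 6, (A.T 1)^[n₀] (fun _ => 1) y / 2 ≤ (A.T 1)^[n₀ + n] (fun _ => 1) y := by
  obtain ⟨l₁, h₁⟩ := Sys.Str.worst
  obtain ⟨l₂, h₂⟩ := Sys.Str.mass_abs
  obtain ⟨l₃, h₃⟩ := Sys.exists_small1
  refine ⟨max (max l₁ l₂) (max l₃ 1200), fun A hA hl y => ?_⟩
  have hl1 : l₁ ≤ A.l := (le_max_left _ _).trans ((le_max_left _ _).trans hl)
  have hl2 : l₂ ≤ A.l := (le_max_right _ _).trans ((le_max_left _ _).trans hl)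
  have hl3 : l₃ ≤ A.l := (le_max_left _ _).trans ((le_max_right _ _).trans hl)
  have hl4 : 1200 ≤ A.l := (le_max_right _ _).trans ((le_max_right _ _).trans hl)
  obtain ⟨c, hc, hlow⟩ := h₁ A hA hl1
  set w : ℕ → ℝ := fun n => (A.T 1)^[n] (fun _ => 1) y with hw
  have hwpos : ∀ n, 0 < w n := fun n => A.iter_pos n (fun _ => one_pos) y
  have hδ : 88 * (A.l : ℝ) * (99 / 100) ^ A.l * ((17 * A.blk : ℕ) : ℝ) < 1 := by
    obtain ⟨-, h4⟩ := h₃ A.l hl3
    have h5 := Sys.blk_kappa A.l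
    calc 88 * (A.l : ℝ) * (99 / 100) ^ A.l * ((17 * A.blk : ℕ) : ℝ)
        = 1496 * ((A.l : ℝ) ^ 1 * (2 ^ (A.l / 600) * (99 / 100) ^ A.l)) := by
          unfold Sys.blk
          push_cast
          ring
      _ ≤ 1496 * ((A.l : ℝ) ^ 1 * (199 / 200) ^ A.l) := by gcongr
      _ < 1 := h4
  obtain ⟨n₀, hn₀, hstart⟩ := exists_start hwpos hc hδ (fun n => hlow n y)
  refine ⟨n₀, hn₀, ?_⟩
  set a : ℝ := w n₀ with ha
  have ha0 : 0 < a := hwpos n₀
  set e : ℝ := (1 / 2) ^ (100 * A.l) with he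
  set κ : ℝ := (99 / 100) ^ A.l with hκ
  have hstep : ∀ m, 17 * A.blk ≤ m → |w (m + 1) - A.Z * w m| ≤ e * w (m - 17 * A.blk) := by
    intro m hm
    have h5 := h₂ A hA hl2 m hm 0 y
    rw [Sys.PP_iter_const, Sys.PP_iter_const, Sys.PP_iter_const] at h5
    exact h5
  have hZ1 := hA.Z_ge
  have hZ2 := hA.Z_le
  rw [← hκ] at hZ1
  have hκ0 : 0 < κ := by positivity
  have he0 : 0 < e := by positivity
  have main : ∀ n ≤ A.blk ^ 6, (∀ n' ≤ n, w (n₀ + n') ≤ 3 * a) ∧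
      w (n₀ + n) ≤ a + 3 * (n * (κ + e)) * a ∧ a - 3 * (n * (κ + e)) * a ≤ w (n₀ + n) := by
    intro n
    induction n with
    | zero =>
      intro _
      refine ⟨fun n' hn' => ?_, ?_, ?_⟩
      · have : n' = 0 := by omega
        subst this
        rw [add_zero, ← ha]
        linarith
      · simp [ha]
      · simp [ha]
    | succ n ih =>
      intro hn
      obtain ⟨h5, h6, h7⟩ := ih (by omega)
      have h8 := hstep (n₀ + n) (by omega)
      have h9 : w (n₀ + n - 17 * A.blk) ≤ 3 * a := by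
        rcases le_or_gt (17 * A.blk) n with h | h
        · rw [Nat.add_sub_assoc h]
          exact h5 _ (Nat.sub_le _ _)
        · have h10 := hstart (n₀ + n - 17 * A.blk) (by omega) (by omega)
          linarith
      have h11 : e * w (n₀ + n - 17 * A.blk) ≤ e * (3 * a) := mul_le_mul_of_nonneg_left h9 he0.le
      have h12 := abs_le.1 (h8.trans h11)
      have h13 := hwpos (n₀ + n)
      have h14 := h5 n le_rfl
      have hnum := num_base hl4 (n := n + 1) (by simpa [Sys.blk] using hn)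
      rw [← hκ, ← he] at hnum
      have h15 : A.Z * w (n₀ + n) ≤ w (n₀ + n) := mul_le_of_le_one_left h13.le hZ2
      have h16 : w (n₀ + n) - κ * (3 * a) ≤ A.Z * w (n₀ + n) := by
        have : (1 - A.Z) * w (n₀ + n) ≤ κ * (3 * a) :=
          mul_le_mul (by linarith) h14 h13.le hκ0.le
        linarith
      have h17 : w (n₀ + (n + 1)) ≤ a + 3 * (((n + 1 : ℕ) : ℝ) * (κ + e)) * a := by
        rw [← add_assoc]
        push_cast
        have : 0 ≤ κ * (3 * a) := by positivity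
        linarith [h12.2]
      have h18 : a - 3 * (((n + 1 : ℕ) : ℝ) * (κ + e)) * a ≤ w (n₀ + (n + 1)) := by
        rw [← add_assoc]
        push_cast
        linarith [h12.1]
      refine ⟨fun n' hn' => ?_, h17, h18⟩
      rcases hn'.lt_or_eq with h | h
      · exact h5 n' (by omega)
      · subst h
        refine h17.trans ?_
        have := mul_le_mul_of_nonneg_right hnum ha0.le
        linarith
  intro n hn
  obtain ⟨-, -, h5⟩ := main n hn
  have hnum := num_base hl4 (n := n) (by simpa [Sys.blk] using hn)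
  rw [← hκ, ← he] at hnum
  have := mul_le_mul_of_nonneg_right hnum ha0.le
  change a / 2 ≤ w (n₀ + n)
  linarith

end CollatzOne
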