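import Pool.Agent.CollatzDens.Defs

set_option autoImplicit false

/-!
The concrete tower of block systems.
-/

namespace CollatzOne

open Finset

/-! ### Concatenation of words -/

lemma cvd_append {W V : List ℕ} {y : ℤ} : vd (W ++ V) y ↔ vd W y ∧ vd V (ch W y) := by
  induction W generalizing y with
  | nil => simp [vd_nil, ch_nil]
  | cons e W ih =>
    rw [List.cons_append, vd_cons, vd_cons, ih]
    constructor
    · rintro ⟨h1, h2, h3⟩
      refine ⟨⟨h1, h2⟩, ?_⟩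
      rwa [ch_cons (vd_cons.2 ⟨h1, h2⟩)]
    · rintro ⟨⟨h1, h2⟩, h3⟩
      refine ⟨h1, h2, ?_⟩
      rwa [ch_cons (vd_cons.2 ⟨h1, h2⟩)] at h3

lemma cch_append {W V : List ℕ} {y : ℤ} (h : vd (W ++ V) y) : ch (W ++ V) y = ch V (ch W y) := by
  induction W generalizing y with
  | nil => simp [ch_nil]
  | cons e W ih =>
    rw [List.cons_append] at h ⊢
    obtain ⟨h1, h2⟩ := vd_cons.1 h
    rw [ch_cons h, ih h2, ch_cons (vd_cons.2 ⟨h1, (cvd_append.1 h2).1⟩)]

lemma cbs_nonneg (W : List ℕ) : 0 ≤ bs W := by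
  induction W with
  | nil => simp [bs_nil]
  | cons e W ih =>
    rw [bs_cons]
    have : 0 ≤ cc e := by unfold cc; positivity
    positivity

lemma cbs_le (W : List ℕ) (hW : ∀ e ∈ W, 1 ≤ e) : bs W ≤ 2 ^ W.length * 2 ^ js W := by
  induction W with
  | nil => simp [bs_nil, js_nil]
  | cons e W ih =>
    have h1 := ih (fun x hx => hW x (by simp [hx]))
    have he : 1 ≤ e := hW e (by simp)
    have h3 : 3 * cc e ≤ 2 ^ e := by unfold cc; omega
    have h2e : (2 : ℤ) ≤ 2 ^ e := by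
      calc (2 : ℤ) = 2 ^ 1 := by norm_num
        _ ≤ 2 ^ e := pow_le_pow_right₀ (by norm_num) he
    rw [bs_cons, js_cons, List.length_cons, pow_succ, pow_add 2 e]
    set P : ℤ := 2 ^ js W with hP
    set M : ℤ := 2 ^ W.length with hM
    set X : ℤ := 2 ^ e with hX
    have hP0 : 0 < P := by positivity
    have hM0 : 1 ≤ M := one_le_pow₀ (by norm_num)
    -- `3 b + P c <= 3 M P + P X / 3 <= 2 M X P`
    have h4 : P * (3 * cc e) ≤ P * X := mul_le_mul_of_nonneg_left h3 hP0.le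
    have h5 : 0 ≤ P * (M - 1) := mul_nonneg hP0.le (by linarith)
    have h6 : 0 ≤ P * M * (X - 2) := mul_nonneg (by positivity) (by linarith)
    have h7 : 0 ≤ P * X * (M - 1) := mul_nonneg (by positivity) (by linarith)
    nlinarith

/-! ### The letters -/

/-- Letters of the strong system of block length `l`. -/
def lettT (l : ℕ) : Finset (List ℕ) :=
  (words (11 * l) l).filter (fun W => js W ≤ 11 * l ∧ 3 ^ (17 * l) ≤ 2 ^ (16 * js W))

lemma mem_lettT {l : ℕ} {W : List ℕ} : W ∈ lettT l ↔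
    (W.length = l ∧ ∀ e ∈ W, 1 ≤ e ∧ e ≤ 11 * l) ∧ js W ≤ 11 * l ∧ 3 ^ (17 * l) ≤ 2 ^ (16 * js W) := by
  unfold lettT
  rw [mem_filter, mem_words]

lemma le_js {W : List ℕ} {e : ℕ} (h : e ∈ W) : e ≤ js W := by
  induction W with
  | nil => simp at h
  | cons x W ih =>
    rw [js_cons]
    rcases List.mem_cons.1 h with rfl | h
    · omega
    · have := ih h; omega

lemma js_le {k : ℕ} {W : List ℕ} (h : ∀ e ∈ W, e ≤ k) : js W ≤ k * W.length := by
  induction W with
  | nil => simp [js_nil]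
  | cons e W ih =>
    rw [js_cons, List.length_cons]
    have h1 := h e (by simp)
    have h2 := ih (fun x hx => h x (by simp [hx]))
    rw [Nat.mul_succ]; omega

lemma five_memT {l : ℕ} (hl : 1 ≤ l) {W : List ℕ} (h1 : W.length = l)
    (h2 : ∀ e ∈ W, 5 ≤ e ∧ e ≤ 10) : W ∈ lettT l := by
  rw [mem_lettT]
  have h3 := js_ge (k := 5) (fun e he => (h2 e he).1)
  have h4 := js_le (k := 10) (fun e he => (h2 e he).2)
  rw [h1] at h3 h4
  refine ⟨⟨h1, fun e he => ?_⟩, by omega, ?_⟩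
  · have := h2 e he
    omega
  · calc 3 ^ (17 * l) = (3 ^ 17) ^ l := by rw [pow_mul]
      _ ≤ (2 ^ 80) ^ l := Nat.pow_le_pow_left (by norm_num) l
      _ = 2 ^ (80 * l) := by rw [pow_mul]
      _ ≤ 2 ^ (16 * js W) := Nat.pow_le_pow_right (by norm_num) (by omega)

lemma two_le_T {l : ℕ} (hl : 600 ≤ l) {W : List ℕ} (h : W ∈ lettT l) : 2 * 3 ^ l ≤ 2 ^ js W := by
  have h1 := (mem_lettT.1 h).2.2
  apply le_of_pow_le_pow_left₀ (n := 16) (by norm_num) (by positivity)
  calc (2 * 3 ^ l) ^ 16 = 2 ^ 16 * 3 ^ (16 * l) := by rw [mul_pow, ← pow_mul, mul_comm l]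
    _ ≤ 3 ^ l * 3 ^ (16 * l) := by
        apply Nat.mul_le_mul_right
        calc 2 ^ 16 ≤ 3 ^ 11 := by norm_num
          _ ≤ 3 ^ l := Nat.pow_le_pow_right (by norm_num) (by omega)
    _ = 3 ^ (17 * l) := by rw [← pow_add]; congr 1; ring
    _ ≤ 2 ^ (16 * js W) := h1
    _ = (2 ^ js W) ^ 16 := by rw [← pow_mul, mul_comm]

lemma jsum_flatT {l : ℕ} (Ω : List {W // W ∈ lettT l}) :
    jsum (fun w : {W // W ∈ lettT l} => js w.1) Ω = js ((Ω.map Subtype.val).flatten) := by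
  induction Ω with
  | nil => rfl
  | cons w Ω ih =>
    rw [List.map_cons, List.flatten_cons, js_append, ← ih]
    simp [jsum]

lemma bsum_flatT {l : ℕ} (Ω : List {W // W ∈ lettT l}) :
    bsum (3 ^ l) (fun w : {W // W ∈ lettT l} => js w.1) (fun w => bs w.1) Ω =
      bs ((Ω.map Subtype.val).flatten) := by
  induction Ω with
  | nil => rfl
  | cons w Ω ih =>
    rw [List.map_cons, List.flatten_cons, bs_append, ← ih, bsum, jsum_flatT,
      (mem_lettT.1 w.2).1.1]

lemma flat_injT {l : ℕ} (Ω : List {W // W ∈ lettT l}) : ∀ Ω' : List {W // W ∈ lettT l},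
    Ω.length = Ω'.length →
    (Ω.map Subtype.val).flatten = (Ω'.map Subtype.val).flatten → Ω = Ω' := by
  induction Ω with
  | nil =>
    intro Ω' h _
    exact (List.length_eq_zero_iff.1 h.symm).symm
  | cons w Ω ih =>
    intro Ω' h hf
    cases Ω' with
    | nil => simp at h
    | cons w' Ω' =>
      rw [List.map_cons, List.flatten_cons, List.map_cons, List.flatten_cons] at hf
      have h1 := List.append_inj hf (by rw [(mem_lettT.1 w.2).1.1, (mem_lettT.1 w'.2).1.1])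
      rw [Subtype.ext h1.1, ih Ω' (by simpa using h) h1.2]

lemma flat_lengthT {l : ℕ} (Ω : List {W // W ∈ lettT l}) :
    ((Ω.map Subtype.val).flatten).length = l * Ω.length := by
  induction Ω with
  | nil => simp
  | cons w Ω ih =>
    rw [List.map_cons, List.flatten_cons, List.length_append, ih, (mem_lettT.1 w.2).1.1,
      List.length_cons]
    ring

lemma flat_one_leT {l : ℕ} (Ω : List {W // W ∈ lettT l}) :
    ∀ e ∈ (Ω.map Subtype.val).flatten, 1 ≤ e := by
  intro e he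
  rw [List.mem_flatten] at he
  obtain ⟨W, hW, he⟩ := he
  rw [List.mem_map] at hW
  obtain ⟨w, -, rfl⟩ := hW
  exact ((mem_lettT.1 w.2).1.2 e he).1

/-- The strong block system of length `l`. -/
def tsys (l : ℕ) (hl : 600 ≤ l) : Sys where
  l := l
  hl := by omega
  ι := {W // W ∈ lettT l}
  fin := inferInstance
  J := fun w => js w.1
  b := fun w => bs w.1
  two_le := fun w => two_le_T hl w.2
  inj := by
    intro Ω Ω' h1 h2 h3
    rw [jsum_flatT, jsum_flatT] at h2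
    rw [bsum_flatT, bsum_flatT] at h3
    exact flat_injT Ω Ω' h1 (word_unique _ _ (flat_one_leT Ω) (flat_one_leT Ω')
      (by rw [flat_lengthT, flat_lengthT, h1]) h2 h3)
  deg := by
    intro y
    obtain ⟨W, W', h0, h1, h1', h2, h2', h3, h3'⟩ := exists_two_valid (by omega : 1 ≤ l) y
    refine ⟨⟨W, five_memT (by omega) h1 h2⟩, ⟨W', five_memT (by omega) h1' h2'⟩, ?_, ?_, ?_⟩
    · intro h
      exact h0 (congrArg Subtype.val h)
    · have := h3
      unfold vd at this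
      rwa [h1] at this
    · have := h3'
      unfold vd at this
      rwa [h1'] at this

lemma tsys_q (l : ℕ) (hl : 600 ≤ l) : ((tsys l hl).q : ℤ) = 3 ^ l := by
  unfold Sys.q; push_cast; rfl

lemma tsys_valid {l : ℕ} {hl : 600 ≤ l} (w : (tsys l hl).ι) (y : ℤ) :
    (tsys l hl).valid w y ↔ vd w.1 y := by
  change {W // W ∈ lettT l} at w
  have hlen : (w.1).length = l := (mem_lettT.1 w.2).1.1
  unfold Sys.valid vd
  rw [tsys_q, hlen]
  rfl

lemma tsys_child {l : ℕ} {hl : 600 ≤ l} (w : (tsys l hl).ι) (y : ℤ) :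
    (tsys l hl).child w y = ch w.1 y := by
  change {W // W ∈ lettT l} at w
  have hlen : (w.1).length = l := (mem_lettT.1 w.2).1.1
  unfold Sys.child ch
  rw [tsys_q, hlen]
  rfl

/-- `PP` as a sum over words. -/
lemma tsys_PP {l : ℕ} {hl : 600 ≤ l} (f : ℕ → ℤ → ℝ) (J : ℕ) (v : ℤ) :
    (tsys l hl).PP f J v = ∑ W ∈ lettT l, if vd W v then
      (3 : ℝ) ^ l / 2 ^ js W * f (J + js W) (ch W v) else 0 := by
  have hq : ((tsys l hl).q : ℝ) = 3 ^ l := by
    have := tsys_q l hl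
    exact_mod_cast this
  unfold Sys.PP
  have h1 : ∀ w : (tsys l hl).ι,
      (if (tsys l hl).valid w v then ((tsys l hl).q : ℝ) / 2 ^ (tsys l hl).J w *
        f (J + (tsys l hl).J w) ((tsys l hl).child w v) else 0) =
      (fun W : List ℕ => if vd W v then
        (3 : ℝ) ^ l / 2 ^ js W * f (J + js W) (ch W v) else 0) (w : {W // W ∈ lettT l}).1 := by
    intro w
    rw [tsys_child, hq]
    by_cases h : vd w.1 v
    · rw [if_pos ((tsys_valid w v).2 h)]
      show _ = (if vd w.1 v then _ else _)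
      rw [if_pos h]
      rfl
    · rw [if_neg (fun h' => h ((tsys_valid w v).1 h'))]
      show _ = (if vd w.1 v then _ else _)
      rw [if_neg h]
  calc _ = ∑ w : {W // W ∈ lettT l}, (fun W : List ℕ => if vd W v then
        (3 : ℝ) ^ l / 2 ^ js W * f (J + js W) (ch W v) else 0) w.1 := sum_congr rfl fun w _ => h1 w
    _ = _ := Finset.sum_coe_sort (lettT l) (fun W : List ℕ => if vd W v then
        (3 : ℝ) ^ l / 2 ^ js W * f (J + js W) (ch W v) else 0)

/-! ### Doubling -/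

lemma lettT_append {l : ℕ} {W V : List ℕ} (hW : W ∈ lettT l) (hV : V ∈ lettT l) :
    W ++ V ∈ lettT (2 * l) := by
  rw [mem_lettT] at hW hV ⊢
  obtain ⟨⟨h1, h2⟩, h3, h4⟩ := hW
  obtain ⟨⟨h1', h2'⟩, h3', h4'⟩ := hV
  refine ⟨⟨by rw [List.length_append]; omega, fun e he => ?_⟩, by rw [js_append]; omega, ?_⟩
  · rcases List.mem_append.1 he with h | h
    · have := h2 e h
      omega
    · have := h2' e h
      omega
  · rw [js_append]
    calc 3 ^ (17 * (2 * l)) = 3 ^ (17 * l) * 3 ^ (17 * l) := by rw [← pow_add]; congr 1; ring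
      _ ≤ 2 ^ (16 * js W) * 2 ^ (16 * js V) := Nat.mul_le_mul h4 h4'
      _ = 2 ^ (16 * (js W + js V)) := by rw [← pow_add]; congr 1; ring

lemma tsys_double {l l' : ℕ} (hl : 600 ≤ l) (hl' : 600 ≤ l') (h : l' = 2 * l) (f : ℕ → ℤ → ℝ)
    (hf : ∀ J v, 0 ≤ f J v) (J : ℕ) (v : ℤ) :
    (tsys l hl).PP ((tsys l hl).PP f) J v ≤ (tsys l' hl').PP f J v := by
  subst h
  rw [tsys_PP, tsys_PP]
  set G : List ℕ → ℝ := fun U => if vd U v then
      (3 : ℝ) ^ (2 * l) / 2 ^ js U * f (J + js U) (ch U v) else 0 with hG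
  have hG0 : ∀ U, 0 ≤ G U := by
    intro U
    rw [hG]
    dsimp only
    split_ifs
    · exact mul_nonneg (by positivity) (hf _ _)
    · exact le_rfl
  have h1 : ∀ W ∈ lettT l, (if vd W v then
      (3 : ℝ) ^ l / 2 ^ js W * (tsys l hl).PP f (J + js W) (ch W v) else 0) =
      ∑ V ∈ lettT l, G (W ++ V) := by
    intro W _
    by_cases hv : vd W v
    · rw [if_pos hv, tsys_PP, mul_sum]
      refine sum_congr rfl fun V _ => ?_
      rw [hG]
      dsimp only
      by_cases hv2 : vd V (ch W v)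
      · have h3 : vd (W ++ V) v := cvd_append.2 ⟨hv, hv2⟩
        rw [if_pos h3, if_pos hv2, cch_append h3, js_append, pow_add, two_mul, pow_add, add_assoc]
        field_simp
      · rw [if_neg (fun h3 => hv2 (cvd_append.1 h3).2), if_neg hv2, mul_zero]
    · rw [if_neg hv]
      refine (sum_eq_zero fun V _ => ?_).symm
      rw [hG]
      dsimp only
      rw [if_neg (fun h3 => hv (cvd_append.1 h3).1)]
  rw [sum_congr rfl h1, ← sum_product']
  have hinj : Set.InjOn (fun p : List ℕ × List ℕ => p.1 ++ p.2) (lettT l ×ˢ lettT l : Finset _) := by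
    rintro ⟨W, V⟩ h1 ⟨W', V'⟩ h2 h3
    rw [mem_coe, mem_product] at h1 h2
    have h4 : W.length = W'.length := by
      rw [(mem_lettT.1 h1.1).1.1, (mem_lettT.1 h2.1).1.1]
    obtain ⟨h5, h6⟩ := List.append_inj h3 h4
    exact Prod.ext h5 h6
  rw [← sum_image (f := G) (g := fun p : List ℕ × List ℕ => p.1 ++ p.2) hinj]
  refine sum_le_sum_of_subset_of_nonneg ?_ fun U _ _ => hG0 U
  intro U hU
  rw [mem_image] at hU
  obtain ⟨p, hp, rfl⟩ := hU
  rw [mem_product] at hp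
  exact lettT_append hp.1 hp.2

/-! ### Nonperiodic points and counting -/

lemma Ap.ch {W : List ℕ} (hW : ∀ e ∈ W, 1 ≤ e) {v : ℤ} (h : vd W v) (hv : Ap v) : Ap (ch W v) := by
  induction W generalizing v with
  | nil => rwa [ch_nil]
  | cons e W ih =>
    obtain ⟨h1, h2⟩ := vd_cons.1 h
    rw [ch_cons h]
    refine ih (fun x hx => hW x (by simp [hx])) h2 ?_
    unfold Ap at hv ⊢
    rw [← child_eq h1]
    exact hv.child (hW e (by simp)) ((valid_iff e v).2 h1)

lemma NX_nonneg (X : ℝ) (v : ℤ) : 0 ≤ NX X v := Nat.cast_nonneg _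

lemma NX_letters (E : ℕ) (X : ℝ) {v : ℤ} (hv : Ap v) :
    ∑ e ∈ Icc 1 E, (if v1 e v then NX X (c1 e v) else 0) ≤ NX X v := by
  have h := CollatzExp.sum_children_le hv (X := X) E
  have h2 : ((∑ e ∈ Icc 1 E, (if CollatzExp.valid e (3 * v - 1) then
      (CollatzExp.DD (CollatzExp.child e (3 * v - 1)) X).card else 0) : ℕ) : ℝ) ≤ NX X v := by
    unfold NX
    exact_mod_cast h
  refine le_trans (le_of_eq ?_) h2
  push_cast
  refine sum_congr rfl fun e _ => ?_
  by_cases h1 : v1 e v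
  · rw [if_pos h1, if_pos ((valid_iff e v).2 h1), child_eq h1]
    rfl
  · rw [if_neg h1, if_neg (fun h' => h1 ((valid_iff e v).1 h'))]
    

lemma NX_words (E n : ℕ) (X : ℝ) : ∀ {v : ℤ}, Ap v →
    ∑ W ∈ words E n, (if vd W v then NX X (ch W v) else 0) ≤ NX X v := by
  induction n with
  | zero =>
    intro v _
    simp [words, vd_nil, ch_nil]
  | succ n ih =>
    intro v hv
    rw [sum_words_succ]
    refine le_trans (sum_le_sum fun e he => ?_) (NX_letters E X hv)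
    rw [mem_Icc] at he
    by_cases h1 : v1 e v
    · rw [if_pos h1]
      have hv' : Ap (c1 e v) := by
        unfold Ap at hv ⊢
        rw [← child_eq h1]
        exact hv.child he.1 ((valid_iff e v).2 h1)
      refine le_trans (le_of_eq ?_) (ih hv')
      refine sum_congr rfl fun W _ => ?_
      by_cases h2 : vd W (c1 e v)
      · have h3 : vd (e :: W) v := vd_cons.2 ⟨h1, h2⟩
        rw [if_pos h2, if_pos h3, ch_cons h3]
      · rw [if_neg h2, if_neg (fun h' => h2 (vd_cons.1 h').2)]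
    · rw [if_neg h1]
      refine (sum_eq_zero fun W _ => ?_).le
      rw [if_neg (fun h' => h1 (vd_cons.1 h').1)]

lemma tsys_aper {l : ℕ} {hl : 600 ≤ l} (w : (tsys l hl).ι) (v : ℤ) (h : (tsys l hl).valid w v)
    (hv : Ap v) : Ap ((tsys l hl).child w v) := by
  rw [tsys_child]
  exact Ap.ch (fun e he => ((mem_lettT.1 w.2).1.2 e he).1) ((tsys_valid w v).1 h) hv

lemma tsys_count {l : ℕ} {hl : 600 ≤ l} (X : ℝ) (v : ℤ) (hv : Ap v) :
    ∑ w, (if (tsys l hl).valid w v then NX X ((tsys l hl).child w v) else 0) ≤ NX X v := by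
  have h1 : ∀ w : (tsys l hl).ι,
      (if (tsys l hl).valid w v then NX X ((tsys l hl).child w v) else 0) =
      (fun W : List ℕ => if vd W v then NX X (ch W v) else 0) (w : {W // W ∈ lettT l}).1 := by
    intro w
    rw [tsys_child]
    by_cases h : vd w.1 v
    · rw [if_pos ((tsys_valid w v).2 h)]
      show _ = (if vd w.1 v then _ else _)
      rw [if_pos h]
    · rw [if_neg (fun h' => h ((tsys_valid w v).1 h'))]
      show _ = (if vd w.1 v then _ else _)
      rw [if_neg h]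
  calc _ = ∑ w : {W // W ∈ lettT l}, (fun W : List ℕ => if vd W v then NX X (ch W v) else 0) w.1 :=
        sum_congr rfl fun w _ => h1 w
    _ = ∑ W ∈ lettT l, (if vd W v then NX X (ch W v) else 0) :=
        Finset.sum_coe_sort (lettT l) (fun W : List ℕ => if vd W v then NX X (ch W v) else 0)
    _ ≤ ∑ W ∈ words (11 * l) l, (if vd W v then NX X (ch W v) else 0) := by
        refine sum_le_sum_of_subset_of_nonneg (filter_subset _ _) fun W _ _ => ?_
        split_ifs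
        · exact NX_nonneg _ _
        · exact le_rfl
    _ ≤ _ := NX_words _ _ _ hv

/-! ### The mass of the letters -/

lemma tsys_Z (l : ℕ) (hl : 600 ≤ l) : (tsys l hl).Z = ∑ W ∈ lettT l, (1 / 2 : ℝ) ^ js W := by
  rw [Sys.ent_Z_eq]
  calc _ = ∑ w : {W // W ∈ lettT l}, (fun W : List ℕ => (1 / 2 : ℝ) ^ js W) w.1 := by
        refine sum_congr rfl fun w _ => ?_
        show 1 / (2 : ℝ) ^ js w.1 = (1 / 2 : ℝ) ^ js w.1
        rw [one_div, one_div, inv_pow]
    _ = _ := Finset.sum_coe_sort (lettT l) (fun W : List ℕ => (1 / 2 : ℝ) ^ js W)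

lemma sum_pow_words_le {x : ℝ} (h0 : 0 < x) (h1 : x < 1) (E l : ℕ) :
    ∑ W ∈ words E l, x ^ js W ≤ (x / (1 - x)) ^ l := by
  have h2 := sum_words_prod E l (fun e => x ^ e)
  have h3 : ∀ W : List ℕ, (W.map (fun e => x ^ e)).prod = x ^ js W := by
    intro W
    induction W with
    | nil => simp [js_nil]
    | cons e W ih => rw [List.map_cons, List.prod_cons, ih, js_cons, pow_add]
  rw [sum_congr rfl fun W _ => h3 W] at h2
  rw [h2]
  have h4 := geom_Icc x E
  have h5 : 0 < 1 - x := by linarith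
  have h6 : ∑ e ∈ Icc 1 E, x ^ e ≤ x / (1 - x) := by
    rw [le_div_iff₀ h5]
    have : 0 < x ^ (E + 1) := by positivity
    linarith
  exact pow_le_pow_left₀ (sum_nonneg fun _ _ => by positivity) h6 l

lemma tail_high (l : ℕ) :
    ∑ W ∈ (words (11 * l) l).filter (fun W => ¬ js W ≤ 11 * l), (1 / 2 : ℝ) ^ js W ≤
      (1 / 20 : ℝ) ^ l := by
  calc _ ≤ ∑ W ∈ (words (11 * l) l).filter (fun W => ¬ js W ≤ 11 * l),
        (2 / 3 : ℝ) ^ (11 * l) * (3 / 4 : ℝ) ^ js W := by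
        refine sum_le_sum fun W hW => ?_
        rw [mem_filter] at hW
        have h1 : 11 * l ≤ js W := by omega
        have h2 : (2 / 3 : ℝ) ^ js W ≤ (2 / 3 : ℝ) ^ (11 * l) :=
          pow_le_pow_of_le_one (by norm_num) (by norm_num) h1
        calc (1 / 2 : ℝ) ^ js W = (2 / 3 : ℝ) ^ js W * (3 / 4 : ℝ) ^ js W := by
              rw [← mul_pow]; norm_num
          _ ≤ _ := by gcongr
    _ ≤ ∑ W ∈ words (11 * l) l, (2 / 3 : ℝ) ^ (11 * l) * (3 / 4 : ℝ) ^ js W :=
        sum_le_sum_of_subset_of_nonneg (filter_subset _ _) fun _ _ _ => by positivity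
    _ = (2 / 3 : ℝ) ^ (11 * l) * ∑ W ∈ words (11 * l) l, (3 / 4 : ℝ) ^ js W := by rw [mul_sum]
    _ ≤ (2 / 3 : ℝ) ^ (11 * l) * ((3 / 4) / (1 - 3 / 4)) ^ l := by
        gcongr
        exact sum_pow_words_le (by norm_num) (by norm_num) _ _
    _ = ((2 / 3 : ℝ) ^ 11 * ((3 / 4) / (1 - 3 / 4))) ^ l := by rw [mul_pow, ← pow_mul]
    _ ≤ (1 / 20 : ℝ) ^ l := pow_le_pow_left₀ (by positivity) (by norm_num) l

lemma tail_low (l : ℕ) :
    ∑ W ∈ (words (11 * l) l).filter (fun W => ¬ 3 ^ (17 * l) ≤ 2 ^ (16 * js W)), (1 / 2 : ℝ) ^ js W ≤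
      (243 / 250 : ℝ) ^ l := by
  calc _ ≤ ∑ W ∈ (words (11 * l) l).filter (fun W => ¬ 3 ^ (17 * l) ≤ 2 ^ (16 * js W)),
        (1458 / 1000 : ℝ) ^ l * (2 / 5 : ℝ) ^ js W := by
        refine sum_le_sum fun W hW => ?_
        rw [mem_filter] at hW
        have h1 : 16 * js W ≤ 27 * l := by
          by_contra hcon
          apply hW.2
          calc 3 ^ (17 * l) = (3 ^ 17) ^ l := by rw [pow_mul]
            _ ≤ (2 ^ 27) ^ l := Nat.pow_le_pow_left (by norm_num) l
            _ = 2 ^ (27 * l) := by rw [pow_mul]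
            _ ≤ 2 ^ (16 * js W) := Nat.pow_le_pow_right (by norm_num) (by omega)
        have h2 : (5 / 4 : ℝ) ^ js W ≤ (1458 / 1000 : ℝ) ^ l := by
          apply le_of_pow_le_pow_left₀ (n := 16) (by norm_num) (by positivity)
          calc ((5 / 4 : ℝ) ^ js W) ^ 16 = (5 / 4 : ℝ) ^ (16 * js W) := by rw [← pow_mul, mul_comm]
            _ ≤ (5 / 4 : ℝ) ^ (27 * l) := pow_le_pow_right₀ (by norm_num) h1
            _ = ((5 / 4 : ℝ) ^ 27) ^ l := by rw [pow_mul]
            _ ≤ ((1458 / 1000 : ℝ) ^ 16) ^ l := pow_le_pow_left₀ (by positivity) (by norm_num) l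
            _ = ((1458 / 1000 : ℝ) ^ l) ^ 16 := by rw [← pow_mul, ← pow_mul, mul_comm]
        calc (1 / 2 : ℝ) ^ js W = (5 / 4 : ℝ) ^ js W * (2 / 5 : ℝ) ^ js W := by
              rw [← mul_pow]; norm_num
          _ ≤ _ := by gcongr
    _ ≤ ∑ W ∈ words (11 * l) l, (1458 / 1000 : ℝ) ^ l * (2 / 5 : ℝ) ^ js W :=
        sum_le_sum_of_subset_of_nonneg (filter_subset _ _) fun _ _ _ => by positivity
    _ = (1458 / 1000 : ℝ) ^ l * ∑ W ∈ words (11 * l) l, (2 / 5 : ℝ) ^ js W := by rw [mul_sum]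
    _ ≤ (1458 / 1000 : ℝ) ^ l * ((2 / 5) / (1 - 2 / 5)) ^ l := by
        gcongr
        exact sum_pow_words_le (by norm_num) (by norm_num) _ _
    _ = (1458 / 1000 * ((2 / 5) / (1 - 2 / 5)) : ℝ) ^ l := by rw [mul_pow]
    _ ≤ (243 / 250 : ℝ) ^ l := pow_le_pow_left₀ (by positivity) (by norm_num) l

lemma tsys_Z_le (l : ℕ) (hl : 600 ≤ l) : (tsys l hl).Z ≤ 1 := by
  rw [tsys_Z]
  calc _ ≤ ∑ W ∈ words (11 * l) l, (1 / 2 : ℝ) ^ js W :=
        sum_le_sum_of_subset_of_nonneg (filter_subset _ _) fun _ _ _ => by positivity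
    _ = (1 - (1 / 2 : ℝ) ^ (11 * l)) ^ l := sum_half_words _ _
    _ ≤ 1 := by
        have h1 : (1 / 2 : ℝ) ^ (11 * l) ≤ 1 := pow_le_one₀ (by norm_num) (by norm_num)
        have h2 : (0 : ℝ) < (1 / 2 : ℝ) ^ (11 * l) := by positivity
        exact pow_le_one₀ (by linarith) (by linarith)

lemma small_pow {x : ℝ} (h0 : 0 ≤ x) {l : ℕ} (hl : 600 ≤ l) (h : x ^ 200 ≤ (99 / 100) ^ 200 / 3)
    (h1 : x ≤ 99 / 100) : x ^ l ≤ (99 / 100 : ℝ) ^ l / 3 := by
  obtain ⟨k, rfl⟩ := Nat.exists_eq_add_of_le (show 200 ≤ l by omega)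
  rw [pow_add, pow_add]
  calc x ^ 200 * x ^ k ≤ ((99 / 100) ^ 200 / 3) * (99 / 100 : ℝ) ^ k := by
        gcongr
    _ = _ := by ring

lemma tsys_Z_ge (l : ℕ) (hl : 600 ≤ l) : 1 - (99 / 100 : ℝ) ^ l ≤ (tsys l hl).Z := by
  rw [tsys_Z]
  have h1 := sum_half_words (11 * l) l
  have h2 := tail_high l
  have h3 := tail_low l
  have h4 : 1 - l * (1 / 2 : ℝ) ^ (11 * l) ≤ (1 - (1 / 2 : ℝ) ^ (11 * l)) ^ l := by
    have h5 := one_add_mul_le_pow (a := -(1 / 2 : ℝ) ^ (11 * l)) (by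
      have : (1 / 2 : ℝ) ^ (11 * l) ≤ 1 := pow_le_one₀ (by norm_num) (by norm_num)
      linarith) l
    rw [← sub_eq_add_neg] at h5
    linarith
  have h5 : ∑ W ∈ words (11 * l) l, (1 / 2 : ℝ) ^ js W ≤ ∑ W ∈ lettT l, (1 / 2 : ℝ) ^ js W +
      ∑ W ∈ (words (11 * l) l).filter (fun W => ¬ js W ≤ 11 * l), (1 / 2 : ℝ) ^ js W +
      ∑ W ∈ (words (11 * l) l).filter (fun W => ¬ 3 ^ (17 * l) ≤ 2 ^ (16 * js W)),
        (1 / 2 : ℝ) ^ js W := by
    unfold lettT
    rw [sum_filter, sum_filter, sum_filter, ← sum_add_distrib, ← sum_add_distrib]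
    refine sum_le_sum fun W _ => ?_
    have h0 : (0 : ℝ) ≤ (1 / 2 : ℝ) ^ js W := by positivity
    by_cases ha : js W ≤ 11 * l
    · by_cases hb : 3 ^ (17 * l) ≤ 2 ^ (16 * js W)
      · rw [if_pos ⟨ha, hb⟩]
        split_ifs <;> linarith
      · rw [if_pos hb]
        split_ifs <;> linarith
    · rw [if_pos ha]
      split_ifs <;> linarith
  have h6 : (l : ℝ) * (1 / 2 : ℝ) ^ (11 * l) ≤ (1 / 1024 : ℝ) ^ l := by
    have h7 : (l : ℝ) ≤ 2 ^ l := by exact_mod_cast (Nat.lt_two_pow_self (n := l)).le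
    calc (l : ℝ) * (1 / 2 : ℝ) ^ (11 * l) ≤ 2 ^ l * (1 / 2 : ℝ) ^ (11 * l) := by gcongr
      _ = (2 * (1 / 2 : ℝ) ^ 11) ^ l := by rw [mul_pow, ← pow_mul]
      _ = (1 / 1024 : ℝ) ^ l := by norm_num
  have h7 : (1 / 1024 : ℝ) ^ l ≤ (99 / 100 : ℝ) ^ l / 3 :=
    small_pow (by norm_num) hl (by norm_num) (by norm_num)
  have h8 : (1 / 20 : ℝ) ^ l ≤ (99 / 100 : ℝ) ^ l / 3 :=
    small_pow (by norm_num) hl (by norm_num) (by norm_num)
  have h9 : (243 / 250 : ℝ) ^ l ≤ (99 / 100 : ℝ) ^ l / 3 :=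
    small_pow (by norm_num) hl (by norm_num) (by norm_num)
  linarith

lemma tsys_str (l : ℕ) (hl : 600 ≤ l) : (tsys l hl).Str where
  hl := hl
  J_le := fun w => (mem_lettT.1 w.2).2.1
  b_le := fun w => by
    show |bs w.1| ≤ 2 ^ l * 2 ^ js w.1
    have hlen : (w.1).length = l := (mem_lettT.1 w.2).1.1
    have h1 := cbs_le w.1 (fun e he => ((mem_lettT.1 w.2).1.2 e he).1)
    rw [hlen] at h1
    rwa [abs_of_nonneg (cbs_nonneg _)]
  ht := fun w => (mem_lettT.1 w.2).2.2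
  Z_le := tsys_Z_le l hl
  Z_ge := tsys_Z_ge l hl

lemma tower_len (i : ℕ) : 600 ≤ 600 * 2 ^ i := Nat.le_mul_of_pos_right _ (by positivity)

/-- The concrete tower. -/
def tower : Tower where
  sys := fun i => tsys (600 * 2 ^ i) (tower_len i)
  l_eq := fun _ => rfl
  str := fun i => tsys_str _ _
  double := fun i f hf J v => tsys_double (tower_len i) (tower_len (i + 1)) (by rw [pow_succ]; ring) f hf J v
  aper := fun _ w v h hv => tsys_aper w v h hv
  count := fun _ X v hv => tsys_count X v hv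

end CollatzOne
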