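import Pool.Agent.CollatzDens.Op

set_option autoImplicit false

/-!
The final assembly, given the stages and the crossing estimate.
-/

namespace CollatzOne

/-- The statement of the module on the stages. -/
def StagesStmt (W : Tower) : Prop := ∃ i₀ : ℕ, ∀ i₁ ≥ i₀, ∀ y : ℤ, Ap y → ∃ (a₀ Y : ℝ) (D : ℕ → ℕ)
    (Λ : ℕ → (ℕ → ℤ → ℝ) → ℝ), 0 < a₀ ∧ 0 ≤ Y ∧
    (∀ i ≥ i₁, Lin (Reg (D i) Y) (Λ i)) ∧
    (∀ i ≥ i₁, Λ i (fun _ _ => 1) ≤ 16 ^ (W.sys i).l * a₀) ∧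
    (∀ i ≥ i₁, ∀ n ≤ (W.sys i).blk ^ 6, a₀ / 4 ≤ Λ i ((W.sys i).PP^[n] (fun _ _ => 1))) ∧
    (∀ i ≥ i₁, ∀ X : ℝ, Λ i (fun J v => 2 ^ J / 3 ^ D i * NX X v) ≤ NX X y) ∧
    (∀ i ≥ i₁, D (i + 1) = D i + (W.sys i).blk * (W.sys i).l) ∧
    (∀ i ≥ i₁, 22 * (W.sys i).l ≤ D i)

/-- The statement of the module on the crossing of lines. -/
def CrossStmt (W : Tower) : Prop := ∃ i₀ : ℕ, ∀ i ≥ i₀, ∀ (D : ℕ) (Y a₀ X : ℝ) (Λ : (ℕ → ℤ → ℝ) → ℝ) (g : ℕ),
    0 < a₀ → 0 ≤ Y → Lin (Reg D Y) Λ → 22 * (W.sys i).l ≤ D →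
    Λ (fun _ _ => 1) ≤ 16 ^ (W.sys i).l * a₀ →
    (∀ n ≤ (W.sys i).blk ^ 6, a₀ / 4 ≤ Λ ((W.sys i).PP^[n] (fun _ _ => 1))) →
    11 * (D + 17 * (W.sys i).blk * (W.sys i).l) ≤ g → 16 * g ≤ (W.sys i).l * (W.sys i).blk ^ 6 →
    (6 * Y + 18) * 2 ^ (g + 11 * (W.sys i).l + 1) ≤ X →
    2 ^ (g + 11 * (W.sys i).l + 1) * (a₀ / 64) ≤ Λ (fun J v => 2 ^ J / 3 ^ D * NX X v)

lemma NX_mono {X X' : ℝ} (h : X ≤ X') (v : ℤ) : NX X v ≤ NX X' v := by
  unfold NX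
  refine Nat.cast_le.2 (Finset.card_le_card fun n hn => ?_)
  rw [CollatzExp.mem_DD] at hn ⊢
  exact ⟨hn.1.trans h, hn.2⟩

lemma NX_nonneg (X : ℝ) (v : ℤ) : 0 ≤ NX X v := Nat.cast_nonneg _

lemma Tower.blk_eq (W : Tower) (i : ℕ) : (W.sys i).blk = 2 ^ 2 ^ i := by
  unfold Sys.blk
  rw [W.l_eq, Nat.mul_div_cancel_left _ (by norm_num)]

lemma Tower.blk_succ (W : Tower) (i : ℕ) : (W.sys (i + 1)).blk = (W.sys i).blk ^ 2 := by
  rw [W.blk_eq, W.blk_eq, ← pow_mul, pow_succ]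

lemma Tower.l_succ (W : Tower) (i : ℕ) : (W.sys (i + 1)).l = 2 * (W.sys i).l := by
  rw [W.l_eq, W.l_eq, pow_succ]; ring

lemma Tower.le_blk (W : Tower) (i : ℕ) : i ≤ (W.sys i).blk := by
  rw [W.blk_eq]
  exact (Nat.lt_two_pow_self).le.trans (Nat.lt_two_pow_self).le

/-- Linear lower bound for the number of predecessors of a nonperiodic point. -/
theorem density_root (W : Tower) (hS : StagesStmt W) (hC : CrossStmt W) (y : ℤ) (hy : Ap y) :
    ∃ c x₀ : ℝ, 0 < c ∧ 0 < x₀ ∧ ∀ x : ℝ, x₀ ≤ x → c * x ≤ NX x y := by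
  obtain ⟨i₀, hS⟩ := hS
  obtain ⟨j₀, hC⟩ := hC
  set i₁ := max i₀ j₀ with hi₁
  obtain ⟨a₀, Y, D, Λ, ha₀, hY, hLin, hone, hlow, hcount, hD, hD22⟩ := hS i₁ (le_max_left _ _) y hy
  set lo : ℕ → ℕ := fun i => 11 * (D i + 17 * (W.sys i).blk * (W.sys i).l) + 11 * (W.sys i).l + 1 with hlo
  -- growth of the depths
  have hDle : ∀ k : ℕ, D (i₁ + k) ≤ D i₁ + (W.sys (i₁ + k)).l * (W.sys (i₁ + k)).blk := by
    intro k
    induction k with
    | zero => simp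
    | succ k ih =>
      rw [← add_assoc, hD _ (by omega), W.l_succ, W.blk_succ]
      have h1 : 1 ≤ (W.sys (i₁ + k)).blk := by rw [W.blk_eq]; exact Nat.one_le_two_pow
      have h2 : (W.sys (i₁ + k)).blk ≤ (W.sys (i₁ + k)).blk ^ 2 := by nlinarith
      nlinarith [Nat.mul_le_mul_left (W.sys (i₁ + k)).l h2]
  set i₂ := i₁ + D i₁ + 10 with hi₂
  have hrange : ∀ i ≥ i₂, 16 * lo (i + 1) ≤ (W.sys i).l * (W.sys i).blk ^ 6 := by
    intro i hi
    obtain ⟨k, rfl⟩ : ∃ k, i = i₁ + k := ⟨i - i₁, by omega⟩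
    have h1 := hDle k
    have h2 := W.le_blk (i₁ + k)
    have h3 := hD (i₁ + k) (by omega)
    have hl : 1 ≤ (W.sys (i₁ + k)).l := (W.sys (i₁ + k)).hl
    simp only [hlo]
    rw [W.blk_succ, W.l_succ, h3]
    set m := (W.sys (i₁ + k)).blk with hm
    set l := (W.sys (i₁ + k)).l with hl'
    have hm10 : D i₁ + 10 ≤ m := by omega
    have hmm : m ≤ m ^ 2 := by nlinarith
    have h4 : 6880 ≤ m ^ 4 := by
      calc 6880 ≤ 10 ^ 4 := by norm_num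
        _ ≤ m ^ 4 := Nat.pow_le_pow_left (by omega) 4
    have h5 : l * m ≤ l * m ^ 2 := Nat.mul_le_mul_left l hmm
    have h6 : D i₁ ≤ l * m ^ 2 := by nlinarith
    have hm0 : 0 < m := by omega
    have h7 : l ≤ l * m ^ 2 := Nat.le_mul_of_pos_right l (by positivity)
    have h8 : 1 ≤ l * m ^ 2 := hl.trans h7
    calc 16 * (11 * (D (i₁ + k) + m * l + 17 * m ^ 2 * (2 * l)) + 11 * (2 * l) + 1)
        ≤ 16 * (11 * (D i₁ + l * m + m * l + 17 * m ^ 2 * (2 * l)) + 11 * (2 * l) + 1) := by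
          gcongr
      _ ≤ 6880 * (l * m ^ 2) := by nlinarith
      _ ≤ m ^ 4 * (l * m ^ 2) := Nat.mul_le_mul_right _ h4
      _ = l * m ^ 6 := by ring
  have hlo_ge : ∀ i, i ≤ lo i := by
    intro i
    have h1 := W.le_blk i
    have hl : 1 ≤ (W.sys i).l := (W.sys i).hl
    simp only [hlo]
    nlinarith
  set C : ℝ := 6 * Y + 18 with hCdef
  have hC0 : 0 < C := by positivity
  -- the main estimate
  have key : ∀ t : ℕ, lo i₂ ≤ t → 2 ^ t * (a₀ / 64) ≤ NX (C * 2 ^ t) y := by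
    intro t ht
    -- the stage
    obtain ⟨i, hi, h1, h2⟩ : ∃ i, i₂ ≤ i ∧ lo i ≤ t ∧ t < lo (i + 1) := by
      by_contra hcon
      push Not at hcon
      have hall : ∀ k, lo (i₂ + k) ≤ t := by
        intro k
        induction k with
        | zero => exact ht
        | succ k ih => exact hcon (i₂ + k) (by omega) ih
      have := hlo_ge (i₂ + (t + 1))
      have := hall (t + 1)
      omega
    have hrng := hrange i hi
    obtain ⟨g, hg⟩ : ∃ g, t = g + 11 * (W.sys i).l + 1 := ⟨t - 11 * (W.sys i).l - 1, by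
      simp only [hlo] at h1
      omega⟩
    have hg1 : 11 * (D i + 17 * (W.sys i).blk * (W.sys i).l) ≤ g := by
      simp only [hlo] at h1
      omega
    have hg2 : 16 * g ≤ (W.sys i).l * (W.sys i).blk ^ 6 := by omega
    have hi1 : i₁ ≤ i := by omega
    have h3 := hC i ((le_max_right _ _).trans hi1) (D i) Y a₀ (C * 2 ^ t) (Λ i) g ha₀ hY (hLin i hi1)
      (hD22 i hi1) (hone i hi1) (hlow i hi1) hg1 hg2 (by rw [hg])
    rw [← hg] at h3
    exact h3.trans (hcount i hi1 _)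
  refine ⟨a₀ / (128 * C), C * 2 ^ lo i₂, by positivity, by positivity, fun x hx => ?_⟩
  have hx1 : 2 ^ lo i₂ ≤ x / C := by rw [le_div_iff₀ hC0]; linarith
  have hx2 : 1 ≤ x / C := (one_le_pow₀ (by norm_num)).trans hx1
  obtain ⟨t, ht1, ht2⟩ := exists_nat_pow_near hx2 (by norm_num : (1 : ℝ) < 2)
  have ht : lo i₂ ≤ t := by
    have h1 : (2 : ℝ) ^ lo i₂ < 2 ^ (t + 1) := hx1.trans_lt ht2
    have h2 := (pow_lt_pow_iff_right₀ (by norm_num : (1 : ℝ) < 2)).1 h1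
    omega
  have h1 := key t ht
  have h2 : C * 2 ^ t ≤ x := by
    rw [le_div_iff₀ hC0] at ht1
    linarith
  have h3 := NX_mono h2 y
  refine le_trans ?_ (h1.trans h3)
  rw [div_lt_iff₀ hC0] at ht2
  have h4 : x ≤ 2 * C * 2 ^ t := by
    rw [pow_succ] at ht2
    linarith
  calc a₀ / (128 * C) * x ≤ a₀ / (128 * C) * (2 * C * 2 ^ t) := by gcongr
    _ = 2 ^ t * (a₀ / 64) := by field_simp; ring

/-- The density theorem, given the two main modules. -/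
theorem density_of (W : Tower) (hS : StagesStmt W) (hC : CrossStmt W) (a : ℤ) (ha : ¬ (3 : ℤ) ∣ a) :
    ∃ c : ℝ, 0 < c ∧ ∀ x : ℝ, |(a : ℝ)| ≤ x →
      c * x ≤ ({n : ℤ | |(n : ℝ)| ≤ x ∧ ∃ k : ℕ, CollatzExp.C^[k] n = a}.ncard : ℝ) := by
  classical
  obtain ⟨y, hy, k₀, hk₀⟩ : ∃ y : ℤ, y % 3 = 2 ∧ ∃ k, CollatzExp.C^[k] y = a := by
    have : a % 3 = 1 ∨ a % 3 = 2 := by omega
    rcases this with h1 | h1
    · refine ⟨2 * a, by omega, 1, ?_⟩
      rw [Function.iterate_one, CollatzExp.C_even (by omega)]; omega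
    · exact ⟨a, h1, 0, rfl⟩
  obtain ⟨e, he, hv, hap⟩ := CollatzExp.exists_aper_child hy
  set b := CollatzExp.child e y with hb
  have hb3 : b % 3 = 2 := CollatzExp.valid_child hv
  obtain ⟨v, hvb⟩ : ∃ v : ℤ, b = 3 * v - 1 := ⟨(b + 1) / 3, by omega⟩
  have hAp : Ap v := by unfold Ap; rw [← hvb]; exact hap
  obtain ⟨c, x₀, hc, hx₀, hmain⟩ := density_root W hS hC v hAp
  have hreach : ∀ n : ℤ, (∃ k, CollatzExp.C^[k] n = b) → ∃ k, CollatzExp.C^[k] n = a := by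
    rintro n ⟨k, hk⟩
    refine ⟨k₀ + (e + 1) + k, ?_⟩
    rw [Function.iterate_add_apply, hk, Function.iterate_add_apply,
      CollatzExp.C_iter_child_full he hv, hk₀]
  have ha1 : (1 : ℝ) ≤ |(a : ℝ)| := by
    have h : 1 ≤ |a| := Int.one_le_abs (by rintro rfl; exact ha (dvd_zero 3))
    exact_mod_cast h
  have hcount : ∀ x : ℝ, ({n : ℤ | |(n : ℝ)| ≤ x ∧ ∃ k : ℕ, CollatzExp.C^[k] n = a}.ncard : ℝ)
      = ((CollatzExp.DD a x).card : ℝ) := by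
    intro x
    rw [← Set.ncard_coe_finset]
    congr 2
    ext n
    rw [Finset.mem_coe, CollatzExp.mem_DD]
    rfl
  refine ⟨min c (1 / x₀), lt_min hc (by positivity), fun x hx => ?_⟩
  have hx0 : 0 < x := by linarith
  rw [hcount]
  by_cases hxx : x₀ ≤ x
  · have h1 := hmain x hxx
    have h2 : NX x v ≤ ((CollatzExp.DD a x).card : ℝ) := by
      unfold NX
      rw [← hvb]
      refine Nat.cast_le.2 (Finset.card_le_card fun n hn => ?_)
      rw [CollatzExp.mem_DD] at hn ⊢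
      exact ⟨hn.1, hreach n hn.2⟩
    refine le_trans ?_ (h1.trans h2)
    exact mul_le_mul_of_nonneg_right (min_le_left _ _) hx0.le
  · push Not at hxx
    have h1 : a ∈ CollatzExp.DD a x := CollatzExp.mem_DD.2 ⟨hx, 0, rfl⟩
    have h2 : 1 ≤ (CollatzExp.DD a x).card := Finset.card_pos.2 ⟨a, h1⟩
    have h3 : (1 : ℝ) ≤ (CollatzExp.DD a x).card := by exact_mod_cast h2
    refine le_trans ?_ h3
    calc min c (1 / x₀) * x ≤ 1 / x₀ * x₀ :=
          mul_le_mul (min_le_right _ _) hxx.le hx0.le (by positivity)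
      _ = 1 := by field_simp

end CollatzOne
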