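import Pool.Agent.CollatzDens.Str
import Pool.Agent.CollatzDens.Final0

set_option autoImplicit false

/-!
Crossing a line: from the equidistribution of the nodes to a lower bound for the number of
predecessors.
-/

namespace CollatzOne

/-- The properties of the renewal functions used below. -/
structure PsiOK : Prop where
  nonneg : ∀ (M : ℕ) (s : ℝ) (v : ℤ), 0 ≤ psi M s v
  le : ∀ (M : ℕ) {s : ℝ}, 1 < s → ∀ v : ℤ, psi M s v ≤ 2 ^ M
  per : ∀ (M : ℕ) (s : ℝ), Per (3 ^ M) (psi M s)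
  mean : ∀ (l : ℕ) {s : ℝ}, 1 ≤ l → 1 < s → s ≤ 2 ^ (11 * l + 1) →
    1 / 4 ≤ mean (3 ^ (100 * l)) (psi (100 * l) s)
  count : ∀ (M : ℕ) {s X : ℝ}, 1 < s → ∀ {v : ℤ}, Ap v →
    6 * s * (|(v : ℝ)| + 2 * (3 / 2) ^ M) ≤ X → s * psi M s v ≤ NX X v

/-- The equidistribution statement for one system. -/
def EqdFor (A : Sys) : Prop := ∀ (n : ℕ) (f : ℕ → ℤ → ℝ),
    17 * A.blk ≤ n → (∀ J, Per (A.q ^ 101) (f J)) → (∀ J v, 0 ≤ f J v) →
    (∀ J v, f J v ≤ 2 ^ (200 * A.l)) → ∀ (J : ℕ) (v : ℤ),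
    |A.PP^[n] f J v - A.PP^[n] (fun J _ => mean (A.q ^ 101) (f J)) J v| ≤
      (1 / 2 : ℝ) ^ (100 * A.l) * A.PP^[n - 17 * A.blk] (fun _ _ => 1) J v

/-- The equidistribution statement. -/
def EqdStmt : Prop := ∃ l₀ : ℕ, ∀ A : Sys, A.Str → l₀ ≤ A.l → EqdFor A

lemma Lin.abs_sub_le {R : ℕ → ℤ → Prop} {Λ : (ℕ → ℤ → ℝ) → ℝ} (h : Lin R Λ) {f g k : ℕ → ℤ → ℝ} {c : ℝ}
    (hfg : ∀ J v, R J v → |f J v - g J v| ≤ c * k J v) : |Λ f - Λ g| ≤ c * Λ k := by
  rw [abs_le]
  constructor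
  · have h1 := h.mono g (fun J v => f J v + c * k J v) fun J v hJ => by
      have := (abs_le.1 (hfg J v hJ)).1
      linarith
    rw [h.add, h.smul] at h1
    linarith
  · have h1 := h.mono f (fun J v => g J v + c * k J v) fun J v hJ => by
      have := (abs_le.1 (hfg J v hJ)).2
      linarith
    rw [h.add, h.smul] at h1
    linarith

namespace Sys

variable (A : Sys)

/-- The position is not yet above the line. -/
def unc (D g n J : ℕ) : Prop := 2 ^ J < 2 ^ g * 3 ^ (D + A.l * n)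

instance (D g n J : ℕ) : Decidable (A.unc D g n J) := by unfold unc; infer_instance

lemma unc_of_child {D g n J : ℕ} {w : A.ι} (h : A.unc D g (n + 1) (J + A.J w)) : A.unc D g n J := by
  unfold unc at *
  by_contra hcon
  push Not at hcon
  have h1 := A.two_le w
  have h2 : D + A.l * (n + 1) = (D + A.l * n) + A.l := by ring
  rw [h2, pow_add, pow_add] at h
  have h3 : 2 ^ g * 3 ^ (D + A.l * n) * 3 ^ A.l ≤ 2 ^ J * 2 ^ A.J w :=
    Nat.mul_le_mul hcon (by omega)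
  rw [mul_assoc] at h3
  omega

/-- Indicator of the uncrossed positions. -/
noncomputable def io (D g n J : ℕ) : ℝ := if A.unc D g n J then 1 else 0

lemma io_nonneg (D g n J : ℕ) : 0 ≤ A.io D g n J := by unfold io; split_ifs <;> norm_num

lemma io_le_one (D g n J : ℕ) : A.io D g n J ≤ 1 := by unfold io; split_ifs <;> norm_num

/-- Probability to cross. -/
noncomputable def pc (D g n J : ℕ) : ℝ := ∑ w, 1 / 2 ^ A.J w * (1 - A.io D g (n + 1) (J + A.J w))

lemma pc_nonneg (D g n J : ℕ) : 0 ≤ A.pc D g n J :=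
  Finset.sum_nonneg fun w _ => mul_nonneg (by positivity) (by linarith [A.io_le_one D g (n + 1) (J + A.J w)])

lemma q_pow_100 : A.q ^ 100 = 3 ^ (100 * A.l) := by unfold q; rw [← pow_mul, mul_comm]

/-- mean of the stay function -/
lemma mean_stay (D g n J : ℕ) :
    mean (A.q ^ 101) (A.PP (fun J _ => A.io D g (n + 1) J) J) =
      A.io D g n J * (A.Z - A.pc D g n J) := by
  rw [A.mean_PP 100 (fun J _ => A.io D g (n + 1) J) (fun _ _ => rfl)]
  have h1 : ∀ w : A.ι, mean (A.q ^ 100) (fun _ : ℤ => A.io D g (n + 1) (J + A.J w)) =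
      A.io D g (n + 1) (J + A.J w) := fun w => mean_const (Nat.one_le_pow _ _ A.q_pos) _
  have h2 : ∑ w, 1 / 2 ^ A.J w * mean (A.q ^ 100) (fun _ : ℤ => A.io D g (n + 1) (J + A.J w)) =
      ∑ w, 1 / 2 ^ A.J w * A.io D g (n + 1) (J + A.J w) :=
    Finset.sum_congr rfl fun w _ => by rw [h1]
  rw [h2]
  by_cases h : A.unc D g n J
  · have h3 : A.io D g n J = 1 := if_pos h
    rw [h3, one_mul, ent_Z_eq]
    unfold pc
    rw [← Finset.sum_sub_distrib]
    refine Finset.sum_congr rfl fun w _ => ?_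
    ring
  · have h3 : A.io D g n J = 0 := if_neg h
    rw [h3, zero_mul]
    refine Finset.sum_eq_zero fun w _ => ?_
    have h4 : A.io D g (n + 1) (J + A.J w) = 0 := if_neg fun h' => h (A.unc_of_child h')
    rw [h4, mul_zero]

/-- The remaining factor. -/
noncomputable def sr (D g n J : ℕ) : ℝ := 2 ^ (g + 11 * A.l + 1) * 3 ^ (D + A.l * n) / 2 ^ J

/-- The renewal function after crossing. -/
noncomputable def gc (D g n : ℕ) (J : ℕ) (v : ℤ) : ℝ :=
  (1 - A.io D g n J) * psi (100 * A.l) (A.sr D g n J) v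

/-- The crossing function. -/
noncomputable def Th (D g n : ℕ) (J : ℕ) (v : ℤ) : ℝ :=
  A.io D g n J * A.PP (A.gc D g (n + 1)) J v

variable {A}

lemma sr_le {D g n J : ℕ} (h : ¬ A.unc D g n J) : A.sr D g n J ≤ 2 ^ (11 * A.l + 1) := by
  unfold unc at h
  push Not at h
  have h1 : (2 : ℝ) ^ g * 3 ^ (D + A.l * n) ≤ 2 ^ J := by exact_mod_cast h
  unfold sr
  rw [div_le_iff₀ (by positivity), show g + 11 * A.l + 1 = g + (11 * A.l + 1) by ring, pow_add]
  calc (2 : ℝ) ^ g * 2 ^ (11 * A.l + 1) * 3 ^ (D + A.l * n)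
      = 2 ^ (11 * A.l + 1) * (2 ^ g * 3 ^ (D + A.l * n)) := by ring
    _ ≤ _ := by gcongr

lemma Str.one_lt_sr (hA : A.Str) {D g n J : ℕ} {w : A.ι} (h : A.unc D g n J) :
    1 < A.sr D g (n + 1) (J + A.J w) := by
  unfold unc at h
  have h1 : (2 : ℝ) ^ J < 2 ^ g * 3 ^ (D + A.l * n) := by exact_mod_cast h
  have h2 : (2 : ℝ) ^ A.J w ≤ 2 ^ (11 * A.l) := pow_le_pow_right₀ (by norm_num) (hA.J_le w)
  unfold sr
  rw [lt_div_iff₀ (by positivity), one_mul]
  have h3 : (1 : ℝ) ≤ 3 ^ A.l := one_le_pow₀ (by norm_num)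
  calc (2 : ℝ) ^ (J + A.J w) = 2 ^ J * 2 ^ A.J w := by rw [pow_add]
    _ < (2 ^ g * 3 ^ (D + A.l * n)) * (2 ^ (11 * A.l) * 2) := by
        refine mul_lt_mul'' h1 ?_ (by positivity) (by positivity)
        have : (0 : ℝ) < 2 ^ (11 * A.l) := by positivity
        linarith
    _ ≤ (2 ^ g * 3 ^ (D + A.l * n)) * (2 ^ (11 * A.l) * 2) * 3 ^ A.l := le_mul_of_one_le_right (by positivity) h3
    _ = 2 ^ (g + 11 * A.l + 1) * 3 ^ (D + A.l * (n + 1)) := by
        rw [show D + A.l * (n + 1) = (D + A.l * n) + A.l by ring, pow_add, pow_add, pow_add]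
        ring

lemma gc_nonneg (hψ : PsiOK) (D g n J : ℕ) (v : ℤ) : 0 ≤ A.gc D g n J v :=
  mul_nonneg (by linarith [A.io_le_one D g n J]) (hψ.nonneg _ _ _)

lemma gc_per (hψ : PsiOK) (D g n J : ℕ) : Per (A.q ^ 100) (A.gc D g n J) := by
  intro v
  unfold gc
  rw [q_pow_100, hψ.per]

lemma Th_nonneg (hψ : PsiOK) (D g n J : ℕ) (v : ℤ) : 0 ≤ A.Th D g n J v :=
  mul_nonneg (A.io_nonneg _ _ _ _) (A.PP_nonneg_one (gc_nonneg hψ D g (n + 1)) J v)

lemma Th_per (hψ : PsiOK) (D g n J : ℕ) : Per (A.q ^ 101) (A.Th D g n J) := by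
  intro v
  unfold Th
  rw [A.PP_per 100 (A.gc D g (n + 1)) (gc_per hψ D g (n + 1)) J v]

lemma Str.PP_one_le (hA : A.Str) (J : ℕ) (v : ℤ) : A.PP (fun _ _ => 1) J v ≤ 4 ^ A.l := by
  have h1 := hA.iter_one_le'' (n := 1) (by omega) v
  have h2 := A.PP_iter_const 1 (fun _ => 1) J v
  rw [← h2] at h1
  exact h1

lemma Str.Th_le (hA : A.Str) (hψ : PsiOK) (D g n J : ℕ) (v : ℤ) : A.Th D g n J v ≤ 2 ^ (200 * A.l) := by
  unfold Th io
  split_ifs with h
  · rw [one_mul]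
    have h1 : A.PP (A.gc D g (n + 1)) J v ≤ 2 ^ (100 * A.l) * A.PP (fun _ _ => 1) J v := by
      unfold PP
      rw [Finset.mul_sum]
      refine Finset.sum_le_sum fun w _ => ?_
      split_ifs with hv
      · have hq := A.q_posR
        have h2 : A.gc D g (n + 1) (J + A.J w) (A.child w v) ≤ 2 ^ (100 * A.l) := by
          unfold gc
          have h3 := hψ.le (100 * A.l) (hA.one_lt_sr (w := w) h) (A.child w v)
          have h4 := hψ.nonneg (100 * A.l) (A.sr D g (n + 1) (J + A.J w)) (A.child w v)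
          have h5 := A.io_nonneg D g (n + 1) (J + A.J w)
          nlinarith
        calc (A.q : ℝ) / 2 ^ A.J w * A.gc D g (n + 1) (J + A.J w) (A.child w v)
            ≤ (A.q : ℝ) / 2 ^ A.J w * 2 ^ (100 * A.l) := by gcongr
          _ = _ := by ring
      · simp
    have h2 := hA.PP_one_le J v
    have hl := hA.hl
    calc A.PP (A.gc D g (n + 1)) J v ≤ 2 ^ (100 * A.l) * 4 ^ A.l :=
          h1.trans (mul_le_mul_of_nonneg_left h2 (by positivity))
      _ = 2 ^ (100 * A.l + 2 * A.l) := by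
          rw [show (4 : ℝ) = 2 ^ 2 by norm_num, ← pow_mul, ← pow_add]
      _ ≤ 2 ^ (200 * A.l) := pow_le_pow_right₀ (by norm_num) (by omega)
  · rw [zero_mul]
    positivity

lemma Str.mean_Th (hA : A.Str) (hψ : PsiOK) (D g n J : ℕ) :
    1 / 4 * (A.io D g n J * A.pc D g n J) ≤ mean (A.q ^ 101) (A.Th D g n J) := by
  have h1 : mean (A.q ^ 101) (A.Th D g n J) =
      A.io D g n J * mean (A.q ^ 101) (A.PP (A.gc D g (n + 1)) J) := mean_smul _ _ _
  rw [h1, A.mean_PP 100 (A.gc D g (n + 1)) (gc_per hψ D g (n + 1))]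
  by_cases h : A.unc D g n J
  · have h3 : A.io D g n J = 1 := if_pos h
    rw [h3, one_mul, one_mul]
    unfold pc
    rw [Finset.mul_sum]
    refine Finset.sum_le_sum fun w _ => ?_
    have h4 : 1 / 4 * (1 - A.io D g (n + 1) (J + A.J w)) ≤
        mean (A.q ^ 100) (A.gc D g (n + 1) (J + A.J w)) := by
      have h5 : mean (A.q ^ 100) (A.gc D g (n + 1) (J + A.J w)) = (1 - A.io D g (n + 1) (J + A.J w)) *
          mean (A.q ^ 100) (psi (100 * A.l) (A.sr D g (n + 1) (J + A.J w))) := mean_smul _ _ _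
      rw [h5]
      by_cases h6 : A.unc D g (n + 1) (J + A.J w)
      · have h7 : A.io D g (n + 1) (J + A.J w) = 1 := if_pos h6
        rw [h7]
        simp
      · have h7 : A.io D g (n + 1) (J + A.J w) = 0 := if_neg h6
        rw [h7, sub_zero, mul_one, one_mul, q_pow_100]
        exact hψ.mean A.l A.hl (hA.one_lt_sr h) (sr_le h6)
    calc 1 / 4 * (1 / 2 ^ A.J w * (1 - A.io D g (n + 1) (J + A.J w)))
        = 1 / 2 ^ A.J w * (1 / 4 * (1 - A.io D g (n + 1) (J + A.J w))) := by ring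
      _ ≤ _ := by gcongr
  · have h3 : A.io D g n J = 0 := if_neg h
    rw [h3]
    simp

/-! ### The regions -/

lemma Str.reg_aux (hA : A.Str) {D k J : ℕ} (hD : 22 * A.l ≤ D)
    (h : 3 ^ (17 * (D + A.l * k)) ≤ 2 ^ (16 * J)) : 2 ^ (A.l + k + 1) * 3 ^ (D + A.l * k) ≤ 2 ^ J := by
  have hl := hA.hl
  set D' := D + A.l * k with hD'
  have h1 : 16 * (A.l + k + 1) ≤ D' := by
    have : 600 * k ≤ A.l * k := Nat.mul_le_mul_right k hl
    omega
  have h2 : (2 ^ (A.l + k + 1) * 3 ^ D') ^ 16 ≤ (2 ^ J) ^ 16 := by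
    calc (2 ^ (A.l + k + 1) * 3 ^ D') ^ 16 = 2 ^ (16 * (A.l + k + 1)) * 3 ^ (16 * D') := by
          rw [mul_pow, ← pow_mul, ← pow_mul, mul_comm _ 16, mul_comm D' 16]
      _ ≤ 3 ^ D' * 3 ^ (16 * D') := by
          refine Nat.mul_le_mul_right _ ?_
          calc 2 ^ (16 * (A.l + k + 1)) ≤ 2 ^ D' := Nat.pow_le_pow_right (by norm_num) h1
            _ ≤ 3 ^ D' := Nat.pow_le_pow_left (by norm_num) _
      _ = 3 ^ (17 * D') := by rw [← pow_add]; congr 1; ring
      _ ≤ 2 ^ (16 * J) := h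
      _ = (2 ^ J) ^ 16 := by rw [← pow_mul, mul_comm]
  exact (Nat.pow_le_pow_iff_left (by norm_num)).1 h2

/-- One block step of the regions. -/
lemma Str.reg_step (hA : A.Str) (hap : ∀ w v, A.valid w v → Ap v → Ap (A.child w v)) {D k J : ℕ}
    {Y : ℝ} {v : ℤ} {w : A.ι} (hD : 22 * A.l ≤ D)
    (h : Reg (D + A.l * k) (Y + 1 - (1 / 2) ^ k) J v) (hv : A.valid w v) :
    Reg (D + A.l * (k + 1)) (Y + 1 - (1 / 2) ^ (k + 1)) (J + A.J w) (A.child w v) := by
  have e1 : D + A.l * (k + 1) = (D + A.l * k) + A.l := by ring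
  have hq : (A.q : ℝ) = 3 ^ A.l := by unfold q; push_cast; rfl
  refine ⟨?_, ?_, ?_, hap w v hv h.ap⟩
  · have h1 := Nat.mul_le_mul h.ht (hA.ht w)
    rw [← pow_add, ← pow_add, ← Nat.mul_add, ← Nat.mul_add, ← e1] at h1
    exact h1
  · have h1 := h.J_le
    have h2 := hA.J_le w
    rw [e1]
    omega
  · have h1 := h.size
    have h2 : (A.q : ℝ) * A.child w v = 2 ^ A.J w * v - A.b w := by exact_mod_cast A.q_mul_child hv
    have h3 : |(A.b w : ℝ)| ≤ 2 ^ A.l * 2 ^ A.J w := by exact_mod_cast hA.b_le w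
    have h4 : |(A.child w v : ℝ)| * A.q ≤ 2 ^ A.J w * (|(v : ℝ)| + 2 ^ A.l) := by
      have h5 : |(A.child w v : ℝ)| * A.q = |(A.q : ℝ) * A.child w v| := by
        rw [abs_mul, abs_of_pos A.q_posR, mul_comm]
      rw [h5, h2]
      refine (abs_sub _ _).trans ?_
      rw [abs_mul, abs_of_pos (by positivity : (0 : ℝ) < 2 ^ A.J w)]
      linarith
    have h6 := hA.reg_aux hD h.ht
    have h7 : (2 : ℝ) ^ (A.l + k + 1) * 3 ^ (D + A.l * k) ≤ 2 ^ J := by exact_mod_cast h6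
    have h8 : (2 : ℝ) ^ A.l * 3 ^ (D + A.l * k) ≤ (1 / 2) ^ (k + 1) * 2 ^ J := by
      have h9 : (1 / 2 : ℝ) ^ (k + 1) * (2 ^ (A.l + k + 1) * 3 ^ (D + A.l * k)) =
          2 ^ A.l * 3 ^ (D + A.l * k) := by
        rw [show A.l + k + 1 = (k + 1) + A.l by ring, pow_add (2 : ℝ) (k + 1), ← mul_assoc, ← mul_assoc,
          ← mul_pow]
        norm_num
      rw [← h9]
      gcongr
    rw [e1, pow_add, pow_add (2 : ℝ)]
    calc |(A.child w v : ℝ)| * (3 ^ (D + A.l * k) * 3 ^ A.l)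
        = (|(A.child w v : ℝ)| * A.q) * 3 ^ (D + A.l * k) := by rw [hq]; ring
      _ ≤ (2 ^ A.J w * (|(v : ℝ)| + 2 ^ A.l)) * 3 ^ (D + A.l * k) := by gcongr
      _ = 2 ^ A.J w * (|(v : ℝ)| * 3 ^ (D + A.l * k) + 2 ^ A.l * 3 ^ (D + A.l * k)) := by ring
      _ ≤ 2 ^ A.J w * ((Y + 1 - (1 / 2) ^ k) * 2 ^ J + (1 / 2) ^ (k + 1) * 2 ^ J) := by gcongr
      _ = (Y + 1 - (1 / 2) ^ (k + 1)) * (2 ^ J * 2 ^ A.J w) := by rw [pow_succ]; ring

lemma Str.lin_iter (hA : A.Str) (hap : ∀ w v, A.valid w v → Ap v → Ap (A.child w v)) {D : ℕ} {Y : ℝ}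
    (hD : 22 * A.l ≤ D) {Λ : (ℕ → ℤ → ℝ) → ℝ} (hΛ : Lin (Reg D Y) Λ) (n : ℕ) :
    Lin (Reg (D + A.l * n) (Y + 1 - (1 / 2) ^ n)) (fun f => Λ (A.PP^[n] f)) := by
  refine Lin.comp_iter A (fun k => Reg (D + A.l * k) (Y + 1 - (1 / 2) ^ k)) n ?_ ?_
  · simpa using hΛ
  · intro k J v w _ h hv
    exact hA.reg_step hap hD h hv

/-- the weighted counting function -/
noncomputable def VV (A : Sys) (D : ℕ) (X : ℝ) (n J : ℕ) (v : ℤ) : ℝ := 2 ^ J / 3 ^ (D + A.l * n) * NX X v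

lemma VV_nonneg (D : ℕ) (X : ℝ) (n J : ℕ) (v : ℤ) : 0 ≤ A.VV D X n J v :=
  mul_nonneg (by positivity) (NX_nonneg _ _)

lemma weight_eq (D n J : ℕ) (w : A.ι) :
    (A.q : ℝ) / 2 ^ A.J w * (2 ^ (J + A.J w) / 3 ^ (D + A.l * (n + 1))) = 2 ^ J / 3 ^ (D + A.l * n) := by
  have hq : (A.q : ℝ) = 3 ^ A.l := by unfold q; push_cast; rfl
  rw [hq, show D + A.l * (n + 1) = (D + A.l * n) + A.l by ring, pow_add, pow_add]
  field_simp

lemma PP_VV_le (hcnt : ∀ X v, Ap v → ∑ w, (if A.valid w v then NX X (A.child w v) else 0) ≤ NX X v)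
    (D : ℕ) (X : ℝ) (n J : ℕ) {v : ℤ} (hv : Ap v) : A.PP (A.VV D X (n + 1)) J v ≤ A.VV D X n J v := by
  have h1 : A.PP (A.VV D X (n + 1)) J v = 2 ^ J / 3 ^ (D + A.l * n) *
      ∑ w, (if A.valid w v then NX X (A.child w v) else 0) := by
    unfold PP VV
    rw [Finset.mul_sum]
    refine Finset.sum_congr rfl fun w _ => ?_
    split_ifs
    · rw [← mul_assoc, weight_eq]
    · ring
  rw [h1]
  unfold VV
  exact mul_le_mul_of_nonneg_left (hcnt X v hv) (by positivity)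

/-- Counting step: the uncrossed part and the crossing part. -/
lemma Str.count_step (hA : A.Str) (hψ : PsiOK) (hap : ∀ w v, A.valid w v → Ap v → Ap (A.child w v))
    (hcnt : ∀ X v, Ap v → ∑ w, (if A.valid w v then NX X (A.child w v) else 0) ≤ NX X v)
    {D g : ℕ} {X Y : ℝ} (hD : 22 * A.l ≤ D) (hg : 59 * A.l ≤ g)
    (hX : (6 * Y + 18) * 2 ^ (g + 11 * A.l + 1) ≤ X) {n J : ℕ} {v : ℤ}
    (h : Reg (D + A.l * n) (Y + 1 - (1 / 2) ^ n) J v) :
    A.PP (fun J v => A.io D g (n + 1) J * A.VV D X (n + 1) J v) J v +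
      2 ^ (g + 11 * A.l + 1) * A.Th D g n J v ≤ A.io D g n J * A.VV D X n J v := by
  by_cases hu : A.unc D g n J
  · have h3 : A.io D g n J = 1 := if_pos hu
    unfold Th
    rw [h3, one_mul, one_mul]
    refine le_trans ?_ (mul_le_mul_of_nonneg_left (hcnt X v h.ap) (by positivity : (0 : ℝ) ≤ 2 ^ J / 3 ^ (D + A.l * n)))
    unfold PP
    rw [Finset.mul_sum, Finset.mul_sum, ← Finset.sum_add_distrib]
    refine Finset.sum_le_sum fun w _ => ?_
    by_cases hv : A.valid w v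
    · rw [if_pos hv, if_pos hv, if_pos hv]
      dsimp only
      have hreg := hA.reg_step hap hD h hv
      set J' := J + A.J w with hJ'
      set u := A.child w v with hu'
      have hwt := weight_eq (A := A) D n J w
      rw [← hJ'] at hwt
      by_cases hc : A.unc D g (n + 1) J'
      · have h4 : A.io D g (n + 1) J' = 1 := if_pos hc
        unfold VV gc
        rw [h4, sub_self, zero_mul, mul_zero, mul_zero, add_zero, one_mul, ← mul_assoc, hwt]
      · have h4 : A.io D g (n + 1) J' = 0 := if_neg hc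
        unfold gc
        rw [h4, sub_zero, zero_mul, mul_zero, zero_add, one_mul]
        set s := A.sr D g (n + 1) J' with hs
        have hs1 : 1 < s := hA.one_lt_sr hu
        have hs2 : s ≤ 2 ^ (11 * A.l + 1) := sr_le hc
        have hsG : s * (2 ^ J' / 3 ^ (D + A.l * (n + 1))) = 2 ^ (g + 11 * A.l + 1) := by
          rw [hs]
          unfold sr
          field_simp
        have hcount : s * psi (100 * A.l) s u ≤ NX X u := by
          refine hψ.count (100 * A.l) hs1 hreg.ap (le_trans ?_ hX)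
          have h5 : s * |(u : ℝ)| ≤ (Y + 1) * 2 ^ (g + 11 * A.l + 1) := by
            have h6 := hreg.size
            have h7 : |(u : ℝ)| * 3 ^ (D + A.l * (n + 1)) ≤ (Y + 1) * 2 ^ J' := by
              refine h6.trans ?_
              gcongr
              have : (0 : ℝ) ≤ (1 / 2) ^ (n + 1) := by positivity
              linarith
            rw [← hsG]
            calc s * |(u : ℝ)| = s / 3 ^ (D + A.l * (n + 1)) * (|(u : ℝ)| * 3 ^ (D + A.l * (n + 1))) := by
                  field_simp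
              _ ≤ s / 3 ^ (D + A.l * (n + 1)) * ((Y + 1) * 2 ^ J') := by gcongr
              _ = _ := by ring
          have h8 : s * (3 / 2 : ℝ) ^ (100 * A.l) ≤ 2 ^ (g + 11 * A.l + 1) := by
            have h9 : (3 / 2 : ℝ) ^ (100 * A.l) ≤ 2 ^ g := by
              calc (3 / 2 : ℝ) ^ (100 * A.l) = ((3 / 2 : ℝ) ^ 100) ^ A.l := by rw [pow_mul]
                _ ≤ (2 ^ 59) ^ A.l := by gcongr; norm_num
                _ = 2 ^ (59 * A.l) := by rw [← pow_mul]
                _ ≤ 2 ^ g := pow_le_pow_right₀ (by norm_num) hg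
            calc s * (3 / 2 : ℝ) ^ (100 * A.l) ≤ 2 ^ (11 * A.l + 1) * 2 ^ g := by gcongr
              _ = 2 ^ (g + 11 * A.l + 1) := by rw [← pow_add]; congr 1; ring
          calc 6 * s * (|(u : ℝ)| + 2 * (3 / 2) ^ (100 * A.l))
              = 6 * (s * |(u : ℝ)|) + 12 * (s * (3 / 2) ^ (100 * A.l)) := by ring
            _ ≤ 6 * ((Y + 1) * 2 ^ (g + 11 * A.l + 1)) + 12 * 2 ^ (g + 11 * A.l + 1) := by gcongr
            _ = (6 * Y + 18) * 2 ^ (g + 11 * A.l + 1) := by ring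
        calc 2 ^ (g + 11 * A.l + 1) * ((A.q : ℝ) / 2 ^ A.J w * psi (100 * A.l) s u)
            = ((A.q : ℝ) / 2 ^ A.J w * (2 ^ J' / 3 ^ (D + A.l * (n + 1)))) * (s * psi (100 * A.l) s u) := by
              rw [← hsG]; ring
          _ ≤ ((A.q : ℝ) / 2 ^ A.J w * (2 ^ J' / 3 ^ (D + A.l * (n + 1)))) * NX X u := by
              have := A.q_posR
              gcongr
          _ = 2 ^ J / 3 ^ (D + A.l * n) * NX X u := by rw [hwt]
    · rw [if_neg hv, if_neg hv, if_neg hv]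
      simp
  · have h3 : A.io D g n J = 0 := if_neg hu
    unfold Th
    rw [h3, zero_mul, mul_zero, zero_mul, add_zero]
    refine le_of_eq (Finset.sum_eq_zero fun w _ => ?_)
    have h4 : A.io D g (n + 1) (J + A.J w) = 0 := if_neg fun h' => hu (A.unc_of_child h')
    split_ifs
    · dsimp only
      rw [h4, zero_mul, mul_zero]
    · rfl

end Sys

end CollatzOne
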