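import Pool.Agent.CollatzDens.Op

set_option autoImplicit false

/-!
Monotonicity and submultiplicativity of the digit deficits of the nodes.
-/

namespace CollatzOne

namespace Sys
variable (A : Sys)

/-- Composition of nodes. -/
lemma sum_nodes_add (y : ℤ) (n₁ n₂ : ℕ) (F : ℕ × ℤ → ℝ) :
    ∑ p ∈ A.nodes y (n₁ + n₂), F p = ∑ r ∈ A.nodes y n₁, ∑ p ∈ A.nodes r.2 n₂, F (r.1 + p.1, p.2) := by
  induction n₂ generalizing F with
  | zero => simp [nodes]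
  | succ n₂ ih =>
    rw [← add_assoc, sum_nodes_succ, ih]
    refine Finset.sum_congr rfl fun r _ => ?_
    rw [sum_nodes_succ]
    refine Finset.sum_congr rfl fun p _ => Finset.sum_congr rfl fun w _ => ?_
    dsimp only
    rw [add_assoc]

lemma nu_eq_nodes (c : ℤ) (n J k : ℕ) (x : ℤ) : A.nu c n J k x =
    ∑ p ∈ A.nodes c n, if p.1 = J ∧ ((A.q ^ k : ℕ) : ℤ) ∣ p.2 - x then (1 : ℝ) else 0 := by
  have h1 : A.nu c n J k x = ∑ v ∈ A.lev c n J, if ((A.q ^ k : ℕ) : ℤ) ∣ v - x then (1 : ℝ) else 0 := by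
    unfold nu
    rw [← Finset.sum_filter, Finset.sum_const, nsmul_eq_mul, mul_one]
  rw [h1]
  unfold lev
  rw [Finset.sum_image, Finset.sum_filter]
  · refine Finset.sum_congr rfl fun p _ => ?_
    by_cases h : p.1 = J
    · simp [h]
    · simp [h]
  · intro p hp r hr h
    simp only [Finset.coe_filter, Set.mem_ofPred_eq] at hp hr
    exact Prod.ext (hp.2.trans hr.2.symm) h

/-- Counting functions of a shifted root. -/
lemma nu_shift (c : ℤ) (n J k : ℕ) (U x : ℤ) :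
    A.nu (c + (A.q : ℤ) ^ n * U) n J k x = A.nu c n J k (x - 2 ^ J * U) := by
  rw [nu_eq_nodes, nu_eq_nodes, sum_nodes_shift]
  refine Finset.sum_congr rfl fun p _ => ?_
  refine if_congr ?_ rfl rfl
  constructor
  · rintro ⟨h1, h2⟩
    refine ⟨h1, ?_⟩
    subst h1
    rwa [show p.2 - (x - 2 ^ p.1 * U) = p.2 + 2 ^ p.1 * U - x by ring]
  · rintro ⟨h1, h2⟩
    refine ⟨h1, ?_⟩
    subst h1
    rwa [show p.2 - (x - 2 ^ p.1 * U) = p.2 + 2 ^ p.1 * U - x by ring] at h2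

/-- Composition for the counting functions. -/
lemma nu_add (c : ℤ) (n₁ n₂ J k : ℕ) (x : ℤ) : A.nu c (n₁ + n₂) J k x =
    ∑ i ∈ Finset.range (A.Jmax n₁ + 1) ×ˢ Finset.range (A.Jmax n₂ + 1),
      (if i.1 + i.2 = J then (1 : ℝ) else 0) * ∑ v ∈ A.lev c n₁ i.1, A.nu v n₂ i.2 k x := by
  rw [nu_eq_nodes, sum_nodes_add, A.sum_nodes_lev c n₁, Finset.sum_product]
  refine Finset.sum_congr rfl fun J₁ _ => ?_
  have h1 : ∀ v ∈ A.lev c n₁ J₁, (∑ p ∈ A.nodes v n₂,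
      if J₁ + p.1 = J ∧ ((A.q ^ k : ℕ) : ℤ) ∣ p.2 - x then (1 : ℝ) else 0) =
      ∑ J₂ ∈ Finset.range (A.Jmax n₂ + 1), (if J₁ + J₂ = J then (1 : ℝ) else 0) * A.nu v n₂ J₂ k x := by
    intro v _
    rw [A.sum_nodes_lev v n₂]
    refine Finset.sum_congr rfl fun J₂ _ => ?_
    have h2 : A.nu v n₂ J₂ k x = ∑ u ∈ A.lev v n₂ J₂, if ((A.q ^ k : ℕ) : ℤ) ∣ u - x then (1 : ℝ) else 0 := by
      unfold nu
      rw [← Finset.sum_filter, Finset.sum_const, nsmul_eq_mul, mul_one]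
    rw [h2, Finset.mul_sum]
    refine Finset.sum_congr rfl fun u _ => ?_
    by_cases h : J₁ + J₂ = J
    · simp [h]
    · simp [h]
  dsimp only
  rw [Finset.sum_congr rfl h1, Finset.sum_comm]
  refine Finset.sum_congr rfl fun J₂ _ => ?_
  rw [Finset.mul_sum]

lemma wt_add (γ : ℝ) (n₁ n₂ J₁ J₂ : ℕ) :
    A.wt γ (n₁ + n₂) (J₁ + J₂) = A.wt γ n₁ J₁ * A.wt γ n₂ J₂ := by
  have hq := A.q_posR
  unfold wt
  rw [← Real.mul_rpow (by positivity) (by positivity)]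
  congr 1
  rw [pow_add, pow_add]
  field_simp

lemma wtZ_add (n₁ n₂ J₁ J₂ : ℕ) : A.wt 1 (n₁ + n₂) (J₁ + J₂) / A.Z ^ (n₁ + n₂) =
    (A.wt 1 n₁ J₁ / A.Z ^ n₁) * (A.wt 1 n₂ J₂ / A.Z ^ n₂) := by
  rw [wt_add, pow_add, div_mul_div_comm]

/-- The inner sum of `tt`. -/
noncomputable def GG (n k : ℕ) (c : ℤ) : ℝ := ∑ J ∈ Finset.range (A.Jmax n + 1),
  A.wt 1 n J / A.Z ^ n * DD (A.q ^ k) A.q (A.nu c n J (k + 1))

lemma tt_eq (n k : ℕ) : A.tt n k = S (A.q ^ n) (A.GG n k) / (A.q : ℝ) ^ n := rfl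

lemma nu_per' (c : ℤ) (n J k : ℕ) : Per (A.q ^ k * A.q) (A.nu c n J (k + 1)) := by
  have := A.nu_per c n J (k + 1)
  rwa [pow_succ] at this

lemma DD_nu_nonneg (c : ℤ) (n J k : ℕ) : 0 ≤ DD (A.q ^ k) A.q (A.nu c n J (k + 1)) :=
  DD_nonneg A.q_pos (A.nu_per' c n J k) (A.nu_nonneg _ _ _ _)

lemma GG_nonneg (n k : ℕ) (c : ℤ) : 0 ≤ A.GG n k c :=
  Finset.sum_nonneg fun J _ => mul_nonneg (A.wtZ_nonneg n J) (A.DD_nu_nonneg _ _ _ _)

lemma DD_nu_shift (c : ℤ) (n J k : ℕ) (U : ℤ) :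
    DD (A.q ^ k) A.q (A.nu (c + (A.q : ℤ) ^ n * U) n J (k + 1)) = DD (A.q ^ k) A.q (A.nu c n J (k + 1)) := by
  rw [← DD_affine (A.nu_per' c n J k) isCoprime_one_left (-(2 ^ J * U))]
  refine DD_congr fun x => ?_
  rw [nu_shift]
  congr 1
  ring

lemma GG_per (n k : ℕ) : Per (A.q ^ n) (A.GG n k) := by
  intro c
  unfold GG
  refine Finset.sum_congr rfl fun J _ => ?_
  have := A.DD_nu_shift c n J k 1
  push_cast
  rw [mul_one] at this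
  rw [this]

/-- First step of the convexity estimates. -/
lemma GG_add_le (c : ℤ) (n₁ n₂ k : ℕ) : A.GG (n₁ + n₂) k c ≤
    ∑ J₁ ∈ Finset.range (A.Jmax n₁ + 1), ∑ J₂ ∈ Finset.range (A.Jmax n₂ + 1),
      (A.wt 1 n₁ J₁ / A.Z ^ n₁) * (A.wt 1 n₂ J₂ / A.Z ^ n₂) *
        DD (A.q ^ k) A.q (fun x => ∑ v ∈ A.lev c n₁ J₁, A.nu v n₂ J₂ (k + 1) x) := by
  classical
  set I := Finset.range (A.Jmax n₁ + 1) ×ˢ Finset.range (A.Jmax n₂ + 1) with hI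
  set F : ℕ × ℕ → ℤ → ℝ := fun i x => ∑ v ∈ A.lev c n₁ i.1, A.nu v n₂ i.2 (k + 1) x with hF
  have hF0 : ∀ i x, 0 ≤ F i x := fun i x => Finset.sum_nonneg fun v _ => A.nu_nonneg _ _ _ _ _
  have hFper : ∀ i, Per (A.q ^ k * A.q) (F i) := fun i x =>
    Finset.sum_congr rfl fun v _ => A.nu_per' v n₂ i.2 k x
  have hD0 : ∀ i, 0 ≤ DD (A.q ^ k) A.q (F i) := fun i => DD_nonneg A.q_pos (hFper i) (hF0 i)
  have h1 : ∀ J, DD (A.q ^ k) A.q (A.nu c (n₁ + n₂) J (k + 1)) ≤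
      ∑ i ∈ I, (if i.1 + i.2 = J then (1 : ℝ) else 0) * DD (A.q ^ k) A.q (F i) := by
    intro J
    rw [DD_congr (A.nu_add c n₁ n₂ J (k + 1))]
    refine DD_sum_le A.q_pos I (fun i => if i.1 + i.2 = J then (1 : ℝ) else 0) (fun i _ => ?_) F
      (fun i _ x => hF0 i x)
    split_ifs <;> norm_num
  have h2 : A.GG (n₁ + n₂) k c ≤ ∑ J ∈ Finset.range (A.Jmax (n₁ + n₂) + 1), ∑ i ∈ I,
      if i.1 + i.2 = J then (A.wt 1 n₁ i.1 / A.Z ^ n₁) * (A.wt 1 n₂ i.2 / A.Z ^ n₂) *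
        DD (A.q ^ k) A.q (F i) else 0 := by
    unfold GG
    refine Finset.sum_le_sum fun J _ => ?_
    refine (mul_le_mul_of_nonneg_left (h1 J) (A.wtZ_nonneg _ _)).trans (le_of_eq ?_)
    rw [Finset.mul_sum]
    refine Finset.sum_congr rfl fun i _ => ?_
    split_ifs with h
    · rw [← h, wtZ_add]; ring
    · ring
  refine h2.trans ?_
  rw [Finset.sum_comm, hI, Finset.sum_product]
  refine Finset.sum_le_sum fun J₁ _ => Finset.sum_le_sum fun J₂ _ => ?_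
  dsimp only
  rw [Finset.sum_ite_eq]
  split_ifs with h
  · exact le_rfl
  · exact mul_nonneg (mul_nonneg (A.wtZ_nonneg _ _) (A.wtZ_nonneg _ _)) (hD0 (J₁, J₂))

/-- (T2b) -/
theorem tt_anti (n k : ℕ) : A.tt (n + 1) k ≤ A.tt n k := by
  have hq := A.q_posR
  have hZ := A.Z_pos
  have h1 : ∀ c : ℤ, A.GG (1 + n) k c ≤ A.Z⁻¹ * A.T 1 (A.GG n k) c := by
    intro c
    refine (A.GG_add_le c 1 n k).trans ?_
    have h2 : ∀ J₁ J₂ : ℕ, DD (A.q ^ k) A.q (fun x => ∑ v ∈ A.lev c 1 J₁, A.nu v n J₂ (k + 1) x) ≤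
        ∑ v ∈ A.lev c 1 J₁, DD (A.q ^ k) A.q (A.nu v n J₂ (k + 1)) := by
      intro J₁ J₂
      have := DD_sum_le (N := A.q ^ k) (r := A.q) A.q_pos (A.lev c 1 J₁) (fun _ => (1 : ℝ))
        (fun _ _ => zero_le_one) (fun v => A.nu v n J₂ (k + 1)) (fun v _ x => A.nu_nonneg _ _ _ _ x)
      simpa using this
    have h3 : A.T 1 (A.GG n k) c = ∑ J₁ ∈ Finset.range (A.Jmax 1 + 1), ∑ v ∈ A.lev c 1 J₁,
        A.wt 1 1 J₁ * A.GG n k v := by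
      have := A.iter_eq' 1 c 1 (A.GG n k)
      rw [Function.iterate_one] at this
      rw [this, A.sum_nodes_lev]
    rw [h3, Finset.mul_sum]
    refine Finset.sum_le_sum fun J₁ _ => ?_
    calc ∑ J₂ ∈ Finset.range (A.Jmax n + 1), (A.wt 1 1 J₁ / A.Z ^ 1) * (A.wt 1 n J₂ / A.Z ^ n) *
        DD (A.q ^ k) A.q (fun x => ∑ v ∈ A.lev c 1 J₁, A.nu v n J₂ (k + 1) x)
        ≤ ∑ J₂ ∈ Finset.range (A.Jmax n + 1), (A.wt 1 1 J₁ / A.Z ^ 1) * (A.wt 1 n J₂ / A.Z ^ n) *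
          ∑ v ∈ A.lev c 1 J₁, DD (A.q ^ k) A.q (A.nu v n J₂ (k + 1)) :=
          Finset.sum_le_sum fun J₂ _ => mul_le_mul_of_nonneg_left (h2 J₁ J₂)
            (mul_nonneg (A.wtZ_nonneg _ _) (A.wtZ_nonneg _ _))
      _ = A.Z⁻¹ * ∑ v ∈ A.lev c 1 J₁, A.wt 1 1 J₁ * A.GG n k v := by
          simp only [Finset.mul_sum]
          rw [Finset.sum_comm]
          refine Finset.sum_congr rfl fun v _ => ?_
          unfold GG
          rw [Finset.mul_sum, Finset.mul_sum]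
          refine Finset.sum_congr rfl fun J₂ _ => ?_
          rw [pow_one]
          ring
  have h2 : S (A.q ^ (1 + n)) (A.GG (1 + n) k) ≤ A.q * S (A.q ^ n) (A.GG n k) := by
    refine (S_mono h1).trans (le_of_eq ?_)
    have h3 := A.S_iter 1 1 n (A.GG_per n k)
    rw [Function.iterate_one, pow_one] at h3
    rw [S_mul_left, h3, A.S_T_one]
    field_simp
  rw [tt_eq, tt_eq, add_comm n 1, div_le_div_iff₀ (by positivity) (by positivity)]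
  calc S (A.q ^ (1 + n)) (A.GG (1 + n) k) * (A.q : ℝ) ^ n
      ≤ (A.q * S (A.q ^ n) (A.GG n k)) * (A.q : ℝ) ^ n := mul_le_mul_of_nonneg_right h2 (by positivity)
    _ = S (A.q ^ n) (A.GG n k) * (A.q : ℝ) ^ (1 + n) := by rw [pow_add, pow_one]; ring

lemma tt_antitone (k : ℕ) : Antitone (fun n => A.tt n k) :=
  antitone_nat_of_succ_le fun n => A.tt_anti n k

/-- The counting function restricted to a class. -/
noncomputable def al (c : ℤ) (n₁ J₁ n₂ k : ℕ) (z : ℤ) (u : ℤ) : ℝ :=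
  A.nu c n₁ J₁ (n₂ + (k + 1)) (z + (A.q : ℤ) ^ n₂ * u)

lemma al_nonneg (c : ℤ) (n₁ J₁ n₂ k : ℕ) (z : ℤ) (u : ℤ) : 0 ≤ A.al c n₁ J₁ n₂ k z u :=
  A.nu_nonneg _ _ _ _ _

lemma al_per (c : ℤ) (n₁ J₁ n₂ k : ℕ) (z : ℤ) : Per (A.q ^ k * A.q) (A.al c n₁ J₁ n₂ k z) := by
  intro u
  unfold al
  have := A.nu_per c n₁ J₁ (n₂ + (k + 1)) (z + (A.q : ℤ) ^ n₂ * u)
  rw [← this]
  congr 1
  push_cast
  ring

lemma DD_al_per (c : ℤ) (n₁ J₁ n₂ k : ℕ) :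
    Per (A.q ^ n₂) (fun z => DD (A.q ^ k) A.q (A.al c n₁ J₁ n₂ k z)) := by
  intro z
  dsimp only
  rw [← DD_affine (A.al_per c n₁ J₁ n₂ k z) isCoprime_one_left 1]
  refine DD_congr fun u => ?_
  unfold al
  congr 1
  push_cast
  ring

lemma S_DD_al (c : ℤ) (n₁ J₁ n₂ k : ℕ) : S (A.q ^ n₂) (fun z => DD (A.q ^ k) A.q (A.al c n₁ J₁ n₂ k z)) =
    DD (A.q ^ (n₂ + k)) A.q (A.nu c n₁ J₁ (n₂ + k + 1)) := by
  rw [pow_add, DD_split]
  refine S_congr fun z => DD_congr fun u => ?_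
  unfold al
  push_cast
  rfl

lemma DD_al_shift (c : ℤ) (n₁ J₁ n₂ k : ℕ) (U z : ℤ) :
    DD (A.q ^ k) A.q (A.al (c + (A.q : ℤ) ^ n₁ * U) n₁ J₁ n₂ k z) =
      DD (A.q ^ k) A.q (A.al c n₁ J₁ n₂ k (-2 ^ J₁ * U + z)) := by
  refine DD_congr fun u => ?_
  unfold al
  rw [nu_shift]
  congr 1
  ring

/-- The key estimate: convolution of two entropy deficits. -/
lemma DD_level_le (c : ℤ) (n₁ n₂ J₁ J₂ k : ℕ) :
    DD (A.q ^ k) A.q (fun x => ∑ v ∈ A.lev c n₁ J₁, A.nu v n₂ J₂ (k + 1) x) ≤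
      S (A.q ^ n₂) (fun z => 64 * DD (A.q ^ k) A.q (A.al c n₁ J₁ n₂ k z) *
        DD (A.q ^ k) A.q (A.nu z n₂ J₂ (k + 1))) := by
  have hq3 : A.q ^ k = 3 ^ (A.l * k) := by unfold q; rw [pow_mul]
  have hq3' : A.q = 3 ^ A.l := rfl
  -- the decomposition
  have h1 : ∀ x : ℤ, ∑ v ∈ A.lev c n₁ J₁, A.nu v n₂ J₂ (k + 1) x =
      ∑ z ∈ Finset.range (A.q ^ n₂), 1 * S (A.q ^ (k + 1)) (fun u => A.al c n₁ J₁ n₂ k z u *
        A.nu z n₂ J₂ (k + 1) (x - 2 ^ J₂ * u)) := by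
    intro x
    have hper : Per (A.q ^ (n₂ + (k + 1))) (fun z => A.nu z n₂ J₂ (k + 1) x) := by
      intro z
      dsimp only
      rw [show z + ((A.q ^ (n₂ + (k + 1)) : ℕ) : ℤ) = z + (A.q : ℤ) ^ n₂ * (A.q : ℤ) ^ (k + 1) by
        push_cast; ring, nu_shift]
      have := (A.nu_per z n₂ J₂ (k + 1)).add_mul x (-2 ^ J₂)
      rw [← this]
      congr 1
      push_cast
      ring
    have h2 := A.corr_nu c n₁ J₁ (n₂ + (k + 1)) hper 0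
    simp only [add_zero] at h2
    rw [← h2]
    unfold corr
    rw [pow_add, S_mul]
    show _ = ∑ z ∈ Finset.range (A.q ^ n₂), _
    refine Finset.sum_congr rfl fun z _ => ?_
    rw [one_mul]
    refine S_congr fun u => ?_
    have e1 : (z : ℤ) + ((A.q ^ n₂ : ℕ) : ℤ) * u = (z : ℤ) + (A.q : ℤ) ^ n₂ * u := by push_cast; ring
    dsimp only
    rw [add_zero, e1, nu_shift]
    rfl
  rw [DD_congr h1]
  have hS0 : ∀ z : ℤ, ∀ x : ℤ, 0 ≤ S (A.q ^ (k + 1)) (fun u => A.al c n₁ J₁ n₂ k z u *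
        A.nu z n₂ J₂ (k + 1) (x - 2 ^ J₂ * u)) := fun z x =>
    S_nonneg fun u => mul_nonneg (A.al_nonneg _ _ _ _ _ _ _) (A.nu_nonneg _ _ _ _ _)
  refine (DD_sum_le A.q_pos (Finset.range (A.q ^ n₂)) (fun _ => (1 : ℝ)) (fun _ _ => zero_le_one)
    (fun (z : ℕ) x => S (A.q ^ (k + 1)) (fun u => A.al c n₁ J₁ n₂ k z u *
        A.nu z n₂ J₂ (k + 1) (x - 2 ^ J₂ * u))) (fun z _ x => hS0 z x)).trans ?_
  show _ ≤ ∑ z ∈ Finset.range (A.q ^ n₂), _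
  refine Finset.sum_le_sum fun z _ => ?_
  rw [one_mul]
  have hcop : IsCoprime (-2 ^ J₂ : ℤ) ((A.q ^ k * A.q : ℕ) : ℤ) := by
    rw [← pow_succ]
    exact (A.coprime_two_pow J₂ (k + 1)).neg_left
  set g : ℤ → ℝ := fun t => A.nu (z : ℤ) n₂ J₂ (k + 1) (-2 ^ J₂ * t + 0) with hg
  have hgper : Per (A.q ^ k * A.q) g := (A.nu_per' (z : ℤ) n₂ J₂ k).comp_affine _ _
  have hg0 : ∀ t, 0 ≤ g t := fun t => A.nu_nonneg _ _ _ _ _
  have hgDD : DD (A.q ^ k) A.q g = DD (A.q ^ k) A.q (A.nu (z : ℤ) n₂ J₂ (k + 1)) :=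
    DD_affine (A.nu_per' (z : ℤ) n₂ J₂ k) hcop 0
  have hSper : Per (A.q ^ k * A.q) (fun x => S (A.q ^ (k + 1)) (fun u => A.al c n₁ J₁ n₂ k z u *
        A.nu z n₂ J₂ (k + 1) (x - 2 ^ J₂ * u))) := by
    intro x
    refine S_congr fun u => ?_
    congr 1
    have := A.nu_per' (z : ℤ) n₂ J₂ k (x - 2 ^ J₂ * u)
    rw [← this]
    congr 1
    ring
  have h3 : DD (A.q ^ k) A.q (fun x => S (A.q ^ (k + 1)) (fun u => A.al c n₁ J₁ n₂ k z u *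
        A.nu z n₂ J₂ (k + 1) (x - 2 ^ J₂ * u))) =
      DD (A.q ^ k) A.q (corr (A.q ^ k * A.q) (A.al c n₁ J₁ n₂ k z) g) := by
    rw [← DD_affine hSper hcop 0]
    refine DD_congr fun x => ?_
    unfold corr
    rw [pow_succ]
    refine S_congr fun u => ?_
    rw [hg]
    dsimp only
    congr 2
    ring
  rw [h3]
  have hal := A.al_per c n₁ J₁ n₂ k z
  have h4 : DD (A.q ^ k) A.q (corr (A.q ^ k * A.q) (A.al c n₁ J₁ n₂ k z) g) ≤
      64 * DD (A.q ^ k) A.q (A.al c n₁ J₁ n₂ k z) * DD (A.q ^ k) A.q g := by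
    rw [hq3, hq3'] at hal hgper ⊢
    exact DD_corr (A.l * k) A.l hal hgper (A.al_nonneg _ _ _ _ _ _) hg0
  rw [hgDD] at h4
  exact h4

/-- (T2c) -/
theorem tt_mul (n₁ n₂ k : ℕ) : A.tt (n₁ + n₂) k ≤ 64 * A.tt n₂ k * A.tt n₁ (n₂ + k) := by
  have hq := A.q_posR
  have hZ := A.Z_pos
  -- pointwise
  have h1 : ∀ c : ℤ, A.GG (n₁ + n₂) k c ≤ ∑ J₁ ∈ Finset.range (A.Jmax n₁ + 1),
      64 * (A.wt 1 n₁ J₁ / A.Z ^ n₁) * S (A.q ^ n₂) (fun z =>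
        DD (A.q ^ k) A.q (A.al c n₁ J₁ n₂ k z) * A.GG n₂ k z) := by
    intro c
    refine (A.GG_add_le c n₁ n₂ k).trans ?_
    refine Finset.sum_le_sum fun J₁ _ => ?_
    calc ∑ J₂ ∈ Finset.range (A.Jmax n₂ + 1), (A.wt 1 n₁ J₁ / A.Z ^ n₁) * (A.wt 1 n₂ J₂ / A.Z ^ n₂) *
        DD (A.q ^ k) A.q (fun x => ∑ v ∈ A.lev c n₁ J₁, A.nu v n₂ J₂ (k + 1) x)
        ≤ ∑ J₂ ∈ Finset.range (A.Jmax n₂ + 1), (A.wt 1 n₁ J₁ / A.Z ^ n₁) * (A.wt 1 n₂ J₂ / A.Z ^ n₂) *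
          S (A.q ^ n₂) (fun z => 64 * DD (A.q ^ k) A.q (A.al c n₁ J₁ n₂ k z) *
            DD (A.q ^ k) A.q (A.nu z n₂ J₂ (k + 1))) :=
          Finset.sum_le_sum fun J₂ _ => mul_le_mul_of_nonneg_left (A.DD_level_le c n₁ n₂ J₁ J₂ k)
            (mul_nonneg (A.wtZ_nonneg _ _) (A.wtZ_nonneg _ _))
      _ = 64 * (A.wt 1 n₁ J₁ / A.Z ^ n₁) * S (A.q ^ n₂) (fun z =>
        DD (A.q ^ k) A.q (A.al c n₁ J₁ n₂ k z) * A.GG n₂ k z) := by
          simp only [← S_mul_left]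
          rw [← S_sum]
          refine S_congr fun z => ?_
          unfold GG
          simp only [Finset.mul_sum]
          refine Finset.sum_congr rfl fun J₂ _ => ?_
          ring
  -- summation over the roots
  have h2 : S (A.q ^ (n₁ + n₂)) (A.GG (n₁ + n₂) k) ≤
      64 * S (A.q ^ n₂) (A.GG n₂ k) * S (A.q ^ n₁) (A.GG n₁ (n₂ + k)) := by
    refine (S_mono h1).trans ?_
    rw [pow_add, S_mul, ← S_mul_left]
    refine S_mono fun c => ?_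
    rw [S_sum]
    have hGG : A.GG n₁ (n₂ + k) c = ∑ J ∈ Finset.range (A.Jmax n₁ + 1),
      A.wt 1 n₁ J / A.Z ^ n₁ * DD (A.q ^ (n₂ + k)) A.q (A.nu c n₁ J (n₂ + k + 1)) := rfl
    rw [hGG, Finset.mul_sum]
    refine Finset.sum_le_sum fun J₁ _ => le_of_eq ?_
    rw [S_mul_left]
    have h3 : ∀ U : ℤ, S (A.q ^ n₂) (fun z => DD (A.q ^ k) A.q (A.al (c + ((A.q ^ n₁ : ℕ) : ℤ) * U) n₁ J₁ n₂ k z) *
        A.GG n₂ k z) = S (A.q ^ n₂) (fun z => DD (A.q ^ k) A.q (A.al c n₁ J₁ n₂ k (-2 ^ J₁ * U + z)) *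
          A.GG n₂ k z) := by
      intro U
      refine S_congr fun z => ?_
      push_cast
      rw [DD_al_shift]
    have h4 : S (A.q ^ n₂) (fun U => S (A.q ^ n₂) (fun z =>
        DD (A.q ^ k) A.q (A.al (c + ((A.q ^ n₁ : ℕ) : ℤ) * U) n₁ J₁ n₂ k z) * A.GG n₂ k z)) =
        DD (A.q ^ (n₂ + k)) A.q (A.nu c n₁ J₁ (n₂ + k + 1)) * S (A.q ^ n₂) (A.GG n₂ k) := by
      rw [S_congr h3, S_S_comm, ← S_mul_left]
      refine S_congr fun z => ?_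
      rw [S_mul_right, S_affine (A.DD_al_per c n₁ J₁ n₂ k) ((A.coprime_two_pow J₁ n₂).neg_left) z,
        S_DD_al]
    rw [h4]
    ring
  rw [tt_eq, tt_eq, tt_eq, div_le_iff₀ (by positivity)]
  refine h2.trans (le_of_eq ?_)
  rw [pow_add]
  field_simp

/-- (T2d) -/
theorem tt_le (n k : ℕ) : A.tt n k ≤ Real.log A.q := by
  have hq := A.q_posR
  rw [tt_eq, div_le_iff₀ (by positivity)]
  have h1 : ∀ c : ℤ, A.GG n k c ≤ A.F n c * Real.log A.q := by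
    intro c
    rw [A.F_eq_sum, A.sum_nodes_lev, Finset.sum_mul]
    unfold GG
    refine Finset.sum_le_sum fun J _ => ?_
    have h2 := DD_le A.q_pos (A.nu_per' c n J k) (A.nu_nonneg c n J (k + 1))
    rw [← pow_succ, S_nu] at h2
    refine (mul_le_mul_of_nonneg_left h2 (A.wtZ_nonneg _ _)).trans (le_of_eq ?_)
    dsimp only
    rw [Finset.sum_const, nsmul_eq_mul]
    ring
  refine (S_mono h1).trans (le_of_eq ?_)
  rw [S_mul_right, A.S_F]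
  ring

end Sys

end CollatzOne
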