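import Pool.Agent.CollatzDens.Str
import Pool.Agent.CollatzDens.TT

set_option autoImplicit false

/-!
The digit deficits are superpolynomially small.
-/

namespace CollatzOne
namespace Sys
variable {A : Sys}

lemma pow99_600 : (99 / 100 : ℝ) ^ 600 ≤ 1 / 16 := by
  have h1 : (99 / 100 : ℝ) ^ 100 ≤ 2 / 5 := by norm_num
  calc (99 / 100 : ℝ) ^ 600 = ((99 / 100 : ℝ) ^ 100) ^ 6 := by rw [← pow_mul]
    _ ≤ (2 / 5) ^ 6 := by gcongr
    _ ≤ 1 / 16 := by norm_num

/-- `x = (99/100)^l` is small compared with `1 / blk`. -/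
lemma blk_mul_le (A : Sys) (hl : 600 ≤ A.l) : (A.blk : ℝ) * (99 / 100) ^ A.l ≤ 1 / 8 := by
  set m := A.l / 600 with hm
  have hm1 : 1 ≤ m := by omega
  have h1 : 600 * m ≤ A.l := by omega
  have h2 : (99 / 100 : ℝ) ^ A.l ≤ (99 / 100) ^ (600 * m) :=
    pow_le_pow_of_le_one (by norm_num) (by norm_num) h1
  have h3 : (A.blk : ℝ) = 2 ^ m := by unfold blk; push_cast; rfl
  calc (A.blk : ℝ) * (99 / 100) ^ A.l ≤ 2 ^ m * (99 / 100) ^ (600 * m) := by rw [h3]; gcongr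
    _ = (2 * (99 / 100 : ℝ) ^ 600) ^ m := by rw [pow_mul, mul_pow]
    _ ≤ (1 / 8) ^ m := by
        have h5 : 2 * (99 / 100 : ℝ) ^ 600 ≤ 1 / 8 := by
          have h6 := pow99_600
          generalize (99 / 100 : ℝ) ^ 600 = z at *
          linarith
        exact pow_le_pow_left₀ (by positivity) h5 m
    _ ≤ (1 / 8) ^ 1 := pow_le_pow_of_le_one (by norm_num) (by norm_num) hm1
    _ = 1 / 8 := by norm_num

lemma Str.neg_log_Z_le (hA : A.Str) : -Real.log A.Z ≤ 2 * (99 / 100) ^ A.l := by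
  have hl := hA.hl
  have h1 := hA.Z_ge
  set x : ℝ := (99 / 100) ^ A.l with hx
  have hx0 : 0 < x := by positivity
  have hx1 : x ≤ 1 / 16 := by
    rw [hx]
    calc (99 / 100 : ℝ) ^ A.l ≤ (99 / 100) ^ 600 := pow_le_pow_of_le_one (by norm_num) (by norm_num) hl
      _ ≤ 1 / 16 := pow99_600
  have hZ0 := A.Z_pos
  have h6 := Real.one_sub_inv_le_log_of_pos hZ0
  have h7 : A.Z⁻¹ ≤ (1 - x)⁻¹ := inv_anti₀ (by linarith) h1
  have h8 : (1 - x)⁻¹ ≤ 1 + 2 * x := by
    rw [inv_le_iff_one_le_mul₀ (by linarith)]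
    nlinarith
  linarith

lemma Str.sum_tt_le' (hA : A.Str) {n k : ℕ} (hk : 16 * k ≤ n) (hn : n ≤ A.blk) :
    ∑ i ∈ Finset.range k, A.tt n i ≤ 3 * A.l := by
  have hl := hA.hl
  have hlR : (600 : ℝ) ≤ A.l := by exact_mod_cast hl
  refine (hA.sum_tt_le hk).trans ?_
  have hlog2 := Real.log_two_lt_d9
  have hlog2' : 0 < Real.log 2 := Real.log_pos (by norm_num)
  -- first term
  have h1 : Real.log (A.q * (4 * 2 ^ A.l + 1)) ≤ (3 * A.l + 3) * Real.log 2 := by
    have h2 : (A.q : ℝ) * (4 * 2 ^ A.l + 1) ≤ 2 ^ (3 * A.l + 3) := by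
      have h3 : (A.q : ℝ) ≤ 4 ^ A.l := by
        unfold q
        push_cast
        gcongr
        norm_num
      have h4 : (1 : ℝ) ≤ 2 ^ A.l := one_le_pow₀ (by norm_num)
      calc (A.q : ℝ) * (4 * 2 ^ A.l + 1) ≤ 4 ^ A.l * (8 * 2 ^ A.l) := by
            gcongr
            linarith
        _ = 2 ^ (3 * A.l + 3) := by
            rw [show (4 : ℝ) = 2 ^ 2 by norm_num, ← pow_mul, pow_add, show 3 * A.l = 2 * A.l + A.l by ring,
              pow_add]
            ring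
    have hq := A.q_posR
    have h5 := Real.log_le_log (by positivity) h2
    rw [Real.log_pow] at h5
    push_cast at h5
    exact h5
  -- second term
  have h2 : (n : ℝ) * (-Real.log A.Z) ≤ 1 := by
    have h3 := hA.neg_log_Z_le
    have h4 := blk_mul_le A hl
    have h5 : (n : ℝ) ≤ A.blk := by exact_mod_cast hn
    calc (n : ℝ) * (-Real.log A.Z) ≤ A.blk * (2 * (99 / 100) ^ A.l) := by
          gcongr
          · exact neg_nonneg.2 (Real.log_nonpos A.Z_pos.le hA.Z_le)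
      _ = 2 * (A.blk * (99 / 100) ^ A.l) := by ring
      _ ≤ 1 := by linarith
  -- third term
  have h3 : Real.log (11 * A.l * n + 1) ≤ (A.l / 10 + 10) * Real.log 2 := by
    set m := A.l / 600 with hm
    have hm1 : 600 * m ≤ A.l := by omega
    have hn' : (n : ℝ) ≤ 2 ^ m := by
      have : (n : ℝ) ≤ A.blk := by exact_mod_cast hn
      unfold blk at this
      push_cast at this
      exact this
    obtain ⟨t, ht⟩ : ∃ t, t = A.l / 20 := ⟨_, rfl⟩
    have ht1 : A.l ≤ 20 * t + 20 := by omega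
    have ht2 : 20 * t ≤ A.l := by omega
    have h4 : (A.l : ℝ) ≤ 20 * 2 ^ t := by
      have h5 : t + 1 ≤ 2 ^ t := Nat.lt_two_pow_self
      have h6 : A.l ≤ 20 * 2 ^ t := by omega
      exact_mod_cast h6
    have h7 : (11 * A.l * n + 1 : ℝ) ≤ 2 ^ (t + m + 8) := by
      have h8 : (1 : ℝ) ≤ 2 ^ t * 2 ^ m := by
        have h9 : (1 : ℝ) ≤ 2 ^ t := one_le_pow₀ (by norm_num)
        have h10 : (1 : ℝ) ≤ 2 ^ m := one_le_pow₀ (by norm_num)
        nlinarith
      calc (11 * A.l * n + 1 : ℝ) ≤ 11 * (20 * 2 ^ t) * 2 ^ m + 2 ^ t * 2 ^ m := by gcongr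
        _ ≤ 256 * (2 ^ t * 2 ^ m) := by nlinarith
        _ = 2 ^ (t + m + 8) := by rw [pow_add, pow_add]; norm_num; ring
    have h11 : (0 : ℝ) < 11 * A.l * n + 1 := by positivity
    have h12 := Real.log_le_log h11 h7
    rw [Real.log_pow] at h12
    refine h12.trans ?_
    have h13 : ((t + m + 8 : ℕ) : ℝ) ≤ A.l / 10 + 10 := by
      have h14 : 10 * (t + m + 8) ≤ A.l + 100 := by omega
      have h15 : (10 : ℝ) * ((t + m + 8 : ℕ) : ℝ) ≤ A.l + 100 := by exact_mod_cast h14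
      linarith
    gcongr
  have h4 : (3 * (A.l : ℝ) + 3) * Real.log 2 ≤ (3 * A.l + 3) * 0.7 := by
    gcongr
    linarith
  have h5 : ((A.l : ℝ) / 10 + 10) * Real.log 2 ≤ (A.l / 10 + 10) * 0.7 := by
    gcongr
    linarith
  linarith

/-- One step of the iteration. -/
lemma Str.tt_step (hA : A.Str) {n k x : ℕ} (hx : 1 ≤ x) (hk : k ≤ x) (hn : 50 * x ≤ n) (hb : n ≤ A.blk) :
    (x : ℝ) * A.tt n k ≤ 192 * A.l * A.tt x k := by
  have h1 : ∀ i ∈ Finset.Ico x (2 * x), A.tt n k ≤ 64 * A.tt x k * A.tt (n - 2 * x) (i + k) := by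
    intro i hi
    rw [Finset.mem_Ico] at hi
    have h2 := A.tt_mul (n - i) i k
    rw [Nat.sub_add_cancel (by omega)] at h2
    have h3 : A.tt i k ≤ A.tt x k := A.tt_antitone k hi.1
    have h4 : A.tt (n - i) (i + k) ≤ A.tt (n - 2 * x) (i + k) := A.tt_antitone (i + k) (by omega)
    have h5 := A.tt_nonneg i k
    have h6 := A.tt_nonneg (n - i) (i + k)
    have h7 := A.tt_nonneg x k
    calc A.tt n k ≤ 64 * A.tt i k * A.tt (n - i) (i + k) := h2
      _ ≤ 64 * A.tt x k * A.tt (n - 2 * x) (i + k) := by gcongr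
  have h2 := Finset.sum_le_sum h1
  rw [Finset.sum_const, Nat.card_Ico, nsmul_eq_mul, ← Finset.mul_sum, show 2 * x - x = x by omega] at h2
  have h3 : ∑ i ∈ Finset.Ico x (2 * x), A.tt (n - 2 * x) (i + k) ≤ 3 * A.l := by
    rw [Finset.sum_Ico_add' (fun j => A.tt (n - 2 * x) j)]
    refine le_trans ?_ (hA.sum_tt_le' (n := n - 2 * x) (k := 3 * x) (by omega) (by omega))
    refine Finset.sum_le_sum_of_subset_of_nonneg (fun j hj => ?_) fun j _ _ => A.tt_nonneg _ _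
    rw [Finset.mem_Ico] at hj
    rw [Finset.mem_range]
    omega
  have h4 := A.tt_nonneg x k
  calc (x : ℝ) * A.tt n k ≤ 64 * A.tt x k * ∑ i ∈ Finset.Ico x (2 * x), A.tt (n - 2 * x) (i + k) := h2
    _ ≤ 64 * A.tt x k * (3 * A.l) := by gcongr
    _ = 192 * A.l * A.tt x k := by ring

/-- The iteration. -/
lemma Str.tt_iter (hA : A.Str) {k : ℕ} (hk : k ≤ 101) (j : ℕ) (hj : 200 * A.l * 50 ^ j ≤ A.blk) :
    A.tt (200 * A.l * 50 ^ j) k ≤ Real.log A.q * ∏ i ∈ Finset.range j, (1 / 50 : ℝ) ^ i := by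
  have hl := hA.hl
  have hlR : (600 : ℝ) ≤ A.l := by exact_mod_cast hl
  induction j with
  | zero => simpa using A.tt_le (200 * A.l) k
  | succ j ih =>
    have h50 : 1 ≤ 50 ^ j := Nat.one_le_pow _ _ (by norm_num)
    have h1 : 200 * A.l * 50 ^ (j + 1) = 50 * (200 * A.l * 50 ^ j) := by rw [pow_succ]; ring
    have h2 := ih (by rw [h1] at hj; omega)
    have hx : 101 ≤ 200 * A.l * 50 ^ j := by nlinarith
    have h3 := hA.tt_step (n := 200 * A.l * 50 ^ (j + 1)) (k := k) (x := 200 * A.l * 50 ^ j)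
      (by omega) (by omega) (by rw [h1]) hj
    have h4 := A.tt_nonneg (200 * A.l * 50 ^ j) k
    have h5 : A.tt (200 * A.l * 50 ^ (j + 1)) k ≤ (1 / 50) ^ j * A.tt (200 * A.l * 50 ^ j) k := by
      push_cast at h3
      have h6 : (0 : ℝ) < 200 * A.l * 50 ^ j := by positivity
      have h7 : 200 * (A.l : ℝ) * 50 ^ j * A.tt (200 * A.l * 50 ^ (j + 1)) k ≤
          200 * (A.l : ℝ) * 50 ^ j * ((1 / 50) ^ j * A.tt (200 * A.l * 50 ^ j) k) := by
        refine h3.trans ?_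
        have h8 : 200 * (A.l : ℝ) * 50 ^ j * ((1 / 50) ^ j * A.tt (200 * A.l * 50 ^ j) k) =
            200 * A.l * A.tt (200 * A.l * 50 ^ j) k := by
          rw [one_div, inv_pow]
          field_simp
        rw [h8]
        gcongr
        norm_num
      exact le_of_mul_le_mul_left h7 h6
    rw [Finset.prod_range_succ]
    calc A.tt (200 * A.l * 50 ^ (j + 1)) k ≤ (1 / 50) ^ j * A.tt (200 * A.l * 50 ^ j) k := h5
      _ ≤ (1 / 50) ^ j * (Real.log A.q * ∏ i ∈ Finset.range j, (1 / 50 : ℝ) ^ i) := by gcongr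
      _ = _ := by ring

lemma prod_pow_le (m : ℕ) : ∏ i ∈ Finset.range (2 * m), (1 / 50 : ℝ) ^ i ≤ (1 / 50) ^ (m * m) := by
  rw [Finset.prod_pow_eq_pow_sum]
  refine pow_le_pow_of_le_one (by norm_num) (by norm_num) ?_
  have h1 : ∑ i ∈ Finset.Ico m (2 * m), m ≤ ∑ i ∈ Finset.Ico m (2 * m), i :=
    Finset.sum_le_sum fun i hi => (Finset.mem_Ico.1 hi).1
  rw [Finset.sum_const, Nat.card_Ico, smul_eq_mul, show 2 * m - m = m by omega] at h1
  refine h1.trans (Finset.sum_le_sum_of_subset fun i hi => ?_)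
  rw [Finset.mem_Ico] at hi
  exact Finset.mem_range.2 hi.2

lemma aux_pow26 (m : ℕ) (hm : 6 ≤ m) : 2000000 * (m + 1) ≤ 26 ^ m := by
  induction m, hm using Nat.le_induction with
  | base => norm_num
  | succ m hm ih =>
    rw [pow_succ]
    omega

theorem tt_small (a : ℕ) : ∃ l₀ : ℕ, ∀ A : Sys, A.Str → l₀ ≤ A.l → ∀ n k : ℕ, A.blk ≤ n →
    k ≤ 101 → A.tt n k ≤ (1 / 2 : ℝ) ^ (a * A.l) := by
  refine ⟨10000 * (5000 * (a + 1) + 6), fun A hA hl n k hn hk => ?_⟩
  set m := A.l / 10000 with hm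
  have hm1 : 10000 * m ≤ A.l := by omega
  have hm2 : A.l ≤ 10000 * (m + 1) := by omega
  have hm3 : 5000 * (a + 1) + 6 ≤ m := by omega
  -- enough room
  have hroom : 200 * A.l * 50 ^ (2 * m) ≤ A.blk := by
    have h1 : 16 * m ≤ A.l / 600 := by omega
    have h2 : 2 ^ (16 * m) ≤ A.blk := by
      unfold blk
      exact Nat.pow_le_pow_right (by norm_num) h1
    refine le_trans ?_ h2
    have h3 := aux_pow26 m (by omega)
    calc 200 * A.l * 50 ^ (2 * m) ≤ 200 * (10000 * (m + 1)) * 50 ^ (2 * m) := by gcongr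
      _ = (2000000 * (m + 1)) * 2500 ^ m := by rw [pow_mul]; norm_num; ring
      _ ≤ 26 ^ m * 2500 ^ m := by gcongr
      _ = 65000 ^ m := by rw [← mul_pow]; norm_num
      _ ≤ 65536 ^ m := Nat.pow_le_pow_left (by norm_num) m
      _ = 2 ^ (16 * m) := by rw [pow_mul]; norm_num
  have h1 := hA.tt_iter hk (2 * m) hroom
  have h2 : A.tt n k ≤ A.tt (200 * A.l * 50 ^ (2 * m)) k := A.tt_antitone k (hroom.trans hn)
  have h3 := prod_pow_le m
  have hlog : Real.log A.q ≤ 2 ^ (m + 15) := by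
    have h4 := A.ent_log_q
    have h5 := ent_log_three_lt
    have h6 := Real.log_two_lt_d9
    have h7 : Real.log A.q ≤ 2 * A.l := by
      rw [h4]
      have : (0 : ℝ) ≤ A.l := Nat.cast_nonneg _
      nlinarith
    have h8 : m + 1 ≤ 2 ^ m := Nat.lt_two_pow_self
    have h9 : 2 * A.l ≤ 2 ^ (m + 15) := by
      calc 2 * A.l ≤ 20000 * (m + 1) := by omega
        _ ≤ 32768 * 2 ^ m := by nlinarith
        _ = 2 ^ (m + 15) := by rw [pow_add]; norm_num; ring
    refine h7.trans ?_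
    exact_mod_cast h9
  have hq0 : 0 ≤ Real.log A.q := Real.log_nonneg (by exact_mod_cast A.q_pos)
  have h4 : (1 / 50 : ℝ) ^ (m * m) ≤ (1 / 2) ^ (5 * (m * m)) := by
    rw [pow_mul (1 / 2 : ℝ) 5]
    gcongr
    norm_num
  have h5 : m + 15 + a * A.l ≤ 5 * (m * m) := by
    have h6 : a * A.l ≤ a * (10000 * (m + 1)) := Nat.mul_le_mul_left a hm2
    have h7 : (5000 * (a + 1) + 6) * m ≤ m * m := Nat.mul_le_mul_right m hm3
    nlinarith
  calc A.tt n k ≤ Real.log A.q * ∏ i ∈ Finset.range (2 * m), (1 / 50 : ℝ) ^ i := h2.trans h1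
    _ ≤ 2 ^ (m + 15) * (1 / 2) ^ (5 * (m * m)) := by
        gcongr
        exact h3.trans h4
    _ ≤ 2 ^ (m + 15) * (1 / 2) ^ (m + 15 + a * A.l) := by
        gcongr ?_ * ?_
        exact pow_le_pow_of_le_one (by norm_num) (by norm_num) h5
    _ = (1 / 2 : ℝ) ^ (a * A.l) := by
        rw [pow_add (1 / 2 : ℝ), ← mul_assoc, ← mul_pow]
        norm_num

end Sys

end CollatzOne
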