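import Pool.Agent.CollatzDens.Cross
import Pool.Agent.CollatzDens.Small

set_option autoImplicit false

/-!
Crossing a line: the assembly.
-/

namespace CollatzOne
namespace Sys

variable {A : Sys}

lemma blk_two_le (hl : 600 ≤ A.l) : 2 ≤ A.blk := by
  unfold blk
  calc 2 = 2 ^ 1 := by norm_num
    _ ≤ 2 ^ (A.l / 600) := Nat.pow_le_pow_right (by norm_num) (by omega)

lemma blk_pow_mul_le (hl : 600 ≤ A.l) : (99 / 100 : ℝ) ^ A.l * (A.blk : ℝ) ^ 6 ≤ 1 / 3 := by
  set t := A.l / 100 with ht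
  have ht6 : 6 ≤ t := by omega
  have h1 : 100 * t ≤ A.l := by omega
  have h2 : (99 / 100 : ℝ) ^ A.l ≤ (99 / 100) ^ (100 * t) :=
    pow_le_pow_of_le_one (by norm_num) (by norm_num) h1
  have h3 : (A.blk : ℝ) ^ 6 ≤ 2 ^ t := by
    have := blk_pow_le A
    exact_mod_cast this
  have h4 : (99 / 100 : ℝ) ^ 100 * 2 ≤ 4 / 5 := by norm_num
  calc (99 / 100 : ℝ) ^ A.l * (A.blk : ℝ) ^ 6 ≤ (99 / 100) ^ (100 * t) * 2 ^ t := by gcongr
    _ = ((99 / 100 : ℝ) ^ 100 * 2) ^ t := by rw [pow_mul, mul_pow]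
    _ ≤ (4 / 5) ^ t := pow_le_pow_left₀ (by positivity) h4 t
    _ ≤ (4 / 5) ^ 6 := pow_le_pow_of_le_one (by norm_num) (by norm_num) ht6
    _ ≤ 1 / 3 := by norm_num

lemma blk_eta_le (hl : 600 ≤ A.l) : (A.blk : ℝ) ^ 6 * ((1 / 2 : ℝ) ^ (100 * A.l) * (4 ^ A.l * 16 ^ A.l)) ≤ 1 / 1000 := by
  have h3 : (A.blk : ℝ) ^ 6 ≤ 2 ^ A.l := by
    have := blk_pow_le A
    have h4 : A.blk ^ 6 ≤ 2 ^ A.l := this.trans (Nat.pow_le_pow_right (by norm_num) (by omega))
    exact_mod_cast h4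
  calc (A.blk : ℝ) ^ 6 * ((1 / 2 : ℝ) ^ (100 * A.l) * (4 ^ A.l * 16 ^ A.l))
      ≤ 2 ^ A.l * ((1 / 2 : ℝ) ^ (100 * A.l) * (4 ^ A.l * 16 ^ A.l)) := by gcongr
    _ = ((2 : ℝ) * ((1 / 2) ^ 100 * (4 * 16))) ^ A.l := by
        rw [pow_mul, mul_pow, mul_pow, mul_pow]
    _ ≤ (1 / 2) ^ A.l := by
        gcongr
        norm_num
    _ ≤ (1 / 2) ^ 10 := pow_le_pow_of_le_one (by norm_num) (by norm_num) (by omega)
    _ ≤ 1 / 1000 := by norm_num

/-- (M9) for one system. -/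
theorem Str.cross_of (hA : A.Str) (hE : EqdFor A) (hψ : PsiOK)
    (hap : ∀ w v, A.valid w v → Ap v → Ap (A.child w v))
    (hcnt : ∀ X v, Ap v → ∑ w, (if A.valid w v then NX X (A.child w v) else 0) ≤ NX X v)
    {D g : ℕ} {X Y a₀ : ℝ} {Λ : (ℕ → ℤ → ℝ) → ℝ} (ha₀ : 0 < a₀)
    (hΛ : Lin (Reg D Y) Λ) (hD : 22 * A.l ≤ D) (hone : Λ (fun _ _ => 1) ≤ 16 ^ A.l * a₀)
    (hlow : ∀ n ≤ A.blk ^ 6, a₀ / 4 ≤ Λ (A.PP^[n] (fun _ _ => 1)))
    (hg1 : 11 * (D + 17 * A.blk * A.l) ≤ g) (hg2 : 16 * g ≤ A.l * A.blk ^ 6)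
    (hX : (6 * Y + 18) * 2 ^ (g + 11 * A.l + 1) ≤ X) :
    2 ^ (g + 11 * A.l + 1) * (a₀ / 64) ≤ Λ (fun J v => 2 ^ J / 3 ^ D * NX X v) := by
  have hl := hA.hl
  have hb2 := blk_two_le hl
  have hL := hA.lin_iter hap hD hΛ
  set ns := 17 * A.blk with hns
  set ne := A.blk ^ 6 with hne
  have hnsne : ns ≤ ne := by
    have h1 : 32 ≤ A.blk ^ 5 := by
      calc 32 = 2 ^ 5 := by norm_num
        _ ≤ A.blk ^ 5 := Nat.pow_le_pow_left hb2 5
    calc ns = 17 * A.blk := hns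
      _ ≤ A.blk ^ 5 * A.blk := by nlinarith
      _ = ne := by rw [hne]; ring
  set η : ℝ := (1 / 2 : ℝ) ^ (100 * A.l) * (4 ^ A.l * 16 ^ A.l) with hη
  have hη0 : 0 ≤ η := by positivity
  -- masses are bounded
  have hE0 : ∀ m ≤ ne, Λ (A.PP^[m] (fun _ _ => 1)) ≤ 4 ^ A.l * 16 ^ A.l * a₀ := by
    intro m hm
    have h1 : Λ (A.PP^[m] (fun _ _ => 1)) ≤ Λ (fun _ _ => 4 ^ A.l * 1) := by
      refine hΛ.mono _ _ fun J v _ => ?_
      rw [mul_one, A.PP_iter_const]
      exact hA.iter_one_le'' (by omega) v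
    rw [hΛ.smul] at h1
    refine h1.trans ?_
    rw [mul_assoc]
    exact mul_le_mul_of_nonneg_left hone (by positivity)
  -- equidistribution
  have hE1 : ∀ (n : ℕ) (f : ℕ → ℤ → ℝ), ns ≤ n → n ≤ ne → (∀ J, Per (A.q ^ 101) (f J)) →
      (∀ J v, 0 ≤ f J v) → (∀ J v, f J v ≤ 2 ^ (200 * A.l)) →
      |Λ (A.PP^[n] f) - Λ (A.PP^[n] (fun J _ => mean (A.q ^ 101) (f J)))| ≤ η * a₀ := by
    intro n f h1 h2 hf1 hf2 hf3
    have h3 := hΛ.abs_sub_le (f := A.PP^[n] f) (g := A.PP^[n] (fun J _ => mean (A.q ^ 101) (f J)))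
      (k := A.PP^[n - 17 * A.blk] (fun _ _ => 1)) (c := (1 / 2 : ℝ) ^ (100 * A.l))
      (fun J v _ => hE n f h1 hf1 hf2 hf3 J v)
    refine h3.trans ?_
    have h4 := hE0 (n - 17 * A.blk) (by omega)
    calc (1 / 2 : ℝ) ^ (100 * A.l) * Λ (A.PP^[n - 17 * A.blk] (fun _ _ => 1))
        ≤ (1 / 2 : ℝ) ^ (100 * A.l) * (4 ^ A.l * 16 ^ A.l * a₀) := by gcongr
      _ = η * a₀ := by rw [hη]; ring
  set s : ℕ → ℝ := fun n => Λ (A.PP^[n] (fun J _ => A.io D g n J)) with hs
  set c : ℕ → ℝ := fun n => Λ (A.PP^[n] (fun J _ => A.io D g n J * A.pc D g n J)) with hc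
  have hs0 : ∀ n, 0 ≤ s n := fun n => (hL n).nonneg fun J v _ => A.io_nonneg _ _ _ _
  have hc0 : ∀ n, 0 ≤ c n := fun n =>
    (hL n).nonneg fun J v _ => mul_nonneg (A.io_nonneg _ _ _ _) (A.pc_nonneg _ _ _ _)
  -- the mass equation
  have hE2 : ∀ n, ns ≤ n → n ≤ ne → |s (n + 1) - (A.Z * s n - c n)| ≤ η * a₀ := by
    intro n h1 h2
    have h3 := hE1 n (A.PP (fun J _ => A.io D g (n + 1) J)) h1 h2
      (A.PP_per 100 (fun J _ => A.io D g (n + 1) J) (fun _ _ => rfl))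
      (A.PP_nonneg_one (fun J _ => A.io_nonneg _ _ _ _)) (fun J v => by
        refine (A.PP_mono_one (g := fun _ _ => 1) (fun J _ => A.io_le_one _ _ _ _) J v).trans
          ((hA.PP_one_le J v).trans ?_)
        rw [show (4 : ℝ) = 2 ^ 2 by norm_num, ← pow_mul]
        exact pow_le_pow_right₀ (by norm_num) (by omega))
    have h4 : (fun (J : ℕ) (_ : ℤ) => mean (A.q ^ 101) (A.PP (fun J _ => A.io D g (n + 1) J) J)) =
        fun J _ => A.Z * A.io D g n J - A.io D g n J * A.pc D g n J := by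
      funext J v
      rw [A.mean_stay]
      ring
    rw [h4, ← Function.iterate_succ_apply] at h3
    have h5 : Λ (A.PP^[n] (fun J _ => A.Z * A.io D g n J - A.io D g n J * A.pc D g n J)) =
        A.Z * s n - c n := by
      have h6 := (hL n).sub (fun J _ => A.Z * A.io D g n J) (fun J _ => A.io D g n J * A.pc D g n J)
      have h7 := (hL n).smul A.Z (fun J _ => A.io D g n J)
      rw [h6, h7]
    rw [h5] at h3
    exact h3
  -- crossing masses
  have hE3 : ∀ n, ns ≤ n → n ≤ ne → 1 / 4 * c n - η * a₀ ≤ Λ (A.PP^[n] (A.Th D g n)) := by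
    intro n h1 h2
    have h3 := hE1 n (A.Th D g n) h1 h2 (Th_per hψ D g n) (Th_nonneg hψ D g n) (hA.Th_le hψ D g n)
    have h4 : 1 / 4 * c n ≤ Λ (A.PP^[n] (fun J _ => mean (A.q ^ 101) (A.Th D g n J))) := by
      have h5 := (hL n).smul (1 / 4) (fun J _ => A.io D g n J * A.pc D g n J)
      rw [← h5]
      exact (hL n).mono _ _ fun J v _ => hA.mean_Th hψ D g n J
    have h6 := (abs_le.1 h3).1
    linarith
  -- counting
  have hg59 : 59 * A.l ≤ g := by omega
  set U : ℕ → ℝ := fun n => Λ (A.PP^[n] (fun J v => A.io D g n J * A.VV D X n J v)) with hU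
  set G : ℝ := 2 ^ (g + 11 * A.l + 1) with hG
  have hG0 : 0 < G := by positivity
  have hE4 : ∀ n, U (n + 1) + G * Λ (A.PP^[n] (A.Th D g n)) ≤ U n := by
    intro n
    have h1 := (hL n).mono (fun J v => A.PP (fun J v => A.io D g (n + 1) J * A.VV D X (n + 1) J v) J v +
      G * A.Th D g n J v) (fun J v => A.io D g n J * A.VV D X n J v)
      (fun J v hJ => hA.count_step hψ hap hcnt hD hg59 hX hJ)
    have h2 := (hL n).add (A.PP (fun J v => A.io D g (n + 1) J * A.VV D X (n + 1) J v))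
      (fun J v => G * A.Th D g n J v)
    have h3 := (hL n).smul G (A.Th D g n)
    rw [h2, h3, ← Function.iterate_succ_apply] at h1
    exact h1
  have hE5 : ∀ n, Λ (A.PP^[n] (A.VV D X n)) ≤ Λ (fun J v => 2 ^ J / 3 ^ D * NX X v) := by
    intro n
    induction n with
    | zero =>
      refine le_of_eq ?_
      show Λ (A.VV D X 0) = _
      congr 1
    | succ n ih =>
      refine le_trans ?_ ih
      rw [Function.iterate_succ_apply]
      exact (hL n).mono _ _ fun J v hJ => PP_VV_le hcnt D X n J hJ.ap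
  have hUle : U ns ≤ Λ (fun J v => 2 ^ J / 3 ^ D * NX X v) := by
    refine le_trans ((hL ns).mono _ _ fun J v _ => ?_) (hE5 ns)
    have h1 := VV_nonneg (A := A) D X ns J v
    have h2 := A.io_le_one D g ns J
    nlinarith
  have hU0 : ∀ n, 0 ≤ U n := fun n => (hL n).nonneg fun J v _ =>
    mul_nonneg (A.io_nonneg _ _ _ _) (VV_nonneg _ _ _ _ _)
  have hsum : ∀ k, U (ns + k) + G * ∑ n ∈ Finset.range k, Λ (A.PP^[ns + n] (A.Th D g (ns + n))) ≤ U ns := by
    intro k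
    induction k with
    | zero => simp
    | succ k ih =>
      rw [Finset.sum_range_succ]
      have := hE4 (ns + k)
      rw [← add_assoc]
      linarith
  -- the start and the end
  have hstart : a₀ / 4 ≤ s ns := by
    refine (hlow ns hnsne).trans (le_of_eq ?_)
    refine (hL ns).congr' fun J v hJ => ?_
    have hJ1 := hJ.J_le
    have h1 : A.unc D g ns J := by
      unfold unc
      have h2 : J ≤ g := by
        refine hJ1.trans (le_trans (le_of_eq ?_) hg1)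
        rw [hns]; ring
      have h3 : 1 < 3 ^ (D + A.l * ns) := Nat.one_lt_pow (by omega) (by norm_num)
      calc 2 ^ J ≤ 2 ^ g := Nat.pow_le_pow_right (by norm_num) h2
        _ < 2 ^ g * 3 ^ (D + A.l * ns) := lt_mul_of_one_lt_right (by positivity) h3
    unfold io
    rw [if_pos h1]
  have hend : s ne = 0 := by
    have h1 : s ne = Λ (A.PP^[ne] (fun _ _ => 0 * 1)) := by
      refine (hL ne).congr' fun J v hJ => ?_
      have hJ1 := hJ.ht
      have h1 : ¬ A.unc D g ne J := by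
        unfold unc
        push Not
        set D' := D + A.l * ne with hD'
        have h2 : (2 ^ g * 3 ^ D') ^ 16 ≤ (2 ^ J) ^ 16 := by
          calc (2 ^ g * 3 ^ D') ^ 16 = 2 ^ (16 * g) * 3 ^ (16 * D') := by
                rw [mul_pow, ← pow_mul, ← pow_mul, mul_comm g, mul_comm D']
            _ ≤ 3 ^ D' * 3 ^ (16 * D') := by
                refine Nat.mul_le_mul_right _ ?_
                calc 2 ^ (16 * g) ≤ 2 ^ D' := Nat.pow_le_pow_right (by norm_num) (by omega)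
                  _ ≤ 3 ^ D' := Nat.pow_le_pow_left (by norm_num) _
            _ = 3 ^ (17 * D') := by rw [← pow_add]; congr 1; ring
            _ ≤ 2 ^ (16 * J) := hJ1
            _ = (2 ^ J) ^ 16 := by rw [← pow_mul, mul_comm]
        exact (Nat.pow_le_pow_iff_left (by norm_num)).1 h2
      unfold io
      rw [if_neg h1, zero_mul]
    rw [h1]
    have h2 := (hL ne).smul 0 (fun _ _ => 1)
    rw [h2, zero_mul]
  -- the masses do not grow
  have hgrow : ∀ k, ns + k ≤ ne → s (ns + k) ≤ s ns + k * (η * a₀) := by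
    intro k
    induction k with
    | zero => intro _; simp
    | succ k ih =>
      intro hk
      have h1 := ih (by omega)
      have h2 := (abs_le.1 (hE2 (ns + k) (by omega) (by omega))).2
      have h3 := hc0 (ns + k)
      have h4 := hs0 (ns + k)
      have h5 : A.Z * s (ns + k) ≤ s (ns + k) := mul_le_of_le_one_left h4 hA.Z_le
      rw [← add_assoc]
      push_cast
      linarith
  -- summation
  obtain ⟨K, hK⟩ : ∃ K, ne = ns + K := ⟨ne - ns, by omega⟩
  have hKne : (K : ℝ) ≤ (A.blk : ℝ) ^ 6 := by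
    have : K ≤ ne := by omega
    rw [hne] at this
    exact_mod_cast this
  have hηa : 0 ≤ η * a₀ := by positivity
  have hx0 : 0 ≤ (99 / 100 : ℝ) ^ A.l := by positivity
  have hcsum : s ns - (99 / 100 : ℝ) ^ A.l * (K * (s ns + K * (η * a₀))) - K * (η * a₀) ≤
      ∑ n ∈ Finset.range K, c (ns + n) := by
    have h1 : ∀ n ∈ Finset.range K, s (ns + n) - s (ns + n + 1) -
        (99 / 100 : ℝ) ^ A.l * (s ns + K * (η * a₀)) - η * a₀ ≤ c (ns + n) := by
      intro n hn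
      have hn' := Finset.mem_range.1 hn
      have h2 := (abs_le.1 (hE2 (ns + n) (by omega) (by omega))).1
      have h3 := hgrow n (by omega)
      have h4 : (n : ℝ) ≤ K := by exact_mod_cast hn'.le
      have h5 : s (ns + n) ≤ s ns + K * (η * a₀) := by
        have := mul_le_mul_of_nonneg_right h4 hηa
        linarith
      have h6 := hs0 (ns + n)
      have h7 := hA.Z_ge
      have h8 : (1 - A.Z) * s (ns + n) ≤ (99 / 100 : ℝ) ^ A.l * (s ns + K * (η * a₀)) :=
        mul_le_mul (by linarith) h5 h6 hx0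
      linarith
    refine le_trans (le_of_eq ?_) (Finset.sum_le_sum h1)
    have h9 : ∑ n ∈ Finset.range K, (s (ns + n) - s (ns + n + 1)) = s ns - s ne := by
      have := Finset.sum_range_sub' (fun n => s (ns + n)) K
      rw [hK]
      simpa [add_assoc] using this
    rw [Finset.sum_sub_distrib, Finset.sum_sub_distrib, h9, hend, Finset.sum_const, Finset.sum_const,
      Finset.card_range, nsmul_eq_mul, nsmul_eq_mul]
    ring
  have hThsum : 1 / 4 * ∑ n ∈ Finset.range K, c (ns + n) - K * (η * a₀) ≤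
      ∑ n ∈ Finset.range K, Λ (A.PP^[ns + n] (A.Th D g (ns + n))) := by
    have h1 := Finset.sum_le_sum fun n (hn : n ∈ Finset.range K) =>
      hE3 (ns + n) (by omega) (by have := Finset.mem_range.1 hn; omega)
    rw [Finset.sum_sub_distrib, ← Finset.mul_sum, Finset.sum_const, Finset.card_range, nsmul_eq_mul] at h1
    exact h1
  have hfin := hsum K
  have hU1 := hU0 (ns + K)
  have hxK : (99 / 100 : ℝ) ^ A.l * K ≤ 1 / 3 := by
    refine le_trans ?_ (blk_pow_mul_le hl)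
    gcongr
  have hηK : K * (η * a₀) ≤ a₀ / 1000 := by
    have h1 := blk_eta_le hl
    rw [← hη] at h1
    calc K * (η * a₀) ≤ (A.blk : ℝ) ^ 6 * (η * a₀) := by gcongr
      _ = ((A.blk : ℝ) ^ 6 * η) * a₀ := by ring
      _ ≤ 1 / 1000 * a₀ := by gcongr
      _ = a₀ / 1000 := by ring
  have hsns : 0 ≤ s ns + K * (η * a₀) := by
    have := hs0 ns
    positivity
  have h1 : (99 / 100 : ℝ) ^ A.l * (K * (s ns + K * (η * a₀))) ≤ 1 / 3 * (s ns + K * (η * a₀)) := by
    rw [← mul_assoc]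
    exact mul_le_mul_of_nonneg_right hxK hsns
  have h2 : a₀ / 64 ≤ ∑ n ∈ Finset.range K, Λ (A.PP^[ns + n] (A.Th D g (ns + n))) := by
    refine le_trans ?_ hThsum
    linarith
  calc G * (a₀ / 64) ≤ G * ∑ n ∈ Finset.range K, Λ (A.PP^[ns + n] (A.Th D g (ns + n))) :=
        mul_le_mul_of_nonneg_left h2 hG0.le
    _ ≤ U ns := by linarith
    _ ≤ _ := hUle

end Sys

/-- (M9) -/
theorem Tower.cross (W : Tower) (hE : EqdStmt) (hψ : PsiOK) : CrossStmt W := by
  obtain ⟨l₀, hE⟩ := hE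
  refine ⟨l₀, fun i hi D Y a₀ X Λ g ha₀ _ hΛ hD hone hlow hg1 hg2 hX => ?_⟩
  have hl : l₀ ≤ (W.sys i).l := by
    rw [W.l_eq]
    have h1 : i < 2 ^ i := Nat.lt_two_pow_self
    omega
  exact (W.str i).cross_of (hE (W.sys i) (W.str i) hl) hψ (W.aper i) (W.count i) ha₀ hΛ hD hone hlow
    hg1 hg2 hX

end CollatzOne
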