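import Pool.Agent.CollatzOne.Main

set_option autoImplicit false

/-!
Definitions for the positive density theorem.
-/

namespace CollatzOne

/-- Mean over a period. -/
noncomputable def mean (N : ℕ) (f : ℤ → ℝ) : ℝ := S N f / N

namespace Sys

/-- One-step operator on functions of the total exponent and the position (weight `q / 2 ^ J`). -/
noncomputable def PP (A : Sys) (g : ℕ → ℤ → ℝ) (J : ℕ) (v : ℤ) : ℝ :=
  ∑ w, if A.valid w v then (A.q : ℝ) / 2 ^ A.J w * g (J + A.J w) (A.child w v) else 0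

/-- Strong block systems. -/
structure Str (A : Sys) : Prop where
  hl : 600 ≤ A.l
  J_le : ∀ w, A.J w ≤ 11 * A.l
  b_le : ∀ w, |A.b w| ≤ 2 ^ A.l * 2 ^ A.J w
  ht : ∀ w, 3 ^ (17 * A.l) ≤ 2 ^ (16 * A.J w)
  Z_le : A.Z ≤ 1
  Z_ge : 1 - (99 / 100 : ℝ) ^ A.l ≤ A.Z

/-- The number of blocks used for mixing. -/
def blk (A : Sys) : ℕ := 2 ^ (A.l / 600)

end Sys

/-- The number of integers of absolute value at most `X` whose trajectory reaches `3 v - 1`. -/
noncomputable def NX (X : ℝ) (v : ℤ) : ℝ := ((CollatzExp.DD (3 * v - 1) X).card : ℝ)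

/-- `3 v - 1` is not periodic. -/
def Ap (v : ℤ) : Prop := CollatzExp.Aper (3 * v - 1)

/-- The tower of block systems, with block lengths `600 * 2 ^ i`. -/
structure Tower where
  sys : ℕ → Sys
  l_eq : ∀ i, (sys i).l = 600 * 2 ^ i
  str : ∀ i, (sys i).Str
  double : ∀ (i : ℕ) (f : ℕ → ℤ → ℝ), (∀ J v, 0 ≤ f J v) → ∀ J v,
    (sys i).PP ((sys i).PP f) J v ≤ (sys (i + 1)).PP f J v
  aper : ∀ (i : ℕ) (w : (sys i).ι) (v : ℤ), (sys i).valid w v → Ap v → Ap ((sys i).child w v)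
  count : ∀ (i : ℕ) (X : ℝ) (v : ℤ), Ap v →
    ∑ w, (if (sys i).valid w v then NX X ((sys i).child w v) else 0) ≤ NX X v

/-- The positions at letter depth `D`: heights are between `3 ^ (D / 16)` and `2 ^ (11 D) / 3 ^ D`,
and the size is at most `Y` times the height. -/
structure Reg (D : ℕ) (Y : ℝ) (J : ℕ) (v : ℤ) : Prop where
  ht : 3 ^ (17 * D) ≤ 2 ^ (16 * J)
  J_le : J ≤ 11 * D
  size : |(v : ℝ)| * 3 ^ D ≤ Y * 2 ^ J
  ap : Ap v

/-- Positive linear functionals supported on `R`. -/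
structure Lin (R : ℕ → ℤ → Prop) (Λ : (ℕ → ℤ → ℝ) → ℝ) : Prop where
  mono : ∀ f g : ℕ → ℤ → ℝ, (∀ J v, R J v → f J v ≤ g J v) → Λ f ≤ Λ g
  add : ∀ f g : ℕ → ℤ → ℝ, Λ (fun J v => f J v + g J v) = Λ f + Λ g
  smul : ∀ (c : ℝ) (f : ℕ → ℤ → ℝ), Λ (fun J v => c * f J v) = c * Λ f

/-- The first exponent that crosses the height `s`. -/
noncomputable def e0 (s : ℝ) : ℕ := sInf {e : ℕ | s ≤ 2 ^ e / 3}

/-- The renewal functions: mass of the first crossings of `s` within `M` single moves, counting only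
the crossings by the least possible exponent. -/
noncomputable def psi : ℕ → ℝ → ℤ → ℝ
  | 0, _, _ => 0
  | M + 1, s, v => ∑ e ∈ Finset.Ico 1 (e0 s),
      (if v1 e v then (3 : ℝ) / 2 ^ e * psi M (3 * s / 2 ^ e) (c1 e v) else 0) +
      if v1 (e0 s) v then (3 : ℝ) / 2 ^ e0 s else 0

end CollatzOne
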