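import Pool.Agent.CollatzDens.EquiCore
import Pool.Agent.CollatzDens.Small

set_option autoImplicit false

/-!
Equidistribution for blocks of length `blk`.
-/

namespace CollatzOne

/-- (EQ), the form used below -/
theorem Sys.Str.eqd : ∃ l₀ : ℕ, ∀ A : Sys, A.Str → l₀ ≤ A.l → ∀ (n : ℕ) (f : ℕ → ℤ → ℝ),
    17 * A.blk ≤ n → (∀ J, Per (A.q ^ 101) (f J)) → (∀ J v, 0 ≤ f J v) →
    (∀ J v, f J v ≤ 2 ^ (200 * A.l)) → ∀ (J : ℕ) (v : ℤ),
    |A.PP^[n] f J v - A.PP^[n] (fun J _ => mean (A.q ^ 101) (f J)) J v| ≤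
      (1 / 2 : ℝ) ^ (100 * A.l) * A.PP^[n - 17 * A.blk] (fun _ _ => 1) J v := by
  obtain ⟨l₀, h⟩ := Sys.tt_small 613
  refine ⟨l₀, fun A hA hl n f hn hper h0 h1 J v => ?_⟩
  have hb := hA.equi (n - 17 * A.blk) A.blk 101 f hper h0 h1 J v
  rw [Nat.sub_add_cancel hn] at hb
  refine hb.trans (mul_le_mul_of_nonneg_right ?_ (A.PP_nonneg (fun _ _ => zero_le_one) _ _ _))
  have h600 := hA.hl
  have hs : √(∑ k ∈ Finset.range 101, A.tt A.blk k) ≤ (1 / 2 : ℝ) ^ (306 * A.l) := by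
    rw [Real.sqrt_le_left (by positivity)]
    calc ∑ k ∈ Finset.range 101, A.tt A.blk k ≤ ∑ k ∈ Finset.range 101, (1 / 2 : ℝ) ^ (613 * A.l) :=
          Finset.sum_le_sum fun k hk => h A hA hl A.blk k le_rfl
            (by have := Finset.mem_range.1 hk; omega)
      _ = (101 * (1 / 2 : ℝ) ^ A.l) * (1 / 2 : ℝ) ^ (612 * A.l) := by
          rw [Finset.sum_const, Finset.card_range, nsmul_eq_mul, show 613 * A.l = A.l + 612 * A.l by ring,
            pow_add]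
          push_cast
          ring
      _ ≤ 1 * (1 / 2 : ℝ) ^ (612 * A.l) := by
          refine mul_le_mul_of_nonneg_right ?_ (by positivity)
          have : (1 / 2 : ℝ) ^ A.l ≤ (1 / 2 : ℝ) ^ 7 :=
            pow_le_pow_of_le_one (by norm_num) (by norm_num) (by omega)
          norm_num at this ⊢
          linarith
      _ = ((1 / 2 : ℝ) ^ (306 * A.l)) ^ 2 := by
          rw [one_mul, ← pow_mul]
          congr 1
          ring
  have h2 : (2 : ℝ) ≤ 2 ^ A.l := by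
    calc (2 : ℝ) = 2 ^ 1 := by norm_num
      _ ≤ 2 ^ A.l := pow_le_pow_right₀ (by norm_num) (by omega)
  have h8 : (256 : ℝ) ≤ 2 ^ A.l := by
    calc (256 : ℝ) = 2 ^ 8 := by norm_num
      _ ≤ 2 ^ A.l := pow_le_pow_right₀ (by norm_num) (by omega)
  have hll : (A.l : ℝ) ≤ 2 ^ A.l := by exact_mod_cast Nat.lt_two_pow_self.le
  have hblk : (A.blk : ℝ) ≤ 2 ^ A.l := by
    unfold blk
    push_cast
    exact pow_le_pow_right₀ (by norm_num) (Nat.div_le_self _ _)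
  set x : ℝ := 2 ^ A.l with hx
  have hx1 : 1 ≤ x := by linarith
  have hbl : (A.l : ℝ) * A.blk ≤ x * x := mul_le_mul hll hblk (by positivity) (by positivity)
  have h3 : 11 * (A.l : ℝ) * (16 * A.blk) + 1 ≤ x ^ 3 := by
    have : (1 : ℝ) ≤ x * x := by nlinarith
    nlinarith
  have h4 : 4 * x + 2 ≤ x ^ 2 := by nlinarith
  calc 2 * 2 ^ (200 * A.l) * (11 * (A.l : ℝ) * (16 * A.blk) + 1) * (4 * x + 2) *
        √(∑ k ∈ Finset.range 101, A.tt A.blk k)
      ≤ x * 2 ^ (200 * A.l) * x ^ 3 * x ^ 2 * (1 / 2 : ℝ) ^ (306 * A.l) := by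
        gcongr
    _ = (1 / 2 : ℝ) ^ (100 * A.l) := by
        have h5 : x * 2 ^ (200 * A.l) * x ^ 3 * x ^ 2 = 2 ^ (206 * A.l) := by
          rw [hx]
          ring
        rw [h5, show 306 * A.l = 206 * A.l + 100 * A.l by ring, pow_add, ← mul_assoc, ← mul_pow]
        norm_num

end CollatzOne
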