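import Pool.Agent.CollatzDens.Op

set_option autoImplicit false

/-!
Basic bounds for strong block systems.
-/

namespace CollatzOne

/-- The number of elements of a residue class in a short interval. -/
lemma card_class_le {V : Finset ℤ} {N Q H : ℕ} {K : ℤ} (hN : 1 ≤ N) (hK : 0 ≤ K)
    (x : ℤ) (hx : ∀ v ∈ V, (N : ℤ) ∣ v - x) (hd : ∀ v ∈ V, ∀ v' ∈ V, |v - v'| * Q ≤ K * H) :
    (V.card : ℝ) * (N * Q) ≤ K * H + N * Q := by
  rcases V.eq_empty_or_nonempty with rfl | hne
  · simp only [Finset.card_empty, Nat.cast_zero, zero_mul]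
    have : (0 : ℝ) ≤ K := by exact_mod_cast hK
    positivity
  set a := V.min' hne with ha
  set b := V.max' hne with hb
  have haV := V.min'_mem hne
  have hbV := V.max'_mem hne
  have hN' : (0 : ℤ) < N := by exact_mod_cast hN
  have hab : a ≤ b := V.min'_le b hbV
  -- injection into an interval
  have h1 : V.card ≤ ((b - a) / N + 1).toNat := by
    have h2 : V.card ≤ (Finset.Icc (0 : ℤ) ((b - a) / N)).card := by
      refine Finset.card_le_card_of_injOn (fun v => (v - a) / N) ?_ ?_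
      · intro v hv
        have hv1 : a ≤ v := V.min'_le v hv
        have hv2 : v ≤ b := V.le_max' v hv
        simp only [Finset.coe_Icc, Set.mem_Icc]
        exact ⟨Int.ediv_nonneg (by omega) hN'.le, Int.ediv_le_ediv hN' (by omega)⟩
      · intro v hv v' hv' hvv
        have e1 : (N : ℤ) ∣ v - a := by
          have := dvd_sub (hx v hv) (hx a haV)
          rwa [show v - x - (a - x) = v - a by ring] at this
        have e2 : (N : ℤ) ∣ v' - a := by
          have := dvd_sub (hx v' hv') (hx a haV)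
          rwa [show v' - x - (a - x) = v' - a by ring] at this
        have e3 := Int.mul_ediv_cancel' e1
        have e4 := Int.mul_ediv_cancel' e2
        dsimp only at hvv
        rw [hvv] at e3
        omega
    rwa [Int.card_Icc, sub_zero] at h2
  have h3 : (V.card : ℤ) * N ≤ (b - a) + N := by
    have h4 : (V.card : ℤ) ≤ (b - a) / N + 1 := by
      have h5 : 0 ≤ (b - a) / N := Int.ediv_nonneg (by omega) hN'.le
      omega
    have h6 : (b - a) / N * N ≤ b - a := Int.ediv_mul_le _ hN'.ne'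
    nlinarith
  have h4 : (b - a) * Q ≤ K * H := by
    have := hd b hbV a haV
    rwa [abs_of_nonneg (by omega)] at this
  have h5 : (V.card : ℤ) * (N * Q) ≤ K * H + N * Q := by
    have hQ : (0 : ℤ) ≤ Q := Int.natCast_nonneg Q
    nlinarith [mul_le_mul_of_nonneg_right h3 hQ]
  exact_mod_cast h5

namespace Sys
variable {A : Sys}

/-- The constant in the distance estimates. -/
def KS (A : Sys) : ℤ := 4 * 2 ^ A.l + 1

lemma KS_pos : 0 < A.KS := by unfold KS; positivity

lemma KS_real : (A.KS : ℝ) = 4 * 2 ^ A.l + 1 := by unfold KS; push_cast; ring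

/-- exponents of nodes -/
lemma Str.J_nodes (hA : A.Str) {y : ℤ} {n : ℕ} {p : ℕ × ℤ} (hp : p ∈ A.nodes y n) :
    p.1 ≤ 11 * A.l * n := by
  induction n generalizing p with
  | zero =>
    simp only [nodes, Finset.mem_singleton] at hp
    subst hp
    simp
  | succ n ih =>
    obtain ⟨r, hr, w, _, rfl⟩ := A.mem_nodes_succ.1 hp
    have h1 := ih hr
    have h2 := hA.J_le w
    dsimp only
    rw [Nat.mul_succ]
    omega

/-- heights of nodes -/
lemma Str.ht_nodes (hA : A.Str) {y : ℤ} {n : ℕ} {p : ℕ × ℤ} (hp : p ∈ A.nodes y n) :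
    A.q ^ (17 * n) ≤ 2 ^ (16 * p.1) := by
  induction n generalizing p with
  | zero =>
    simp only [nodes, Finset.mem_singleton] at hp
    subst hp
    simp
  | succ n ih =>
    obtain ⟨r, hr, w, _, rfl⟩ := A.mem_nodes_succ.1 hp
    have h1 := ih hr
    have h2 := hA.ht w
    have h3 : A.q ^ (17 * (n + 1)) = A.q ^ (17 * n) * 3 ^ (17 * A.l) := by
      rw [Nat.mul_succ, pow_add]
      congr 1
      unfold q
      rw [← pow_mul, mul_comm]
    rw [h3]
    dsimp only
    rw [Nat.mul_add, pow_add]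
    exact Nat.mul_le_mul h1 h2

/-- If `16 k ≤ n` then the heights are at least `q ^ k`. -/
lemma Str.ht_nodes' (hA : A.Str) {y : ℤ} {n k : ℕ} {p : ℕ × ℤ} (hp : p ∈ A.nodes y n)
    (hk : 16 * k ≤ n) : A.q ^ (n + k) ≤ 2 ^ p.1 := by
  have h1 := hA.ht_nodes hp
  have h2 : (A.q ^ (n + k)) ^ 16 ≤ (2 ^ p.1) ^ 16 := by
    rw [← pow_mul, ← pow_mul, mul_comm p.1]
    exact (Nat.pow_le_pow_right A.q_pos (by omega)).trans h1
  exact (Nat.pow_le_pow_iff_left (by norm_num)).1 h2

lemma Str.abs_bsum (hA : A.Str) (Ω : List A.ι) :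
    |bsum (3 ^ A.l) A.J A.b Ω| ≤ 2 * 2 ^ A.l * 2 ^ jsum A.J Ω := by
  induction Ω with
  | nil => simp [bsum, jsum]
  | cons w Ω ih =>
    have h1 := hA.b_le w
    have h2 : (2 : ℤ) * 3 ^ A.l ≤ 2 ^ A.J w := by exact_mod_cast A.two_le w
    have h3 : jsum A.J (w :: Ω) = A.J w + jsum A.J Ω := by simp [jsum]
    have h3' : (1 : ℤ) ≤ 3 ^ A.l := one_le_pow₀ (by norm_num)
    rw [bsum, h3, pow_add]
    set X := bsum (3 ^ A.l) A.J A.b Ω
    set P : ℤ := 2 ^ jsum A.J Ω
    have hP : 0 < P := by positivity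
    set B : ℤ := 2 ^ A.l
    have hB : 0 < B := by positivity
    calc |3 ^ A.l * X + P * A.b w| ≤ |3 ^ A.l * X| + |P * A.b w| := abs_add_le _ _
      _ = 3 ^ A.l * |X| + P * |A.b w| := by
          rw [abs_mul, abs_mul, abs_of_pos hP, abs_of_pos (by positivity : (0 : ℤ) < 3 ^ A.l)]
      _ ≤ 3 ^ A.l * (2 * B * P) + P * (B * 2 ^ A.J w) := by gcongr
      _ = (2 * 3 ^ A.l) * (B * P) + 2 ^ A.J w * (B * P) := by ring
      _ ≤ 2 ^ A.J w * (B * P) + 2 ^ A.J w * (B * P) := by gcongr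
      _ = 2 * B * (2 ^ A.J w * P) := by ring

lemma Str.lev_dist (hA : A.Str) {c : ℤ} {n J : ℕ} {v v' : ℤ} (hv : v ∈ A.lev c n J)
    (hv' : v' ∈ A.lev c n J) : |v - v'| * (A.q : ℤ) ^ n < A.KS * 2 ^ J := by
  obtain ⟨Ω, _, h2, h3⟩ := A.exists_word n _ (A.ent_mem_lev.1 hv)
  obtain ⟨Ω', _, h2', h3'⟩ := A.exists_word n _ (A.ent_mem_lev.1 hv')
  simp only at h2 h3 h2' h3'
  have hB := hA.abs_bsum Ω
  have hB' := hA.abs_bsum Ω'
  rw [h2, h3] at hB
  rw [h2', h3'] at hB'
  have hq : (0 : ℤ) < (A.q : ℤ) ^ n := pow_pos A.q_pos' n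
  have h4 : |v - v'| * (A.q : ℤ) ^ n = |(2 ^ J * c - (A.q : ℤ) ^ n * v') - (2 ^ J * c - (A.q : ℤ) ^ n * v)| := by
    rw [show (2 ^ J * c - (A.q : ℤ) ^ n * v') - (2 ^ J * c - (A.q : ℤ) ^ n * v) = (v - v') * (A.q : ℤ) ^ n by ring,
      abs_mul, abs_of_pos hq]
  rw [h4]
  have h5 := abs_sub (2 ^ J * c - (A.q : ℤ) ^ n * v') (2 ^ J * c - (A.q : ℤ) ^ n * v)
  have hP : (0 : ℤ) < 2 ^ J := by positivity
  unfold KS
  nlinarith

lemma Str.lev_distinct (hA : A.Str) {c : ℤ} {n J k : ℕ} (h : A.KS * 2 ^ J ≤ (A.q : ℤ) ^ (n + k)) :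
    ∀ v ∈ A.lev c n J, ∀ v' ∈ A.lev c n J, ((A.q ^ k : ℕ) : ℤ) ∣ v - v' → v = v' := by
  intro v hv v' hv' hd
  have h1 := hA.lev_dist hv hv'
  have hq : (0 : ℤ) < (A.q : ℤ) ^ n := pow_pos A.q_pos' n
  have h2 : |v - v'| < ((A.q ^ k : ℕ) : ℤ) := by
    push_cast
    have h3 : |v - v'| * (A.q : ℤ) ^ n < (A.q : ℤ) ^ k * (A.q : ℤ) ^ n := by
      refine lt_of_lt_of_le h1 (h.trans (le_of_eq ?_))
      ring
    exact lt_of_mul_lt_mul_right h3 hq.le
  have := Int.eq_zero_of_abs_lt_dvd hd h2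
  omega

lemma wt_one (n J : ℕ) : A.wt 1 n J = (A.q : ℝ) ^ n / 2 ^ J := by
  unfold wt
  rw [Real.rpow_one]

/-- (N3) nodes of a level in a residue class -/
lemma Str.lev_class (hA : A.Str) (y : ℤ) (n J N : ℕ) (hN : 1 ≤ N) (x : ℤ) :
    A.wt 1 n J * (((A.lev y n J).filter (fun v => (N : ℤ) ∣ v - x)).card : ℝ) ≤
      (4 * 2 ^ A.l + 1) / N + A.wt 1 n J := by
  have hq := A.q_posR
  have hN' : (0 : ℝ) < N := by exact_mod_cast hN
  have h1 := card_class_le (V := (A.lev y n J).filter (fun v => (N : ℤ) ∣ v - x)) (N := N)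
    (Q := A.q ^ n) (H := 2 ^ J) (K := A.KS) hN KS_pos.le x
    (fun v hv => (Finset.mem_filter.1 hv).2) (fun v hv v' hv' => by
      have := hA.lev_dist (Finset.mem_filter.1 hv).1 (Finset.mem_filter.1 hv').1
      push_cast
      exact this.le)
  rw [KS_real] at h1
  push_cast at h1
  rw [wt_one]
  set X : ℝ := (((A.lev y n J).filter (fun v => (N : ℤ) ∣ v - x)).card : ℝ)
  rw [div_mul_eq_mul_div, div_le_iff₀ (by positivity), add_mul, div_mul_cancel₀ _ (by positivity)]
  have h2 : (4 * 2 ^ A.l + 1) / (N : ℝ) * 2 ^ J = ((4 * 2 ^ A.l + 1) * 2 ^ J) / N := by ring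
  rw [h2, ← sub_le_iff_le_add, le_div_iff₀ hN']
  nlinarith

/-- Group the nodes of a strong system by their exponents. -/
lemma Str.sum_nodes_lev (hA : A.Str) (y : ℤ) (n : ℕ) (G : ℕ × ℤ → ℝ) :
    ∑ p ∈ A.nodes y n, G p = ∑ J ∈ Finset.range (11 * A.l * n + 1), ∑ v ∈ A.lev y n J, G (J, v) := by
  rw [← Finset.sum_fiberwise_of_maps_to (t := Finset.range (11 * A.l * n + 1)) (g := fun p : ℕ × ℤ => p.1)
    (fun p hp => by rw [Finset.mem_range]; exact Nat.lt_succ_of_le (hA.J_nodes hp))]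
  refine Finset.sum_congr rfl fun J _ => ?_
  unfold lev
  rw [Finset.sum_image]
  · refine Finset.sum_congr rfl fun p hp => ?_
    rw [Finset.mem_filter] at hp
    rw [← hp.2]
  · intro p hp r hr h
    simp only [Finset.coe_filter, Set.mem_ofPred_eq] at hp hr
    exact Prod.ext (hp.2.trans hr.2.symm) h

/-- levels beyond `11 l n` are empty -/
lemma Str.lev_empty (hA : A.Str) {y : ℤ} {n J : ℕ} (h : 11 * A.l * n < J) : A.lev y n J = ∅ := by
  rw [Finset.eq_empty_iff_forall_notMem]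
  intro v hv
  have := hA.J_nodes (A.ent_mem_lev.1 hv)
  dsimp only at this
  omega

lemma Str.wt_le_one (hA : A.Str) {y : ℤ} {n J : ℕ} {v : ℤ} (hv : v ∈ A.lev y n J) : A.wt 1 n J ≤ 1 := by
  rw [wt_one, div_le_one (by positivity)]
  have := hA.ht_nodes' (k := 0) (A.ent_mem_lev.1 hv) (by omega)
  rw [add_zero] at this
  exact_mod_cast this

/-- (N4) -/
lemma Str.iter_one_le (hA : A.Str) (n : ℕ) (y : ℤ) :
    (A.T 1)^[n] (fun _ => 1) y ≤ (11 * A.l * n + 1) * (4 * 2 ^ A.l + 2) := by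
  rw [iter_eq', hA.sum_nodes_lev]
  have h1 : ∀ J ∈ Finset.range (11 * A.l * n + 1), ∑ v ∈ A.lev y n J, A.wt 1 n (J, v).1 * 1 ≤
      4 * 2 ^ A.l + 2 := by
    intro J _
    rcases (A.lev y n J).eq_empty_or_nonempty with h | ⟨v, hv⟩
    · rw [h, Finset.sum_empty]
      positivity
    · have h2 := hA.lev_class y n J 1 le_rfl 0
      have h3 := hA.wt_le_one hv
      simp only [mul_one, Finset.sum_const, nsmul_eq_mul]
      have h4 : (A.lev y n J).filter (fun v => ((1 : ℕ) : ℤ) ∣ v - 0) = A.lev y n J := by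
        refine Finset.filter_true_of_mem fun v _ => ?_
        simp
      rw [h4] at h2
      rw [mul_comm]
      refine h2.trans ?_
      push_cast
      linarith
  refine (Finset.sum_le_sum h1).trans (le_of_eq ?_)
  rw [Finset.sum_const, Finset.card_range, nsmul_eq_mul]
  push_cast
  ring

lemma blk_pow_le (A : Sys) : A.blk ^ 6 ≤ 2 ^ (A.l / 100) := by
  unfold blk
  rw [← pow_mul]
  exact Nat.pow_le_pow_right (by norm_num) (by omega)

lemma Str.iter_one_le'' (hA : A.Str) {n : ℕ} (hn : n ≤ A.blk ^ 6 + 1) (y : ℤ) :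
    (A.T 1)^[n] (fun _ => 1) y ≤ 4 ^ A.l := by
  refine (hA.iter_one_le n y).trans ?_
  have hl := hA.hl
  have h1 := blk_pow_le A
  obtain ⟨t, ht⟩ : ∃ t, t = A.l / 100 := ⟨_, rfl⟩
  rw [← ht] at h1
  have ht6 : 6 ≤ t := by omega
  have hlt : A.l ≤ 100 * (t + 1) := by omega
  have hlt' : 100 * t ≤ A.l := by omega
  have h2 : n ≤ 2 ^ t + 1 := by omega
  have h3 : t + 1 ≤ 2 ^ t := Nat.lt_two_pow_self
  have h4 : 11 * A.l * n + 1 ≤ 2 ^ (2 * t + 12) := by
    calc 11 * A.l * n + 1 ≤ 11 * (100 * 2 ^ t) * (2 ^ t + 1) + 1 := by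
          gcongr
          omega
      _ ≤ 11 * (100 * 2 ^ t) * (2 * 2 ^ t) + 2 ^ t * 2 ^ t := by
          have : 1 ≤ 2 ^ t := Nat.one_le_two_pow
          gcongr
          · omega
          · nlinarith
      _ = 2201 * (2 ^ t * 2 ^ t) := by ring
      _ ≤ 4096 * (2 ^ t * 2 ^ t) := by gcongr; norm_num
      _ = 2 ^ (2 * t + 12) := by rw [pow_add, two_mul, pow_add]; norm_num; ring
  have h5 : 2 * t + 12 + 3 ≤ A.l := by omega
  have h6 : ((11 * A.l * n + 1 : ℕ) : ℝ) ≤ 2 ^ (2 * t + 12) := by exact_mod_cast h4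
  push_cast at h6
  have h7 : (4 * 2 ^ A.l + 2 : ℝ) ≤ 2 ^ 3 * 2 ^ A.l := by
    have : (1 : ℝ) ≤ 2 ^ A.l := one_le_pow₀ (by norm_num)
    linarith
  calc (11 * (A.l : ℝ) * n + 1) * (4 * 2 ^ A.l + 2) ≤ 2 ^ (2 * t + 12) * (2 ^ 3 * 2 ^ A.l) := by gcongr
    _ = 2 ^ (2 * t + 12 + 3) * 2 ^ A.l := by rw [pow_add]; ring
    _ ≤ 2 ^ A.l * 2 ^ A.l := by
        gcongr
        norm_num
    _ = 4 ^ A.l := by rw [← mul_pow]; norm_num

lemma Str.iter_one_le' : ∃ l₀ : ℕ, ∀ A : Sys, A.Str → l₀ ≤ A.l → ∀ n : ℕ, n ≤ A.blk ^ 6 + 1 → ∀ y : ℤ,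
    (A.T 1)^[n] (fun _ => 1) y ≤ 4 ^ A.l :=
  ⟨0, fun _ hA _ _ hn y => hA.iter_one_le'' hn y⟩

/-- (T2a) -/
theorem Str.sum_tt_le (hA : A.Str) {n k : ℕ} (hk : 16 * k ≤ n) :
    ∑ i ∈ Finset.range k, A.tt n i ≤ Real.log (A.q * (4 * 2 ^ A.l + 1)) + n * (-Real.log A.Z) +
      Real.log (11 * A.l * n + 1) + 1 := by
  classical
  have hq := A.q_posR
  have hq1 : (1 : ℝ) ≤ A.q := by exact_mod_cast A.q_pos
  have hZ := A.Z_pos
  set K : ℝ := 4 * 2 ^ A.l + 1 with hK
  have hK0 : 0 < K := by positivity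
  set L : ℝ := 11 * A.l * n + 1 with hL
  have hL1 : 1 ≤ L := by
    have : (0 : ℝ) ≤ 11 * A.l * n := by positivity
    linarith
  have hL0 : 0 < L := by linarith
  set R : ℝ := Real.log (A.q * K) + n * (-Real.log A.Z) + Real.log L with hR
  have key : ∀ c : ℤ, ∀ J ∈ Finset.range (A.Jmax n + 1),
      A.wt 1 n J / A.Z ^ n * (∑ i ∈ Finset.range k, DD (A.q ^ i) A.q (A.nu c n J (i + 1))) ≤
        A.mass c n J * R + (if J ∈ Finset.range (11 * A.l * n + 1) then 1 / L else 0) := by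
    intro c J _
    have hwz := A.wtZ_nonneg n J
    have hm := A.mass_nonneg c n J
    rcases (A.lev c n J).eq_empty_or_nonempty with h0 | ⟨v, hv⟩
    · have h1 := A.sum_DD_nu_le c n J k
      rw [h0, Finset.card_empty, Nat.cast_zero, zero_mul] at h1
      have h2 : A.mass c n J = 0 := by unfold mass; rw [h0]; simp
      rw [h2, zero_mul, zero_add]
      refine (mul_le_mul_of_nonneg_left h1 hwz).trans ?_
      rw [mul_zero]
      split_ifs
      · positivity
      · exact le_rfl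
    · have hnode := A.ent_mem_lev.1 hv
      have hJ : J ≤ 11 * A.l * n := hA.J_nodes hnode
      rw [if_pos (Finset.mem_range.2 (by omega))]
      -- the choice of the number of digits
      have hex : ∃ m : ℕ, A.KS * 2 ^ J ≤ (A.q : ℤ) ^ (n + m) := by
        have h3 : (1 : ℤ) < A.q := by
          have := A.three_le_q
          have h4 : (3 : ℤ) ≤ A.q := by exact_mod_cast this
          omega
        obtain ⟨m, hm⟩ := pow_unbounded_of_one_lt (A.KS * 2 ^ J) h3
        refine ⟨m, hm.le.trans ?_⟩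
        exact pow_le_pow_right₀ h3.le (by omega)
      set m := Nat.find hex with hmdef
      have hm1 : A.KS * 2 ^ J ≤ (A.q : ℤ) ^ (n + m) := Nat.find_spec hex
      have hht := hA.ht_nodes' hnode hk
      dsimp only at hht
      have hKS1 : 1 < A.KS := by
        unfold KS
        have : (0 : ℤ) < 2 ^ A.l := by positivity
        omega
      have hkm : k < m := by
        by_contra hcon
        push Not at hcon
        have h3 : (A.q : ℤ) ^ (n + m) ≤ (A.q : ℤ) ^ (n + k) :=
          pow_le_pow_right₀ (by have := A.q_pos'; omega) (by omega)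
        have h4 : (A.q : ℤ) ^ (n + k) ≤ 2 ^ J := by exact_mod_cast hht
        have h5 : (0 : ℤ) < 2 ^ J := by positivity
        nlinarith
      have hm2 : (A.q : ℝ) ^ (n + m) ≤ A.q * (K * 2 ^ J) := by
        obtain ⟨m', hm'⟩ : ∃ m', m = m' + 1 := ⟨m - 1, by omega⟩
        have h3 : ¬ A.KS * 2 ^ J ≤ (A.q : ℤ) ^ (n + m') := Nat.find_min hex (by omega)
        push Not at h3
        have h4 : (A.q : ℝ) ^ (n + m') < A.KS * 2 ^ J := by exact_mod_cast h3
        rw [KS_real] at h4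
        rw [hm', ← add_assoc, pow_succ, mul_comm]
        exact mul_le_mul_of_nonneg_left h4.le hq.le
      have h3 : ∑ i ∈ Finset.range k, DD (A.q ^ i) A.q (A.nu c n J (i + 1)) ≤
          ∑ i ∈ Finset.range m, DD (A.q ^ i) A.q (A.nu c n J (i + 1)) := by
        refine Finset.sum_le_sum_of_subset_of_nonneg (Finset.range_subset_range.2 hkm.le) fun i _ _ => ?_
        have := A.nu_per c n J (i + 1)
        rw [pow_succ] at this
        exact DD_nonneg A.q_pos this (A.nu_nonneg _ _ _ _)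
      rw [A.sum_DD_nu c n J m, A.HV_eq_zero (hA.lev_distinct hm1), HV_zero] at h3
      have hc : (0 : ℝ) < (A.lev c n J).card := by exact_mod_cast Finset.card_pos.2 ⟨v, hv⟩
      set M : ℝ := ((A.lev c n J).card : ℝ) with hM
      have hmass : A.mass c n J = A.wt 1 n J / A.Z ^ n * M := rfl
      have hlogm : Real.log (A.mass c n J) = n * Real.log A.q - J * Real.log 2 - n * Real.log A.Z +
          Real.log M := by
        rw [hmass, wt_one, Real.log_mul (by positivity) hc.ne', Real.log_div (by positivity) (by positivity),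
          Real.log_div (by positivity) (by positivity), Real.log_pow, Real.log_pow, Real.log_pow]
      have hlogq : (m : ℝ) * Real.log A.q ≤ Real.log (A.q * K) + J * Real.log 2 - n * Real.log A.q := by
        have h4 := Real.log_le_log (by positivity) hm2
        rw [Real.log_pow, ← mul_assoc, Real.log_mul (by positivity) (by positivity), Real.log_pow] at h4
        push_cast at h4
        linarith
      have h5 := ent_neg_mul_log_le hm hL0
      calc A.wt 1 n J / A.Z ^ n * (∑ i ∈ Finset.range k, DD (A.q ^ i) A.q (A.nu c n J (i + 1)))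
          ≤ A.wt 1 n J / A.Z ^ n * (m * (M * Real.log A.q) + 0 - M * Real.log M) :=
            mul_le_mul_of_nonneg_left h3 hwz
        _ = A.mass c n J * (m * Real.log A.q) - A.mass c n J * Real.log M := by rw [hmass]; ring
        _ ≤ A.mass c n J * (Real.log (A.q * K) + J * Real.log 2 - n * Real.log A.q) -
              A.mass c n J * Real.log M := by
            have := mul_le_mul_of_nonneg_left hlogq hm
            linarith
        _ = A.mass c n J * (Real.log (A.q * K) + n * (-Real.log A.Z)) +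
              -(A.mass c n J * Real.log (A.mass c n J)) := by rw [hlogm]; ring
        _ ≤ A.mass c n J * (Real.log (A.q * K) + n * (-Real.log A.Z)) +
              (A.mass c n J * Real.log L + 1 / L) := by linarith
        _ = A.mass c n J * R + 1 / L := by rw [hR]; ring
  have h1 : ∑ i ∈ Finset.range k, A.tt n i = S (A.q ^ n) (fun c => ∑ J ∈ Finset.range (A.Jmax n + 1),
      A.wt 1 n J / A.Z ^ n * (∑ i ∈ Finset.range k, DD (A.q ^ i) A.q (A.nu c n J (i + 1)))) / (A.q : ℝ) ^ n := by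
    unfold tt
    rw [← Finset.sum_div, ← S_sum]
    congr 1
    refine S_congr fun c => ?_
    rw [Finset.sum_comm]
    refine Finset.sum_congr rfl fun J _ => ?_
    rw [Finset.mul_sum]
  have h2 : S (A.q ^ n) (fun c => ∑ J ∈ Finset.range (A.Jmax n + 1), A.mass c n J * R) / (A.q : ℝ) ^ n = R := by
    have := A.EE_eq n (fun _ => R)
    rw [EE_one] at this
    exact this.symm
  have h3 : ∀ c : ℤ, ∑ J ∈ Finset.range (A.Jmax n + 1),
      A.wt 1 n J / A.Z ^ n * (∑ i ∈ Finset.range k, DD (A.q ^ i) A.q (A.nu c n J (i + 1))) ≤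
      ∑ J ∈ Finset.range (A.Jmax n + 1), A.mass c n J * R + 1 := by
    intro c
    refine (Finset.sum_le_sum (key c)).trans ?_
    rw [Finset.sum_add_distrib]
    have h4 : ∑ J ∈ Finset.range (A.Jmax n + 1), (if J ∈ Finset.range (11 * A.l * n + 1) then 1 / L else 0) ≤ 1 := by
      rw [← Finset.sum_filter, Finset.sum_const, nsmul_eq_mul]
      have h5 : ((Finset.range (A.Jmax n + 1)).filter (fun J => J ∈ Finset.range (11 * A.l * n + 1))).card ≤
          11 * A.l * n + 1 := by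
        refine (Finset.card_le_card (t := Finset.range (11 * A.l * n + 1)) fun J hJ => ?_).trans
          (Finset.card_range _).le
        exact (Finset.mem_filter.1 hJ).2
      have h6 : ((((Finset.range (A.Jmax n + 1)).filter (fun J => J ∈ Finset.range (11 * A.l * n + 1))).card : ℕ) : ℝ) ≤ L := by
        rw [hL]
        exact_mod_cast h5
      calc _ ≤ L * (1 / L) := by gcongr
        _ = 1 := by field_simp
    linarith
  rw [h1]
  have h4 : R + 1 = (S (A.q ^ n) (fun c => ∑ J ∈ Finset.range (A.Jmax n + 1), A.mass c n J * R + 1)) /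
      (A.q : ℝ) ^ n := by
    rw [S_add, add_div, h2, S_const]
    push_cast
    field_simp
  have h5 : Real.log (A.q * K) + n * (-Real.log A.Z) + Real.log L + 1 = R + 1 := by rw [hR]
  rw [h5, h4]
  exact div_le_div_of_nonneg_right (S_mono h3) (by positivity)

end Sys

end CollatzOne
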