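import Pool.Agent.CollatzDens.TT
import Pool.Agent.CollatzDens.Str

set_option autoImplicit false

/-!
Equidistribution of the nodes: periodic functions may be replaced by their means.
-/

namespace CollatzOne

lemma equi_pointwise {a β : ℝ} (ha : 0 ≤ a) (hβ : 0 < β) :
    a - β + (√a - √β) ^ 2 ≤ a * Real.log (a / β) := by
  rcases ha.eq_or_lt with h0 | h0
  · rw [← h0]
    simp [Real.sq_sqrt hβ.le]
  · set s := √a with hs
    set t := √β with ht
    have hs0 : 0 < s := Real.sqrt_pos.2 h0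
    have ht0 : 0 < t := Real.sqrt_pos.2 hβ
    have ha' : a = s ^ 2 := (Real.sq_sqrt ha).symm
    have hb' : β = t ^ 2 := (Real.sq_sqrt hβ.le).symm
    have h1 := Real.one_sub_inv_le_log_of_pos (div_pos hs0 ht0)
    have h2 : Real.log (a / β) = 2 * Real.log (s / t) := by
      rw [ha', hb', ← div_pow, Real.log_pow]
      norm_num
    rw [h2]
    have h3 : (s / t)⁻¹ = t / s := by rw [inv_div]
    rw [h3] at h1
    have h4 : s ^ 2 * (2 * (1 - t / s)) ≤ s ^ 2 * (2 * Real.log (s / t)) := by gcongr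
    have h5 : s ^ 2 * (2 * (1 - t / s)) = 2 * s ^ 2 - 2 * s * t := by field_simp
    rw [ha', hb']
    nlinarith

/-- A Pinsker type inequality. -/
lemma equi_pinsker {N : ℕ} {a : ℤ → ℝ} (ha : ∀ x, 0 ≤ a x) {β : ℝ} (hβ : 0 < β)
    (hS : S N a = N * β) :
    S N (fun x => |a x - β|) ≤ 2 * √(N * β * S N (fun x => a x * Real.log (a x / β))) := by
  have hE : S N (fun x => (√(a x) - √β) ^ 2) ≤ S N (fun x => a x * Real.log (a x / β)) := by
    have h1 : S N (fun x => (a x - β) + (√(a x) - √β) ^ 2) ≤ S N (fun x => a x * Real.log (a x / β)) :=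
      S_mono fun x => equi_pointwise (ha x) hβ
    rw [S_add, S_sub, S_const, hS] at h1
    linarith
  have hE4 : S N (fun x => (√(a x) + √β) ^ 2) ≤ 4 * (N * β) := by
    have h1 : S N (fun x => (√(a x) + √β) ^ 2) ≤ S N (fun x => 2 * (a x + β)) := by
      refine S_mono fun x => ?_
      have h2 := Real.sq_sqrt (ha x)
      have h3 := Real.sq_sqrt hβ.le
      nlinarith [sq_nonneg (√(a x) - √β)]
    rw [S_mul_left, S_add, S_const, hS] at h1
    linarith
  have h1 : S N (fun x => |a x - β|) = ∑ x ∈ Finset.range N, |√(a (x : ℤ)) - √β| * (√(a (x : ℤ)) + √β) := by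
    unfold S
    refine Finset.sum_congr rfl fun x _ => ?_
    have h2 := Real.sq_sqrt (ha (x : ℤ))
    have h3 := Real.sq_sqrt hβ.le
    have h4 : 0 ≤ √(a (x : ℤ)) + √β := by positivity
    have h5 : a (x : ℤ) - β = (√(a (x : ℤ)) - √β) * (√(a (x : ℤ)) + √β) := by nlinarith
    calc |a (x : ℤ) - β| = |(√(a (x : ℤ)) - √β) * (√(a (x : ℤ)) + √β)| := by rw [← h5]
      _ = |√(a (x : ℤ)) - √β| * (√(a (x : ℤ)) + √β) := by rw [abs_mul, abs_of_nonneg h4]
  rw [h1]
  refine (Real.sum_mul_le_sqrt_mul_sqrt _ _ _).trans ?_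
  have h5 : √(∑ x ∈ Finset.range N, |√(a (x : ℤ)) - √β| ^ 2) ≤ √(S N (fun x => a x * Real.log (a x / β))) := by
    apply Real.sqrt_le_sqrt
    refine le_trans (le_of_eq ?_) hE
    unfold S
    refine Finset.sum_congr rfl fun x _ => ?_
    rw [sq_abs]
  have h6 : √(∑ x ∈ Finset.range N, (√(a (x : ℤ)) + √β) ^ 2) ≤ 2 * √(N * β) := by
    rw [show (2 : ℝ) = √4 by
      rw [show (4 : ℝ) = 2 ^ 2 by norm_num]; rw [Real.sqrt_sq (by norm_num)], ← Real.sqrt_mul (by norm_num)]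
    exact Real.sqrt_le_sqrt hE4
  calc _ ≤ √(S N (fun x => a x * Real.log (a x / β))) * (2 * √(N * β)) :=
        mul_le_mul h5 h6 (Real.sqrt_nonneg _) (Real.sqrt_nonneg _)
    _ = 2 * √(N * β * S N (fun x => a x * Real.log (a x / β))) := by
        rw [Real.sqrt_mul (show 0 ≤ (N : ℝ) * β by positivity) (S N (fun x => a x * Real.log (a x / β)))]
        ring

namespace Sys
variable (A : Sys)

/-- The total digit deficit of a level. -/
noncomputable def eqE (m n : ℕ) (c : ℤ) (J : ℕ) : ℝ :=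
  ∑ k ∈ Finset.range m, DD (A.q ^ k) A.q (A.nu c n J (k + 1))

lemma eqE_nonneg (m n : ℕ) (c : ℤ) (J : ℕ) : 0 ≤ A.eqE m n c J :=
  Finset.sum_nonneg fun _ _ => A.DD_nu_nonneg _ _ _ _

lemma eqE_eq (m n : ℕ) (c : ℤ) (J : ℕ) (hV : 0 < ((A.lev c n J).card : ℝ)) :
    A.eqE m n c J = S (A.q ^ m) (fun x => A.nu c n J m x *
      Real.log (A.nu c n J m x / ((A.lev c n J).card / (A.q : ℝ) ^ m))) := by
  have hq := A.q_posR
  set V : ℝ := ((A.lev c n J).card : ℝ) with hVdef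
  have h1 : ∀ x, A.nu c n J m x * Real.log (A.nu c n J m x / (V / (A.q : ℝ) ^ m)) =
      A.nu c n J m x * Real.log (A.nu c n J m x) - A.nu c n J m x * (Real.log V - m * Real.log A.q) := by
    intro x
    rcases (A.nu_nonneg c n J m x).eq_or_lt with h0 | h0
    · rw [← h0]; simp
    · rw [Real.log_div h0.ne' (by positivity), Real.log_div hV.ne' (by positivity), Real.log_pow]
      ring
  unfold eqE
  rw [S_congr h1, S_sub, S_mul_right, S_nu, sum_DD_nu, HV_zero, ← hVdef]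
  unfold HV
  ring

/-- Local equidistribution on a level. -/
lemma equi_local (c : ℤ) (n J m : ℕ) {φ : ℤ → ℝ} {Φ : ℝ} (hper : Per (A.q ^ m) φ)
    (h0 : ∀ v, 0 ≤ φ v) (h1 : ∀ v, φ v ≤ Φ) :
    |∑ v ∈ A.lev c n J, φ v - (A.lev c n J).card * mean (A.q ^ m) φ| ≤
      2 * Φ * √((A.lev c n J).card * A.eqE m n c J) := by
  have hq := A.q_posR
  have hΦ : 0 ≤ Φ := (h0 0).trans (h1 0)
  rcases Finset.eq_empty_or_nonempty (A.lev c n J) with he | hne
  · rw [he]
    simp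
  have hV : 0 < ((A.lev c n J).card : ℝ) := by exact_mod_cast hne.card_pos
  have hE := A.eqE_eq m n c J hV
  set V : ℝ := ((A.lev c n J).card : ℝ) with hVdef
  set β : ℝ := V / (A.q : ℝ) ^ m with hβdef
  have hβ : 0 < β := by positivity
  have hNβ : ((A.q ^ m : ℕ) : ℝ) * β = V := by
    rw [hβdef]
    push_cast
    field_simp
  have h2 : ∑ v ∈ A.lev c n J, φ v = S (A.q ^ m) (fun x => A.nu c n J m x * φ x) := by
    have := A.corr_nu c n J m hper 0
    unfold corr at this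
    simp only [add_zero] at this
    exact this.symm
  have h3 : V * mean (A.q ^ m) φ = S (A.q ^ m) (fun x => β * φ x) := by
    unfold mean
    rw [S_mul_left, hβdef]
    push_cast
    field_simp
  have h4 : ∑ v ∈ A.lev c n J, φ v - V * mean (A.q ^ m) φ =
      S (A.q ^ m) (fun x => (A.nu c n J m x - β) * φ x) := by
    rw [h2, h3, ← S_sub]
    exact S_congr fun x => by ring
  rw [h4]
  have h5 : |S (A.q ^ m) (fun x => (A.nu c n J m x - β) * φ x)| ≤
      S (A.q ^ m) (fun x => |A.nu c n J m x - β|) * Φ := by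
    rw [← S_mul_right]
    unfold S
    refine (Finset.abs_sum_le_sum_abs _ _).trans (Finset.sum_le_sum fun x _ => ?_)
    rw [abs_mul, abs_of_nonneg (h0 _)]
    exact mul_le_mul_of_nonneg_left (h1 _) (abs_nonneg _)
  have h6 := equi_pinsker (N := A.q ^ m) (A.nu_nonneg c n J m) hβ (by rw [S_nu, hNβ])
  rw [hNβ, ← hE] at h6
  calc _ ≤ _ := h5
    _ ≤ (2 * √(V * A.eqE m n c J)) * Φ := mul_le_mul_of_nonneg_right h6 hΦ
    _ = _ := by ring

/-- The error function of the last steps. -/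
noncomputable def eqD (m n : ℕ) (c : ℤ) : ℝ :=
  ∑ J ∈ Finset.range (A.Jmax n + 1), A.wt 1 n J * √((A.lev c n J).card * A.eqE m n c J)

lemma eqD_nonneg (m n : ℕ) (c : ℤ) : 0 ≤ A.eqD m n c :=
  Finset.sum_nonneg fun _ _ => mul_nonneg (A.wt_pos _ _ _).le (Real.sqrt_nonneg _)

lemma PP_sub_mean (m n : ℕ) (f : ℕ → ℤ → ℝ) {Φ : ℝ}
    (hper : ∀ J, Per (A.q ^ m) (f J)) (h0 : ∀ J v, 0 ≤ f J v) (h1 : ∀ J v, f J v ≤ Φ) (J : ℕ) (v : ℤ) :
    |A.PP^[n] f J v - A.PP^[n] (fun J _ => mean (A.q ^ m) (f J)) J v| ≤ 2 * Φ * A.eqD m n v := by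
  rw [PP_iter, PP_iter, sum_nodes_lev, sum_nodes_lev, ← Finset.sum_sub_distrib]
  unfold eqD
  rw [Finset.mul_sum]
  refine (Finset.abs_sum_le_sum_abs _ _).trans (Finset.sum_le_sum fun J₂ _ => ?_)
  dsimp only
  rw [← Finset.mul_sum, Finset.sum_const, nsmul_eq_mul]
  have h2 := A.equi_local v n J₂ m (hper (J + J₂)) (h0 _) (h1 _)
  have h3 := A.wt_pos 1 n J₂
  rw [show A.wt 1 n J₂ * ∑ i ∈ A.lev v n J₂, f (J + J₂) i -
      ((A.lev v n J₂).card : ℝ) * (A.wt 1 n J₂ * mean (A.q ^ m) (f (J + J₂))) =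
      A.wt 1 n J₂ * (∑ i ∈ A.lev v n J₂, f (J + J₂) i -
      ((A.lev v n J₂).card : ℝ) * mean (A.q ^ m) (f (J + J₂))) by ring, abs_mul, abs_of_pos h3]
  calc _ ≤ A.wt 1 n J₂ * (2 * Φ * √((A.lev v n J₂).card * A.eqE m n v J₂)) :=
        mul_le_mul_of_nonneg_left h2 h3.le
    _ = _ := by ring

lemma card_lev_shift (c : ℤ) (n J : ℕ) (U : ℤ) :
    (A.lev (c + (A.q : ℤ) ^ n * U) n J).card = (A.lev c n J).card := by
  have h := A.nu_shift c n J 0 U 0
  unfold nu at h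
  simp only [pow_zero, Nat.cast_one, one_dvd, Finset.filter_true] at h
  exact_mod_cast h

lemma eqD_per (m n : ℕ) : Per (A.q ^ n) (A.eqD m n) := by
  intro c
  unfold eqD
  refine Finset.sum_congr rfl fun J _ => ?_
  have h1 := A.card_lev_shift c n J 1
  have h2 : A.eqE m n (c + (A.q : ℤ) ^ n * 1) J = A.eqE m n c J := by
    unfold eqE
    exact Finset.sum_congr rfl fun k _ => A.DD_nu_shift c n J k 1
  push_cast
  rw [mul_one] at h1 h2
  rw [h1, h2]

lemma S_card (n : ℕ) : S (A.q ^ n) (fun c => ∑ J ∈ Finset.range (A.Jmax n + 1),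
    A.wt 1 n J * (A.lev c n J).card) = (A.q * A.Z) ^ n := by
  rw [← S_iter_one]
  refine S_congr fun c => ?_
  rw [iter_eq', sum_nodes_lev]
  refine Finset.sum_congr rfl fun J _ => ?_
  dsimp only
  rw [Finset.sum_const, nsmul_eq_mul]
  ring

lemma S_eqE (m n : ℕ) : S (A.q ^ n) (fun c => ∑ J ∈ Finset.range (A.Jmax n + 1),
    A.wt 1 n J * A.eqE m n c J) = (A.q * A.Z) ^ n * ∑ k ∈ Finset.range m, A.tt n k := by
  have hq := A.q_posR
  have hZ := A.Z_pos
  have h1 : ∀ c : ℤ, ∑ J ∈ Finset.range (A.Jmax n + 1), A.wt 1 n J * A.eqE m n c J =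
      A.Z ^ n * ∑ k ∈ Finset.range m, A.GG n k c := by
    intro c
    unfold eqE GG
    rw [Finset.sum_comm, Finset.mul_sum]
    refine Finset.sum_congr rfl fun J _ => ?_
    rw [Finset.mul_sum, Finset.mul_sum]
    refine Finset.sum_congr rfl fun k _ => ?_
    field_simp
  rw [S_congr h1, S_mul_left, S_sum, Finset.mul_sum, Finset.mul_sum]
  refine Finset.sum_congr rfl fun k _ => ?_
  rw [tt_eq, mul_pow]
  field_simp

/-- The mean of the error function. -/
lemma mean_eqD (hZ1 : A.Z ≤ 1) (m n : ℕ) :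
    mean (A.q ^ n) (A.eqD m n) ≤ √(∑ k ∈ Finset.range m, A.tt n k) := by
  have hq := A.q_posR
  have hZ := A.Z_pos
  have hq' : (0 : ℝ) < ((A.q ^ n : ℕ) : ℝ) := by push_cast; positivity
  unfold mean
  rw [div_le_iff₀ hq']
  have h1 : S (A.q ^ n) (A.eqD m n) = ∑ x ∈ Finset.range (A.q ^ n) ×ˢ Finset.range (A.Jmax n + 1),
      √(A.wt 1 n x.2 * (A.lev (x.1 : ℤ) n x.2).card) * √(A.wt 1 n x.2 * A.eqE m n (x.1 : ℤ) x.2) := by
    rw [Finset.sum_product]
    unfold S eqD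
    refine Finset.sum_congr rfl fun c _ => Finset.sum_congr rfl fun J _ => ?_
    dsimp only
    have h3 := A.wt_pos 1 n J
    have h4 : √(A.wt 1 n J ^ 2 * (((A.lev (c : ℤ) n J).card : ℝ) * A.eqE m n (c : ℤ) J)) =
        A.wt 1 n J * √(((A.lev (c : ℤ) n J).card : ℝ) * A.eqE m n (c : ℤ) J) := by
      rw [Real.sqrt_mul (sq_nonneg _), Real.sqrt_sq h3.le]
    rw [← Real.sqrt_mul (by positivity), ← h4]
    congr 1
    ring
  rw [h1]
  refine (Real.sum_mul_le_sqrt_mul_sqrt _ _ _).trans ?_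
  have h2 : ∑ x ∈ Finset.range (A.q ^ n) ×ˢ Finset.range (A.Jmax n + 1),
      √(A.wt 1 n x.2 * (A.lev (x.1 : ℤ) n x.2).card) ^ 2 = (A.q * A.Z) ^ n := by
    rw [← A.S_card n, Finset.sum_product]
    unfold S
    refine Finset.sum_congr rfl fun c _ => Finset.sum_congr rfl fun J _ => ?_
    dsimp only
    have h3 := A.wt_pos 1 n J
    rw [Real.sq_sqrt (by positivity)]
  have h4 : ∑ x ∈ Finset.range (A.q ^ n) ×ˢ Finset.range (A.Jmax n + 1),
      √(A.wt 1 n x.2 * A.eqE m n (x.1 : ℤ) x.2) ^ 2 = (A.q * A.Z) ^ n * ∑ k ∈ Finset.range m, A.tt n k := by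
    rw [← A.S_eqE m n, Finset.sum_product]
    unfold S
    refine Finset.sum_congr rfl fun c _ => Finset.sum_congr rfl fun J _ => ?_
    dsimp only
    have h3 := A.wt_pos 1 n J
    have h5 := A.eqE_nonneg m n (c : ℤ) J
    rw [Real.sq_sqrt (by positivity)]
  rw [h2, h4, Real.sqrt_mul (by positivity), ← mul_assoc, Real.mul_self_sqrt (by positivity), mul_comm]
  refine mul_le_mul_of_nonneg_left ?_ (Real.sqrt_nonneg _)
  push_cast
  rw [mul_pow]
  have h6 : A.Z ^ n ≤ 1 := pow_le_one₀ hZ.le hZ1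
  calc (A.q : ℝ) ^ n * A.Z ^ n ≤ (A.q : ℝ) ^ n * 1 := by gcongr
    _ = _ := mul_one _

variable {A}

/-- The middle steps. -/
lemma Str.equi_mid (hA : A.Str) (n : ℕ) {Δ : ℤ → ℝ} (hper : Per (A.q ^ n) Δ) (h0 : ∀ v, 0 ≤ Δ v)
    (v : ℤ) : ∑ p ∈ A.nodes v (16 * n), A.wt 1 (16 * n) p.1 * Δ p.2 ≤
      (11 * A.l * (16 * n) + 1) * (4 * 2 ^ A.l + 2) * mean (A.q ^ n) Δ := by
  have hq := A.q_posR
  have hqn : 1 ≤ A.q ^ n := Nat.one_le_pow _ _ A.q_pos
  have hqn' : (0 : ℝ) < (A.q : ℝ) ^ n := by positivity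
  have hmean : 0 ≤ mean (A.q ^ n) Δ := mean_nonneg h0
  rw [hA.sum_nodes_lev]
  have hterm : ∀ J ∈ Finset.range (11 * A.l * (16 * n) + 1),
      ∑ u ∈ A.lev v (16 * n) J, A.wt 1 (16 * n) J * Δ u ≤ (4 * 2 ^ A.l + 2) * mean (A.q ^ n) Δ := by
    intro J _
    rcases Finset.eq_empty_or_nonempty (A.lev v (16 * n) J) with he | ⟨u₀, hu₀⟩
    · rw [he, Finset.sum_empty]
      positivity
    · have hmem := A.ent_mem_lev.1 hu₀
      have hht := hA.ht_nodes hmem
      dsimp only at hht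
      -- the weight is small
      have hw : A.wt 1 (16 * n) J ≤ 1 / (A.q : ℝ) ^ n := by
        unfold wt
        rw [Real.rpow_one, div_le_div_iff₀ (by positivity) hqn', one_mul, ← pow_add]
        have h2 : ((A.q : ℝ) ^ (17 * n)) ^ 16 ≤ (2 ^ J) ^ 16 := by
          have h3 : (A.q : ℝ) ^ (17 * (16 * n)) ≤ 2 ^ (16 * J) := by exact_mod_cast hht
          rw [← pow_mul, ← pow_mul]
          rw [show 17 * n * 16 = 17 * (16 * n) by ring, mul_comm J 16]
          exact h3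
        have h4 := le_of_pow_le_pow_left₀ (by norm_num) (by positivity) h2
        rw [show 16 * n + n = 17 * n by ring]
        exact h4
      rw [← Finset.mul_sum]
      have h2 : ∑ u ∈ A.lev v (16 * n) J, Δ u = S (A.q ^ n) (fun x => A.nu v (16 * n) J n x * Δ x) := by
        have := A.corr_nu v (16 * n) J n hper 0
        unfold corr at this
        simp only [add_zero] at this
        exact this.symm
      rw [h2, ← S_mul_left]
      have h3 : ∀ x, A.wt 1 (16 * n) J * (A.nu v (16 * n) J n x * Δ x) ≤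
          (4 * 2 ^ A.l + 2) / ((A.q ^ n : ℕ) : ℝ) * Δ x := by
        intro x
        have h4 := hA.lev_class v (16 * n) J (A.q ^ n) hqn x
        rw [← mul_assoc]
        refine mul_le_mul_of_nonneg_right ?_ (h0 x)
        unfold nu
        refine h4.trans ?_
        push_cast
        calc (4 * 2 ^ A.l + 1) / (A.q : ℝ) ^ n + A.wt 1 (16 * n) J
            ≤ (4 * 2 ^ A.l + 1) / (A.q : ℝ) ^ n + 1 / (A.q : ℝ) ^ n := by linarith
          _ = (4 * 2 ^ A.l + 2) / (A.q : ℝ) ^ n := by ring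
      refine (S_mono h3).trans (le_of_eq ?_)
      rw [S_mul_left]
      unfold mean
      ring
  refine (Finset.sum_le_sum hterm).trans (le_of_eq ?_)
  rw [Finset.sum_const, Finset.card_range, nsmul_eq_mul]
  push_cast
  ring

/-- (EQ), general form -/
theorem Str.equi (hA : A.Str) (n₀ m₁ m : ℕ) (f : ℕ → ℤ → ℝ) {Φ : ℝ}
    (hper : ∀ J, Per (A.q ^ m) (f J)) (h0 : ∀ J v, 0 ≤ f J v) (h1 : ∀ J v, f J v ≤ Φ) (J : ℕ) (v : ℤ) :
    |A.PP^[n₀ + 17 * m₁] f J v - A.PP^[n₀ + 17 * m₁] (fun J _ => mean (A.q ^ m) (f J)) J v| ≤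
      2 * Φ * (11 * A.l * (16 * m₁) + 1) * (4 * 2 ^ A.l + 2) *
        √(∑ k ∈ Finset.range m, A.tt m₁ k) * A.PP^[n₀] (fun _ _ => 1) J v := by
  have hΦ : 0 ≤ Φ := (h0 0 0).trans (h1 0 0)
  set C : ℝ := 2 * Φ * (11 * A.l * (16 * m₁) + 1) * (4 * 2 ^ A.l + 2) *
        √(∑ k ∈ Finset.range m, A.tt m₁ k) with hC
  set g : ℕ → ℤ → ℝ := fun J _ => mean (A.q ^ m) (f J) with hg
  have hsplit : ∀ h : ℕ → ℤ → ℝ, A.PP^[n₀ + 17 * m₁] h = A.PP^[n₀] (A.PP^[16 * m₁] (A.PP^[m₁] h)) := by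
    intro h
    rw [show n₀ + 17 * m₁ = n₀ + (16 * m₁ + m₁) by ring, Function.iterate_add_apply,
      Function.iterate_add_apply]
  rw [hsplit, hsplit]
  -- pointwise bound after the last and middle steps
  have h2 : ∀ J v, |A.PP^[16 * m₁] (A.PP^[m₁] f) J v - A.PP^[16 * m₁] (A.PP^[m₁] g) J v| ≤ C := by
    intro J v
    rw [PP_iter, PP_iter, ← Finset.sum_sub_distrib]
    calc |∑ p ∈ A.nodes v (16 * m₁), (A.wt 1 (16 * m₁) p.1 * A.PP^[m₁] f (J + p.1) p.2 -
          A.wt 1 (16 * m₁) p.1 * A.PP^[m₁] g (J + p.1) p.2)|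
        ≤ ∑ p ∈ A.nodes v (16 * m₁), A.wt 1 (16 * m₁) p.1 * (2 * Φ * A.eqD m m₁ p.2) := by
          refine (Finset.abs_sum_le_sum_abs _ _).trans (Finset.sum_le_sum fun p _ => ?_)
          rw [← mul_sub, abs_mul, abs_of_pos (A.wt_pos _ _ _)]
          exact mul_le_mul_of_nonneg_left (A.PP_sub_mean m m₁ f hper h0 h1 _ _) (A.wt_pos _ _ _).le
      _ = 2 * Φ * ∑ p ∈ A.nodes v (16 * m₁), A.wt 1 (16 * m₁) p.1 * A.eqD m m₁ p.2 := by
          rw [Finset.mul_sum]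
          exact Finset.sum_congr rfl fun p _ => by ring
      _ ≤ 2 * Φ * ((11 * A.l * (16 * m₁) + 1) * (4 * 2 ^ A.l + 2) * mean (A.q ^ m₁) (A.eqD m m₁)) := by
          refine mul_le_mul_of_nonneg_left ?_ (by positivity)
          exact hA.equi_mid m₁ (A.eqD_per m m₁) (A.eqD_nonneg m m₁) v
      _ ≤ 2 * Φ * ((11 * A.l * (16 * m₁) + 1) * (4 * 2 ^ A.l + 2) *
            √(∑ k ∈ Finset.range m, A.tt m₁ k)) := by
          gcongr
          exact A.mean_eqD hA.Z_le m m₁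
      _ = C := by rw [hC]; ring
  have h3 : ∀ J v, A.PP^[16 * m₁] (A.PP^[m₁] f) J v ≤ A.PP^[16 * m₁] (A.PP^[m₁] g) J v + C * 1 := by
    intro J v
    have := (abs_le.1 (h2 J v)).2
    linarith
  have h4 : ∀ J v, A.PP^[16 * m₁] (A.PP^[m₁] g) J v ≤ A.PP^[16 * m₁] (A.PP^[m₁] f) J v + C * 1 := by
    intro J v
    have := (abs_le.1 (h2 J v)).1
    linarith
  have h5 := A.PP_mono h3 n₀ J v
  have h6 := A.PP_mono h4 n₀ J v
  rw [PP_add, PP_smul A C (fun _ _ => 1)] at h5 h6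
  rw [abs_le]
  constructor <;> linarith

end Sys

end CollatzOne
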