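import Pool.Agent.CollatzExp.T1

set_option autoImplicit false

/-!
From the predecessor sets to the sets of integers whose trajectories merge with a given one.
-/

namespace CollatzOne

open CollatzExp (C C_even C_odd)

lemma C_sign_pos {n : ℤ} (h : 0 < n) : 0 < C n := by
  rcases Int.emod_two_eq_zero_or_one n with h1 | h1
  · rw [C_even h1]; omega
  · rw [C_odd h1]; omega

lemma C_sign_neg {n : ℤ} (h : n < 0) : C n < 0 := by
  rcases Int.emod_two_eq_zero_or_one n with h1 | h1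
  · rw [C_even h1]; omega
  · rw [C_odd h1]; omega

lemma C_zero : C 0 = 0 := by rw [C_even (by norm_num)]; norm_num

lemma iter_sign_pos {n : ℤ} (h : 0 < n) (k : ℕ) : 0 < C^[k] n := by
  induction k with
  | zero => exact h
  | succ k ih => rw [Function.iterate_succ_apply']; exact C_sign_pos ih

lemma iter_sign_neg {n : ℤ} (h : n < 0) (k : ℕ) : C^[k] n < 0 := by
  induction k with
  | zero => exact h
  | succ k ih => rw [Function.iterate_succ_apply']; exact C_sign_neg ih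

lemma iter_zero (k : ℕ) : C^[k] 0 = 0 := by
  induction k with
  | zero => rfl
  | succ k ih => rw [Function.iterate_succ_apply', ih, C_zero]

/-- The sign is preserved by the iteration. -/
lemma sign_of_reach {n m : ℤ} (hm : m ≠ 0) {i j : ℕ} (h : C^[i] n = C^[j] m) : 0 < n * m := by
  rcases lt_or_gt_of_ne hm with h1 | h1
  · have h2 := iter_sign_neg h1 j
    rcases lt_trichotomy n 0 with h3 | h3 | h3
    · exact mul_pos_of_neg_of_neg h3 h1
    · rw [h3, iter_zero] at h; omega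
    · have := iter_sign_pos h3 i; omega
  · have h2 := iter_sign_pos h1 j
    rcases lt_trichotomy n 0 with h3 | h3 | h3
    · have := iter_sign_neg h3 i; omega
    · rw [h3, iter_zero] at h; omega
    · exact mul_pos h3 h1

/-- Every nonzero trajectory leaves the multiples of three. -/
lemma exists_not_three_dvd (N : ℕ) : ∀ m : ℤ, m ≠ 0 → m.natAbs ≤ N → ∃ j : ℕ, ¬ (3 : ℤ) ∣ C^[j] m := by
  induction N with
  | zero =>
    intro m hm hN
    omega
  | succ N ih =>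
    intro m hm hN
    rcases Int.emod_two_eq_zero_or_one m with h1 | h1
    · obtain ⟨j, hj⟩ := ih (m / 2) (by omega) (by omega)
      refine ⟨j + 1, ?_⟩
      rw [Function.iterate_succ_apply, C_even h1]
      exact hj
    · refine ⟨1, ?_⟩
      rw [Function.iterate_one, C_odd h1]
      omega

lemma finite_abs_le (x : ℝ) (P : ℤ → Prop) : {n : ℤ | |(n : ℝ)| ≤ x ∧ P n}.Finite := by
  refine (Set.finite_Icc (-⌈x⌉) ⌈x⌉).subset fun n hn => ?_
  have h1 := hn.1
  rw [abs_le] at h1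
  have h2 := Int.le_ceil x
  rw [Set.mem_Icc]
  constructor
  · have : -(⌈x⌉ : ℝ) ≤ n := by linarith [h1.1]
    exact_mod_cast this
  · have : (n : ℝ) ≤ ⌈x⌉ := h1.2.trans h2
    exact_mod_cast this

/-- The integers whose trajectories merge with the trajectory of a nonzero integer have positive
lower density. -/
theorem merge_density (hdens : ∀ a : ℤ, ¬ (3 : ℤ) ∣ a → ∃ c : ℝ, 0 < c ∧ ∀ x : ℝ, |(a : ℝ)| ≤ x →
      c * x ≤ ({n : ℤ | |(n : ℝ)| ≤ x ∧ ∃ k : ℕ, C^[k] n = a}.ncard : ℝ)) (m : ℤ) (hm : m ≠ 0) :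
    ∃ c : ℝ, 0 < c ∧ ∀ x : ℝ, |(m : ℝ)| ≤ x →
      c * x ≤ ({n : ℤ | |(n : ℝ)| ≤ x ∧ (0 < n * m ∧ ∃ i j : ℕ, C^[i] n = C^[j] m)}.ncard : ℝ) := by
  obtain ⟨j, hj⟩ := exists_not_three_dvd _ m hm le_rfl
  obtain ⟨c, hc, hmain⟩ := hdens _ hj
  set a := C^[j] m with ha
  have ha0 : a ≠ 0 := by intro h; rw [h] at hj; exact hj (dvd_zero 3)
  have ha1 : (1 : ℝ) ≤ |(a : ℝ)| := by
    have h : 1 ≤ |a| := Int.one_le_abs ha0
    exact_mod_cast h
  refine ⟨min c (1 / |(a : ℝ)|), lt_min hc (by positivity), fun x hx => ?_⟩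
  have hm1 : (1 : ℝ) ≤ |(m : ℝ)| := by
    have h : 1 ≤ |m| := Int.one_le_abs hm
    exact_mod_cast h
  have hx0 : 0 < x := by linarith
  by_cases hxa : |(a : ℝ)| ≤ x
  · have h1 := hmain x hxa
    have h2 : ({n : ℤ | |(n : ℝ)| ≤ x ∧ ∃ k : ℕ, C^[k] n = a}.ncard : ℝ) ≤
        ({n : ℤ | |(n : ℝ)| ≤ x ∧ (0 < n * m ∧ ∃ i j : ℕ, C^[i] n = C^[j] m)}.ncard : ℝ) := by
      refine Nat.cast_le.2 (Set.ncard_le_ncard ?_ (finite_abs_le x _))
      rintro n ⟨hn, k, hk⟩
      exact ⟨hn, sign_of_reach hm (hk.trans ha), k, j, hk.trans ha⟩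
    refine le_trans ?_ (h1.trans h2)
    exact mul_le_mul_of_nonneg_right (min_le_left _ _) hx0.le
  · push Not at hxa
    have h1 : m ∈ {n : ℤ | |(n : ℝ)| ≤ x ∧ (0 < n * m ∧ ∃ i j : ℕ, C^[i] n = C^[j] m)} :=
      ⟨hx, mul_self_pos.2 hm, 0, 0, rfl⟩
    have h2 : 1 ≤ {n : ℤ | |(n : ℝ)| ≤ x ∧ (0 < n * m ∧ ∃ i j : ℕ, C^[i] n = C^[j] m)}.ncard :=
      Nat.one_le_iff_ne_zero.2 (Set.ncard_ne_zero_of_mem h1 (finite_abs_le x _))
    have h3 : (1 : ℝ) ≤ ({n : ℤ | |(n : ℝ)| ≤ x ∧ (0 < n * m ∧ ∃ i j : ℕ, C^[i] n = C^[j] m)}.ncard : ℝ) := by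
      exact_mod_cast h2
    refine le_trans ?_ h3
    calc min c (1 / |(a : ℝ)|) * x ≤ 1 / |(a : ℝ)| * |(a : ℝ)| :=
          mul_le_mul (min_le_right _ _) hxa.le hx0.le (by positivity)
      _ = 1 := by field_simp

end CollatzOne
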