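import Pool.Agent.CollatzDens.Op
import Pool.Agent.CollatzDens.Conc

set_option autoImplicit false

/-!
The renewal functions: the mass of the first crossings of a height.
-/

namespace CollatzOne

/-! ### Single moves -/

lemma v1_add (e : ℕ) (a u : ℤ) : v1 e (a + 3 * u) ↔ v1 e a := by
  unfold v1
  rw [show 2 ^ e * (a + 3 * u) - cc e = (2 ^ e * a - cc e) + 3 * (2 ^ e * u) by ring]
  exact dvd_add_left (dvd_mul_right 3 _)

lemma c1_add {e : ℕ} {a : ℤ} (h : v1 e a) (u : ℤ) : c1 e (a + 3 * u) = c1 e a + 2 ^ e * u := by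
  have h1 := three_c1 h
  have h2 := three_c1 ((v1_add e a u).2 h)
  linarith

lemma v1_cases (e : ℕ) : (v1 e 0 ∧ ¬ v1 e 1 ∧ ¬ v1 e 2) ∨ (¬ v1 e 0 ∧ v1 e 1 ∧ ¬ v1 e 2) ∨
    (¬ v1 e 0 ∧ ¬ v1 e 1 ∧ v1 e 2) := by
  have h2 := two_pow_mod_three e
  have h9 : (2 : ℤ) ^ e % 3 = 1 ∨ (2 : ℤ) ^ e % 3 = 2 := by
    split_ifs at h2 <;> omega
  unfold v1
  generalize (2 : ℤ) ^ e = p at *
  generalize cc e = c at *
  omega

lemma S_v1 (e : ℕ) (c : ℝ) : S 3 (fun a => if v1 e a then c else 0) = c := by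
  unfold S
  rw [Finset.sum_range_succ, Finset.sum_range_succ, Finset.sum_range_one]
  push_cast
  rcases v1_cases e with ⟨h0, h1, h2⟩ | ⟨h0, h1, h2⟩ | ⟨h0, h1, h2⟩
  · rw [if_pos h0, if_neg h1, if_neg h2]; ring
  · rw [if_neg h0, if_pos h1, if_neg h2]; ring
  · rw [if_neg h0, if_neg h1, if_pos h2]; ring

/-- Sum over a period of the function of the child. -/
lemma S_c1 (k e : ℕ) {φ : ℤ → ℝ} (h : Per (3 ^ k) φ) :
    S (3 ^ (k + 1)) (fun v => if v1 e v then φ (c1 e v) else 0) = S (3 ^ k) φ := by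
  rw [pow_succ', S_mul]
  have hcop : IsCoprime ((2 : ℤ) ^ e) ((3 ^ k : ℕ) : ℤ) := by
    push_cast
    exact IsCoprime.pow (by norm_num)
  have h1 : ∀ a : ℤ, S (3 ^ k) (fun u => if v1 e (a + ((3 : ℕ) : ℤ) * u) then φ (c1 e (a + ((3 : ℕ) : ℤ) * u)) else 0) =
      if v1 e a then S (3 ^ k) φ else 0 := by
    intro a
    push_cast
    by_cases hv : v1 e a
    · rw [if_pos hv, ← S_affine h hcop (c1 e a)]
      refine S_congr fun u => ?_
      rw [if_pos ((v1_add e a u).2 hv), c1_add hv, add_comm]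
    · rw [if_neg hv]
      have h2 : ∀ u : ℤ, (if v1 e (a + 3 * u) then φ (c1 e (a + 3 * u)) else 0) = 0 :=
        fun u => if_neg fun h' => hv ((v1_add e a u).1 h')
      rw [S_congr h2]
      simp [S]
  rw [S_congr h1]
  exact S_v1 e _

lemma mean_c1 (k e : ℕ) {φ : ℤ → ℝ} (h : Per (3 ^ k) φ) :
    mean (3 ^ (k + 1)) (fun v => if v1 e v then (3 : ℝ) / 2 ^ e * φ (c1 e v) else 0) =
      1 / 2 ^ e * mean (3 ^ k) φ := by
  unfold mean
  have h1 : ∀ v : ℤ, (if v1 e v then (3 : ℝ) / 2 ^ e * φ (c1 e v) else 0) =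
      (3 : ℝ) / 2 ^ e * (if v1 e v then φ (c1 e v) else 0) := by
    intro v
    split_ifs <;> ring
  rw [S_congr h1, S_mul_left, S_c1 k e h]
  push_cast
  rw [pow_succ]
  field_simp

lemma per_c1 (k e : ℕ) {φ : ℤ → ℝ} (h : Per (3 ^ k) φ) :
    Per (3 ^ (k + 1)) (fun v => if v1 e v then (3 : ℝ) / 2 ^ e * φ (c1 e v) else 0) := by
  intro v
  dsimp only
  rw [show v + ((3 ^ (k + 1) : ℕ) : ℤ) = v + 3 * (3 : ℤ) ^ k by push_cast; ring]
  by_cases hv : v1 e v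
  · rw [if_pos ((v1_add _ _ _).2 hv), if_pos hv, c1_add hv]
    congr 1
    have := h.add_mul (c1 e v) (2 ^ e)
    push_cast at this
    rw [mul_comm] at this
    exact this
  · rw [if_neg (fun h' => hv ((v1_add _ _ _).1 h')), if_neg hv]

/-- The total weight of the valid moves. -/
lemma sum_v1_le (E : ℕ) (v : ℤ) :
    ∑ e ∈ Finset.Icc 1 E, (if v1 e v then (3 : ℝ) / 2 ^ e else 0) ≤ 2 := by
  have key : ∀ n : ℕ, ∑ e ∈ Finset.Icc 1 (n + 3), (if v1 e v then (3 : ℝ) / 2 ^ e else 0) ≤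
      2 - 3 / 2 ^ (n + 3) := by
    intro n
    induction n with
    | zero =>
      have h123 : (v % 3 = 0 ∧ v1 1 v ∧ ¬ v1 2 v ∧ ¬ v1 3 v) ∨ (v % 3 = 1 ∧ ¬ v1 1 v ∧ v1 2 v ∧ v1 3 v) ∨
          (v % 3 = 2 ∧ ¬ v1 1 v ∧ ¬ v1 2 v ∧ ¬ v1 3 v) := by
        unfold v1
        rw [show cc 1 = 0 from rfl, show cc 2 = 1 from rfl, show cc 3 = 2 from rfl]
        have h : v % 3 = 0 ∨ v % 3 = 1 ∨ v % 3 = 2 := by omega
        rcases h with h | h | h
        · left; omega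
        · right; left; omega
        · right; right; omega
      rw [zero_add, Finset.sum_Icc_succ_top (by norm_num), Finset.sum_Icc_succ_top (by norm_num),
        Finset.Icc_self, Finset.sum_singleton]
      rcases h123 with ⟨-, h1, h2, h3⟩ | ⟨-, h1, h2, h3⟩ | ⟨-, h1, h2, h3⟩
      · rw [if_pos h1, if_neg h2, if_neg h3]; norm_num
      · rw [if_neg h1, if_pos h2, if_pos h3]; norm_num
      · rw [if_neg h1, if_neg h2, if_neg h3]; norm_num
    | succ n ih =>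
      rw [show n + 1 + 3 = (n + 3) + 1 by ring, Finset.sum_Icc_succ_top (by omega)]
      have h1 : (if v1 (n + 3 + 1) v then (3 : ℝ) / 2 ^ (n + 3 + 1) else 0) ≤ 3 / 2 ^ (n + 3 + 1) := by
        split_ifs
        · exact le_rfl
        · positivity
      have h2 : (3 : ℝ) / 2 ^ (n + 3) = 2 * (3 / 2 ^ (n + 3 + 1)) := by
        rw [pow_succ (2 : ℝ) (n + 3)]
        field_simp
      linarith
  have h1 := key E
  have h2 : ∑ e ∈ Finset.Icc 1 E, (if v1 e v then (3 : ℝ) / 2 ^ e else 0) ≤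
      ∑ e ∈ Finset.Icc 1 (E + 3), (if v1 e v then (3 : ℝ) / 2 ^ e else 0) := by
    refine Finset.sum_le_sum_of_subset_of_nonneg (Finset.Icc_subset_Icc le_rfl (by omega)) ?_
    intro e _ _
    split_ifs
    · positivity
    · exact le_rfl
  have h3 : (0 : ℝ) ≤ 3 / 2 ^ (E + 3) := by positivity
  linarith

/-! ### The crossing exponent -/

lemma e0_spec (s : ℝ) : s ≤ 2 ^ e0 s / 3 := by
  have h : {e : ℕ | s ≤ 2 ^ e / 3}.Nonempty := by
    obtain ⟨n, hn⟩ := pow_unbounded_of_one_lt (3 * s) (one_lt_two : (1 : ℝ) < 2)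
    exact ⟨n, by simp only [Set.mem_ofPred_eq]; linarith⟩
  exact Nat.sInf_mem h

lemma lt_of_lt_e0 {s : ℝ} {e : ℕ} (h : e < e0 s) : 2 ^ e / 3 < s := by
  have := Nat.notMem_of_lt_sInf h
  simpa using this

lemma one_le_e0 {s : ℝ} (hs : 1 < s) : 2 ≤ e0 s := by
  by_contra h
  push Not at h
  have h1 := e0_spec s
  have h2 : (2 : ℝ) ^ e0 s ≤ 2 ^ 1 := pow_le_pow_right₀ (by norm_num) (by omega)
  linarith

lemma e0_lt {s : ℝ} (hs : 1 < s) : (2 : ℝ) ^ e0 s < 6 * s := by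
  have h1 := one_le_e0 hs
  have h2 : e0 s - 1 < e0 s := by omega
  have h3 := lt_of_lt_e0 h2
  have h4 : (2 : ℝ) ^ e0 s = 2 * 2 ^ (e0 s - 1) := by
    rw [← pow_succ']
    congr 1
    omega
  linarith

lemma one_lt_next {s : ℝ} {e : ℕ} (h : e < e0 s) : 1 < 3 * s / 2 ^ e := by
  rw [one_lt_div (by positivity)]
  have := lt_of_lt_e0 h
  linarith

/-! ### Elementary properties -/

lemma psi_succ (M : ℕ) (s : ℝ) (v : ℤ) : psi (M + 1) s v = ∑ e ∈ Finset.Ico 1 (e0 s),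
      (if v1 e v then (3 : ℝ) / 2 ^ e * psi M (3 * s / 2 ^ e) (c1 e v) else 0) +
      if v1 (e0 s) v then (3 : ℝ) / 2 ^ e0 s else 0 := rfl

lemma psi_nonneg (M : ℕ) (s : ℝ) (v : ℤ) : 0 ≤ psi M s v := by
  induction M generalizing s v with
  | zero => exact le_rfl
  | succ M ih =>
    rw [psi_succ]
    refine add_nonneg (Finset.sum_nonneg fun e _ => ?_) ?_
    · split_ifs
      · exact mul_nonneg (by positivity) (ih _ _)
      · exact le_rfl
    · split_ifs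
      · positivity
      · exact le_rfl

lemma sum_Icc_e0 {s : ℝ} (hs : 1 < s) (f : ℕ → ℝ) :
    ∑ e ∈ Finset.Icc 1 (e0 s), f e = ∑ e ∈ Finset.Ico 1 (e0 s), f e + f (e0 s) := by
  have h := one_le_e0 hs
  rw [← Finset.sum_Ico_succ_top (by omega)]
  rfl

lemma psi_le (M : ℕ) {s : ℝ} (hs : 1 < s) (v : ℤ) : psi M s v ≤ 2 ^ M := by
  induction M generalizing s v with
  | zero => simp [psi]
  | succ M ih =>
    have h1 : (1 : ℝ) ≤ 2 ^ M := one_le_pow₀ (by norm_num)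
    have h2 := sum_v1_le (e0 s) v
    rw [sum_Icc_e0 hs] at h2
    rw [psi_succ]
    have h3 : ∑ e ∈ Finset.Ico 1 (e0 s),
        (if v1 e v then (3 : ℝ) / 2 ^ e * psi M (3 * s / 2 ^ e) (c1 e v) else 0) ≤
        ∑ e ∈ Finset.Ico 1 (e0 s), (if v1 e v then (3 : ℝ) / 2 ^ e else 0) * 2 ^ M := by
      refine Finset.sum_le_sum fun e he => ?_
      have he' := (Finset.mem_Ico.1 he).2
      split_ifs
      · exact mul_le_mul_of_nonneg_left (ih (one_lt_next he') _) (by positivity)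
      · simp
    have h4 : (if v1 (e0 s) v then (3 : ℝ) / 2 ^ e0 s else 0) ≤
        (if v1 (e0 s) v then (3 : ℝ) / 2 ^ e0 s else 0) * 2 ^ M := by
      refine le_mul_of_one_le_right ?_ h1
      split_ifs
      · positivity
      · exact le_rfl
    rw [← Finset.sum_mul] at h3
    calc _ ≤ (∑ e ∈ Finset.Ico 1 (e0 s), (if v1 e v then (3 : ℝ) / 2 ^ e else 0)) * 2 ^ M +
          (if v1 (e0 s) v then (3 : ℝ) / 2 ^ e0 s else 0) * 2 ^ M := add_le_add h3 h4
      _ = (∑ e ∈ Finset.Ico 1 (e0 s), (if v1 e v then (3 : ℝ) / 2 ^ e else 0) +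
          (if v1 (e0 s) v then (3 : ℝ) / 2 ^ e0 s else 0)) * 2 ^ M := by ring
      _ ≤ 2 * 2 ^ M := mul_le_mul_of_nonneg_right h2 (by positivity)
      _ = 2 ^ (M + 1) := by ring

lemma per_const_one (k : ℕ) : Per (3 ^ k) (fun _ => (1 : ℝ)) := fun _ => rfl

lemma cross_eq (s : ℝ) (v : ℤ) : (if v1 (e0 s) v then (3 : ℝ) / 2 ^ e0 s else 0) =
    if v1 (e0 s) v then (3 : ℝ) / 2 ^ e0 s * (fun _ : ℤ => (1 : ℝ)) (c1 (e0 s) v) else 0 := by
  split_ifs <;> simp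

lemma psi_per (M : ℕ) (s : ℝ) : Per (3 ^ M) (psi M s) := by
  induction M generalizing s with
  | zero => intro v; rfl
  | succ M ih =>
    intro v
    rw [psi_succ, psi_succ, cross_eq, cross_eq]
    have h1 := per_c1 M (e0 s) (per_const_one M) v
    dsimp only at h1 ⊢
    rw [h1]
    congr 1
    refine Finset.sum_congr rfl fun e _ => ?_
    exact per_c1 M e (ih (3 * s / 2 ^ e)) v

lemma mean_psi_succ (M : ℕ) (s : ℝ) : mean (3 ^ (M + 1)) (psi (M + 1) s) =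
    ∑ e ∈ Finset.Ico 1 (e0 s), 1 / 2 ^ e * mean (3 ^ M) (psi M (3 * s / 2 ^ e)) + 1 / 2 ^ e0 s := by
  have h1 : ∀ v : ℤ, psi (M + 1) s v = ∑ e ∈ Finset.Ico 1 (e0 s),
      (if v1 e v then (3 : ℝ) / 2 ^ e * psi M (3 * s / 2 ^ e) (c1 e v) else 0) +
      if v1 (e0 s) v then (3 : ℝ) / 2 ^ e0 s * (fun _ : ℤ => (1 : ℝ)) (c1 (e0 s) v) else 0 := by
    intro v
    rw [psi_succ, ← cross_eq]
  have h3 : mean (3 ^ M) (fun _ => (1 : ℝ)) = 1 := by
    unfold mean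
    rw [S_const]
    push_cast
    field_simp
  have h2 : mean (3 ^ (M + 1)) (fun v => if v1 (e0 s) v then
      (3 : ℝ) / 2 ^ e0 s * (fun _ : ℤ => (1 : ℝ)) (c1 (e0 s) v) else 0) = 1 / 2 ^ e0 s := by
    have h4 := mean_c1 M (e0 s) (per_const_one M)
    rw [h3] at h4
    rw [h4, mul_one]
  unfold mean at h2 ⊢
  rw [S_congr h1, S_add, add_div, h2, S_sum, Finset.sum_div]
  congr 1
  refine Finset.sum_congr rfl fun e _ => ?_
  have := mean_c1 M e (psi_per M (3 * s / 2 ^ e))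
  unfold mean at this
  exact this

/-! ### The mean mass of the crossings -/

lemma mean_term_le {s : ℝ} (hs : 0 ≤ s) (e : ℕ) :
    1 / 2 ^ e * √(3 * s / 2 ^ e) ≤ √s * (17321 / 10000 * (35356 / 100000) ^ e) := by
  have h : √(3 * s / 2 ^ e) ≤ √s * (17321 / 10000 * (35356 / 100000) ^ e) * 2 ^ e := by
    rw [Real.sqrt_le_left (by positivity), mul_pow, mul_pow, mul_pow, Real.sq_sqrt hs]
    have h1 : (1 / 8 : ℝ) ^ e ≤ ((35356 / 100000) ^ e) ^ 2 := by
      rw [← pow_mul, mul_comm e 2, pow_mul]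
      exact pow_le_pow_left₀ (by norm_num) (by norm_num) e
    have h2 : 3 * s / 2 ^ e = s * (3 * (1 / 8) ^ e) * (2 ^ e) ^ 2 := by
      rw [one_div, inv_pow, show (8 : ℝ) = 2 ^ 3 by norm_num, ← pow_mul, mul_comm 3 e, pow_mul]
      field_simp
    rw [h2]
    gcongr
    norm_num
  calc 1 / 2 ^ e * √(3 * s / 2 ^ e) ≤ 1 / 2 ^ e * (√s * (17321 / 10000 * (35356 / 100000) ^ e) * 2 ^ e) := by
        gcongr
    _ = √s * (17321 / 10000 * (35356 / 100000) ^ e) := by field_simp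

lemma sum_term_le (n : ℕ) :
    ∑ e ∈ Finset.Ico 1 n, (17321 / 10000 * (35356 / 100000 : ℝ) ^ e) ≤ 19 / 20 := by
  have key : ∀ m : ℕ, ∑ e ∈ Finset.Ico 1 (m + 1), (17321 / 10000 * (35356 / 100000 : ℝ) ^ e) ≤
      19 / 20 - 268 / 100 * (35356 / 100000 : ℝ) ^ (m + 1) := by
    intro m
    induction m with
    | zero => simp; norm_num
    | succ m ih =>
      rw [Finset.sum_Ico_succ_top (by omega)]
      have h1 : (0 : ℝ) ≤ (35356 / 100000 : ℝ) ^ (m + 1) := by positivity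
      rw [pow_succ _ (m + 1)]
      nlinarith
  rcases n with _ | m
  · simp
    norm_num
  · have h1 := key m
    have h2 : (0 : ℝ) ≤ (35356 / 100000 : ℝ) ^ (m + 1) := by positivity
    linarith

lemma sum_half (n : ℕ) (hn : 1 ≤ n) :
    ∑ e ∈ Finset.Ico 1 n, (1 / 2 ^ e * (1 / 2) : ℝ) + 1 / 2 ^ n = 1 / 2 := by
  induction n, hn using Nat.le_induction with
  | base => simp
  | succ n hn ih =>
    have h : (1 : ℝ) / 2 ^ (n + 1) = 1 / 2 ^ n * (1 / 2) := by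
      rw [pow_succ]
      field_simp
    rw [Finset.sum_Ico_succ_top hn, h]
    linarith

lemma psi_mean_aux (M : ℕ) : ∀ s : ℝ, 1 < s →
    1 / 2 - 1 / 2 * (√s * (19 / 20) ^ M) ≤ mean (3 ^ M) (psi M s) := by
  induction M with
  | zero =>
    intro s hs
    have h1 : mean (3 ^ 0) (psi 0 s) = 0 := by
      unfold mean S
      simp [psi]
    rw [h1]
    have h2 : 1 ≤ √s := by
      rw [Real.one_le_sqrt]
      exact hs.le
    linarith
  | succ M ih =>
    intro s hs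
    have h1 : ∑ e ∈ Finset.Ico 1 (e0 s), (1 / 2 ^ e * (1 / 2) -
        √s * (17321 / 10000 * (35356 / 100000) ^ e) * (1 / 2 * (19 / 20) ^ M)) ≤
        ∑ e ∈ Finset.Ico 1 (e0 s), 1 / 2 ^ e * mean (3 ^ M) (psi M (3 * s / 2 ^ e)) := by
      refine Finset.sum_le_sum fun e he => ?_
      have he' := (Finset.mem_Ico.1 he).2
      have h2 := ih _ (one_lt_next he')
      have h3 := mean_term_le (s := s) (by linarith) e
      calc (1 / 2 ^ e * (1 / 2) - √s * (17321 / 10000 * (35356 / 100000) ^ e) * (1 / 2 * (19 / 20) ^ M))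
          ≤ 1 / 2 ^ e * (1 / 2) - 1 / 2 ^ e * √(3 * s / 2 ^ e) * (1 / 2 * (19 / 20) ^ M) := by
            gcongr
        _ = 1 / 2 ^ e * (1 / 2 - 1 / 2 * (√(3 * s / 2 ^ e) * (19 / 20) ^ M)) := by ring
        _ ≤ _ := mul_le_mul_of_nonneg_left h2 (by positivity)
    rw [mean_psi_succ]
    have hsub : ∑ e ∈ Finset.Ico 1 (e0 s), (1 / 2 ^ e * (1 / 2) -
        √s * (17321 / 10000 * (35356 / 100000) ^ e) * (1 / 2 * (19 / 20) ^ M)) =
        ∑ e ∈ Finset.Ico 1 (e0 s), (1 / 2 ^ e * (1 / 2) : ℝ) -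
        √s * (∑ e ∈ Finset.Ico 1 (e0 s), (17321 / 10000 * (35356 / 100000 : ℝ) ^ e)) *
        (1 / 2 * (19 / 20) ^ M) := by
      rw [Finset.sum_sub_distrib]
      congr 1
      rw [Finset.mul_sum, Finset.sum_mul]
    rw [hsub] at h1
    have h2 := sum_half (e0 s) (by have := one_le_e0 hs; omega)
    have h3 := sum_term_le (e0 s)
    have h4 : √s * (∑ e ∈ Finset.Ico 1 (e0 s), (17321 / 10000 * (35356 / 100000 : ℝ) ^ e)) *
        (1 / 2 * (19 / 20) ^ M) ≤ √s * (19 / 20) * (1 / 2 * (19 / 20) ^ M) := by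
      gcongr
    have h5 : 1 / 2 * (√s * (19 / 20) ^ (M + 1)) = √s * (19 / 20) * (1 / 2 * (19 / 20) ^ M) := by
      rw [pow_succ]
      ring
    rw [h5]
    linarith

theorem psi_mean (l : ℕ) {s : ℝ} (hl : 1 ≤ l) (hs : 1 < s) (hs' : s ≤ 2 ^ (11 * l + 1)) :
    1 / 4 ≤ mean (3 ^ (100 * l)) (psi (100 * l) s) := by
  have h1 := psi_mean_aux (100 * l) s hs
  have h2 : √s * (19 / 20) ^ (100 * l) ≤ 1 / 2 := by
    have h3 : √s ≤ 1 / 2 * ((20 / 19 : ℝ) ^ (100 * l)) := by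
      rw [Real.sqrt_le_left (by positivity)]
      refine hs'.trans ?_
      rw [mul_pow, ← pow_mul, show 100 * l * 2 = 200 * l by ring, pow_succ, pow_mul, pow_mul]
      have h4 : (2 ^ 11 * 8 : ℝ) ^ l ≤ ((20 / 19 : ℝ) ^ 200) ^ l :=
        pow_le_pow_left₀ (by positivity) (by norm_num) l
      have h5 : (8 : ℝ) ≤ 8 ^ l := by
        calc (8 : ℝ) = 8 ^ 1 := by norm_num
          _ ≤ 8 ^ l := pow_le_pow_right₀ (by norm_num) hl
      have h6 : (0 : ℝ) < (2 ^ 11) ^ l := by positivity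
      rw [mul_pow] at h4
      have h7 := mul_le_mul_of_nonneg_left h5 h6.le
      generalize ((20 / 19 : ℝ) ^ 200) ^ l = P at *
      generalize ((2 : ℝ) ^ 11) ^ l = Q at *
      linarith
    calc √s * (19 / 20) ^ (100 * l) ≤ 1 / 2 * ((20 / 19 : ℝ) ^ (100 * l)) * (19 / 20) ^ (100 * l) := by
          gcongr
      _ = 1 / 2 * ((20 / 19 : ℝ) * (19 / 20)) ^ (100 * l) := by rw [mul_pow]; ring
      _ = 1 / 2 := by norm_num
  linarith

/-! ### Counting -/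

lemma cc_bounds (e : ℕ) : 0 ≤ cc e ∧ 3 * cc e ≤ 2 ^ e - 1 := by
  have h := three_cc e
  have h2 : (1 : ℤ) ≤ 2 ^ e := one_le_pow₀ (by norm_num)
  rcases eps_eq e with ⟨h1, -⟩ | ⟨h1, -⟩ <;> rw [h1] at h <;> omega

lemma abs_c1_le {e : ℕ} {v : ℤ} (h : v1 e v) : |(c1 e v : ℝ)| ≤ 2 ^ e / 3 * (|(v : ℝ)| + 1 / 3) := by
  have h1 : (3 : ℝ) * c1 e v = 2 ^ e * v - cc e := by exact_mod_cast three_c1 h
  have h2 : (c1 e v : ℝ) = (2 ^ e * v - cc e) / 3 := by linarith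
  obtain ⟨h3, h4⟩ := cc_bounds e
  have h3' : (0 : ℝ) ≤ cc e := by exact_mod_cast h3
  have h4' : (3 : ℝ) * cc e ≤ 2 ^ e - 1 := by exact_mod_cast h4
  rw [h2, abs_div, abs_of_pos (show (0 : ℝ) < 3 by norm_num)]
  have h5 : |(2 : ℝ) ^ e * v - cc e| ≤ 2 ^ e * |(v : ℝ)| + cc e := by
    calc |(2 : ℝ) ^ e * v - cc e| ≤ |(2 : ℝ) ^ e * v| + |(cc e : ℝ)| := abs_sub _ _
      _ = 2 ^ e * |(v : ℝ)| + cc e := by
        rw [abs_mul, abs_of_pos (show (0 : ℝ) < 2 ^ e by positivity), abs_of_nonneg h3']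
  rw [div_le_iff₀ (by norm_num)]
  linarith

lemma Ap.c1 {e : ℕ} {v : ℤ} (he : 1 ≤ e) (h : v1 e v) (hv : Ap v) : Ap (c1 e v) := by
  unfold Ap at hv ⊢
  rw [← child_eq h]
  exact hv.child he ((valid_iff e v).2 h)

lemma one_le_NX {X : ℝ} {v : ℤ} (h : |3 * (v : ℝ) - 1| ≤ X) : 1 ≤ NX X v := by
  unfold NX
  have h1 : 3 * v - 1 ∈ CollatzExp.DD (3 * v - 1) X := by
    rw [CollatzExp.mem_DD]
    refine ⟨by push_cast; exact h, 0, rfl⟩
  exact_mod_cast Finset.card_pos.2 ⟨_, h1⟩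

lemma psi_count_aux (M : ℕ) : ∀ (s X : ℝ) (v : ℤ), 1 < s → Ap v →
    6 * s * (|(v : ℝ)| + 2 * (3 / 2) ^ M - 1) ≤ X → s * psi M s v ≤ NX X v := by
  induction M with
  | zero =>
    intro s X v _ _ _
    simp only [psi, mul_zero]
    exact NX_nonneg _ _
  | succ M ih =>
    intro s X v hs hv hX
    have hs0 : 0 < s := by linarith
    have hM : (1 : ℝ) ≤ (3 / 2) ^ M := one_le_pow₀ (by norm_num)
    have hv0 := abs_nonneg (v : ℝ)
    refine le_trans ?_ (NX_letters (e0 s) X hv)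
    rw [psi_succ, sum_Icc_e0 hs, mul_add, Finset.mul_sum]
    refine add_le_add (Finset.sum_le_sum fun e he => ?_) ?_
    · rw [Finset.mem_Ico] at he
      by_cases h : v1 e v
      · rw [if_pos h, if_pos h]
        have h1 : s * (3 / 2 ^ e * psi M (3 * s / 2 ^ e) (c1 e v)) =
            3 * s / 2 ^ e * psi M (3 * s / 2 ^ e) (c1 e v) := by ring
        rw [h1]
        refine ih _ _ _ (one_lt_next he.2) (hv.c1 he.1 h) ?_
        refine le_trans ?_ hX
        have h2 := abs_c1_le h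
        have h3 : (2 : ℝ) ≤ 2 ^ e := by
          calc (2 : ℝ) = 2 ^ 1 := by norm_num
            _ ≤ 2 ^ e := pow_le_pow_right₀ (by norm_num) he.1
        have h4 : 6 * (3 * s / 2 ^ e) * (|(c1 e v : ℝ)| + 2 * (3 / 2) ^ M - 1) =
            6 * s * (3 / 2 ^ e * |(c1 e v : ℝ)|) + 6 * s * (3 / 2 ^ e * (2 * (3 / 2) ^ M - 1)) := by
          ring
        have h5 : 3 / 2 ^ e * |(c1 e v : ℝ)| ≤ |(v : ℝ)| + 1 / 3 := by
          calc 3 / 2 ^ e * |(c1 e v : ℝ)| ≤ 3 / 2 ^ e * (2 ^ e / 3 * (|(v : ℝ)| + 1 / 3)) := by gcongr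
            _ = |(v : ℝ)| + 1 / 3 := by field_simp
        have h6 : (3 : ℝ) / 2 ^ e * (2 * (3 / 2) ^ M - 1) ≤ 3 / 2 * (2 * (3 / 2) ^ M - 1) := by
          refine mul_le_mul_of_nonneg_right ?_ (by linarith)
          gcongr
        rw [h4, ← mul_add]
        refine mul_le_mul_of_nonneg_left ?_ (by positivity)
        rw [pow_succ]
        linarith
      · rw [if_neg h, if_neg h, mul_zero]
    · by_cases h : v1 (e0 s) v
      · rw [if_pos h, if_pos h]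
        have h1 : s * (3 / 2 ^ e0 s) ≤ 1 := by
          have := e0_spec s
          rw [← mul_div_assoc, div_le_one (by positivity)]
          linarith
        refine h1.trans (one_le_NX ?_)
        refine le_trans ?_ hX
        have h2 : (3 : ℝ) * c1 (e0 s) v = 2 ^ e0 s * v - cc (e0 s) := by exact_mod_cast three_c1 h
        obtain ⟨h3, h4⟩ := cc_bounds (e0 s)
        have h3' : (0 : ℝ) ≤ cc (e0 s) := by exact_mod_cast h3
        have h4' : (3 : ℝ) * cc (e0 s) ≤ 2 ^ e0 s - 1 := by exact_mod_cast h4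
        have h5 := e0_lt hs
        have h6 : (2 : ℝ) ^ 2 ≤ 2 ^ e0 s := pow_le_pow_right₀ (by norm_num) (one_le_e0 hs)
        have h7 : |3 * (c1 (e0 s) v : ℝ) - 1| ≤ 2 ^ e0 s * (|(v : ℝ)| + 1) := by
          rw [h2]
          calc |(2 : ℝ) ^ e0 s * v - cc (e0 s) - 1| = |(2 : ℝ) ^ e0 s * v - (cc (e0 s) + 1)| := by ring_nf
            _ ≤ |(2 : ℝ) ^ e0 s * v| + |(cc (e0 s) + 1 : ℝ)| := abs_sub _ _
            _ = 2 ^ e0 s * |(v : ℝ)| + (cc (e0 s) + 1) := by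
              rw [abs_mul, abs_of_pos (show (0 : ℝ) < 2 ^ e0 s by positivity),
                abs_of_nonneg (show (0 : ℝ) ≤ cc (e0 s) + 1 by linarith)]
            _ ≤ 2 ^ e0 s * (|(v : ℝ)| + 1) := by nlinarith
        refine h7.trans ?_
        have h8 : (1 : ℝ) ≤ (3 / 2) ^ (M + 1) := one_le_pow₀ (by norm_num)
        exact mul_le_mul h5.le (by linarith) (by positivity) (by positivity)
      · rw [if_neg h, if_neg h, mul_zero]

theorem psi_count (M : ℕ) {s X : ℝ} (hs : 1 < s) {v : ℤ} (hv : Ap v)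
    (hX : 6 * s * (|(v : ℝ)| + 2 * (3 / 2) ^ M) ≤ X) : s * psi M s v ≤ NX X v := by
  refine psi_count_aux M s X v hs hv (le_trans ?_ hX)
  refine mul_le_mul_of_nonneg_left (by linarith) (by linarith)

end CollatzOne
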