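import Pool.Agent.CollatzDens.Base

set_option autoImplicit false

/-!
# The stage recursion

Starting from a root `y` we run `n₀` blocks of the first block system and then `blk` blocks of each
of the following ones. The functionals `Λ i` are the resulting positive functionals.
-/

namespace CollatzOne

lemma th16 : (1 / 3 : ℝ) ≤ (15 / 16) ^ 16 := by norm_num

/-- The inverse height. -/
lemma Reg.inv_height {D : ℕ} {Y : ℝ} {J : ℕ} {v : ℤ} (h : Reg D Y J v) :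
    (3 : ℝ) ^ D ≤ (15 / 16) ^ D * 2 ^ J := by
  have h1 : ((3 : ℝ) ^ D) ^ 16 ≤ ((15 / 16) ^ D * 2 ^ J) ^ 16 := by
    have h2 : (3 : ℝ) ^ (17 * D) ≤ 2 ^ (16 * J) := by exact_mod_cast h.ht
    have h3 : (1 / 3 : ℝ) ^ D ≤ ((15 / 16) ^ 16) ^ D := pow_le_pow_left₀ (by norm_num) th16 D
    calc ((3 : ℝ) ^ D) ^ 16 = 3 ^ (17 * D) * (1 / 3 : ℝ) ^ D := by
          rw [← pow_mul, show 17 * D = D * 16 + D by ring, pow_add, mul_assoc, ← mul_pow]
          norm_num
      _ ≤ 2 ^ (16 * J) * ((15 / 16) ^ 16) ^ D := by gcongr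
      _ = ((15 / 16) ^ D * 2 ^ J) ^ 16 := by
          rw [mul_pow, ← pow_mul, ← pow_mul, ← pow_mul]
          ring
  exact (pow_le_pow_iff_left₀ (by positivity) (by positivity) (by norm_num)).1 h1

lemma Reg.mono {D : ℕ} {Y Y' : ℝ} {J : ℕ} {v : ℤ} (h : Reg D Y J v) (hY : Y ≤ Y') : Reg D Y' J v :=
  ⟨h.ht, h.J_le, h.size.trans (by gcongr), h.ap⟩

/-- One block. -/
lemma Reg.step {A : Sys} (hS : A.Str) {D : ℕ} {Y : ℝ} {J : ℕ} {v : ℤ} (h : Reg D Y J v)
    {w : A.ι} (hw : A.valid w v) (hap : Ap (A.child w v)) :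
    Reg (D + A.l) (Y + 2 ^ A.l * (15 / 16) ^ D) (J + A.J w) (A.child w v) := by
  refine ⟨?_, ?_, ?_, hap⟩
  · rw [mul_add, mul_add, pow_add, pow_add]
    exact Nat.mul_le_mul h.ht (hS.ht w)
  · have := h.J_le
    have := hS.J_le w
    omega
  · have h1 : (A.q : ℝ) * A.child w v = 2 ^ A.J w * v - A.b w := by
      exact_mod_cast A.q_mul_child hw
    have hb : |((A.b w : ℤ) : ℝ)| ≤ 2 ^ A.l * 2 ^ A.J w := by
      have := hS.b_le w
      exact_mod_cast this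
    have h2 : |((A.child w v : ℤ) : ℝ)| * 3 ^ A.l ≤ 2 ^ A.J w * |(v : ℝ)| + 2 ^ A.l * 2 ^ A.J w := by
      have hq : (A.q : ℝ) = 3 ^ A.l := by unfold Sys.q; push_cast; rfl
      rw [← hq, ← abs_of_pos A.q_posR, ← abs_mul, mul_comm, h1]
      calc |2 ^ A.J w * (v : ℝ) - A.b w| ≤ |2 ^ A.J w * (v : ℝ)| + |(A.b w : ℝ)| := abs_sub _ _
        _ ≤ 2 ^ A.J w * |(v : ℝ)| + 2 ^ A.l * 2 ^ A.J w := by
            rw [abs_mul, abs_of_pos (by positivity : (0 : ℝ) < 2 ^ A.J w)]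
            exact add_le_add le_rfl hb
    calc |((A.child w v : ℤ) : ℝ)| * 3 ^ (D + A.l) = |((A.child w v : ℤ) : ℝ)| * 3 ^ A.l * 3 ^ D := by
          rw [pow_add]; ring
      _ ≤ (2 ^ A.J w * |(v : ℝ)| + 2 ^ A.l * 2 ^ A.J w) * 3 ^ D := by gcongr
      _ = 2 ^ A.J w * (|(v : ℝ)| * 3 ^ D) + 2 ^ A.l * 2 ^ A.J w * 3 ^ D := by ring
      _ ≤ 2 ^ A.J w * (Y * 2 ^ J) + 2 ^ A.l * 2 ^ A.J w * ((15 / 16) ^ D * 2 ^ J) :=
          add_le_add (mul_le_mul_of_nonneg_left h.size (by positivity))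
            (mul_le_mul_of_nonneg_left h.inv_height (by positivity))
      _ = (Y + 2 ^ A.l * (15 / 16) ^ D) * 2 ^ (J + A.J w) := by
          rw [pow_add]; ring

lemma pow_half_aux {l : ℕ} (hl : 600 ≤ l) : ((15 / 16 : ℝ)) ^ l ≤ 1 / 2 := by
  calc ((15 / 16 : ℝ)) ^ l ≤ (15 / 16) ^ 11 := pow_le_pow_of_le_one (by norm_num) (by norm_num) (by omega)
    _ ≤ 1 / 2 := by norm_num

/-- Several blocks. -/
lemma Tower.lin_blocks (W : Tower) (i : ℕ) {D : ℕ} {Y : ℝ} {Λ : (ℕ → ℤ → ℝ) → ℝ}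
    (h : Lin (Reg D Y) Λ) (n : ℕ) :
    Lin (Reg (D + n * (W.sys i).l) (Y + 2 ^ ((W.sys i).l + 1) * (15 / 16) ^ D))
      (fun g => Λ ((W.sys i).PP^[n] g)) := by
  set A := W.sys i with hA
  have hS : A.Str := W.str i
  have h1 := Lin.comp_iter (Λ := Λ) A
    (fun k => Reg (D + k * A.l) (Y + 2 ^ (A.l + 1) * (15 / 16) ^ D * (1 - (1 / 2) ^ k))) n
    (by simpa using h) ?_
  · refine h1.weaken fun J v hJ => hJ.mono ?_
    have : (0 : ℝ) ≤ (1 / 2) ^ n := by positivity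
    have h2 : (0 : ℝ) ≤ 2 ^ (A.l + 1) * (15 / 16) ^ D := by positivity
    nlinarith
  · intro k J v w _ hR hw
    have h2 := hR.step hS hw (W.aper i w v hw hR.ap)
    have e1 : D + (k + 1) * A.l = D + k * A.l + A.l := by ring
    simp only [e1]
    refine h2.mono ?_
    have h3 : ((15 / 16 : ℝ)) ^ (k * A.l) ≤ (1 / 2) ^ k := by
      rw [mul_comm, pow_mul]
      exact pow_le_pow_left₀ (by positivity) (pow_half_aux hS.hl) k
    have h4 : (2 : ℝ) ^ A.l * (15 / 16) ^ (D + k * A.l) ≤ 2 ^ A.l * ((15 / 16) ^ D * (1 / 2) ^ k) := by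
      rw [pow_add]
      gcongr
    calc Y + 2 ^ (A.l + 1) * (15 / 16) ^ D * (1 - (1 / 2) ^ k) + 2 ^ A.l * (15 / 16) ^ (D + k * A.l)
        ≤ Y + 2 ^ (A.l + 1) * (15 / 16) ^ D * (1 - (1 / 2) ^ k) +
          2 ^ A.l * ((15 / 16) ^ D * (1 / 2) ^ k) := by gcongr
      _ = Y + 2 ^ (A.l + 1) * (15 / 16) ^ D * (1 - (1 / 2) ^ (k + 1)) := by
          rw [pow_succ, pow_succ]
          ring

/-- The starting functional. -/
lemma lin_start (y : ℤ) (hy : Ap y) : Lin (Reg 0 |(y : ℝ)|) (fun g => g 0 y) := by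
  have h0 : Reg 0 |(y : ℝ)| 0 y := ⟨by simp, by simp, by simp, hy⟩
  exact ⟨fun f g h => h 0 y h0, fun f g => rfl, fun c f => rfl⟩

/-- Counting: one block. -/
lemma Tower.count_step (W : Tower) (i : ℕ) (X : ℝ) (D J : ℕ) (v : ℤ) (hv : Ap v) :
    (W.sys i).PP (fun J v => 2 ^ J / 3 ^ (D + (W.sys i).l) * NX X v) J v ≤
      2 ^ J / 3 ^ D * NX X v := by
  set A := W.sys i with hA
  unfold Sys.PP
  calc ∑ w, (if A.valid w v then (A.q : ℝ) / 2 ^ A.J w *
        (2 ^ (J + A.J w) / 3 ^ (D + A.l) * NX X (A.child w v)) else 0)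
      = 2 ^ J / 3 ^ D * ∑ w, (if A.valid w v then NX X (A.child w v) else 0) := by
        rw [Finset.mul_sum]
        refine Finset.sum_congr rfl fun w _ => ?_
        have hq : (A.q : ℝ) = 3 ^ A.l := by unfold Sys.q; push_cast; rfl
        split_ifs
        · rw [hq, pow_add, pow_add]
          field_simp
        · ring
    _ ≤ 2 ^ J / 3 ^ D * NX X v := by
        gcongr
        exact W.count i X v hv

/-- Counting: several blocks. -/
lemma Tower.count_blocks (W : Tower) (i : ℕ) (X : ℝ) (n : ℕ) : ∀ (D J : ℕ) (v : ℤ), Ap v →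
    (W.sys i).PP^[n] (fun J v => 2 ^ J / 3 ^ (D + n * (W.sys i).l) * NX X v) J v ≤
      2 ^ J / 3 ^ D * NX X v := by
  set A := W.sys i with hA
  induction n with
  | zero => intro D J v hv; simp
  | succ n ih =>
    intro D J v hv
    rw [Function.iterate_succ_apply']
    refine le_trans ?_ (W.count_step i X D J v hv)
    rw [← hA]
    unfold Sys.PP
    refine Finset.sum_le_sum fun w _ => ?_
    split_ifs with hw
    · have h1 := ih (D + A.l) (J + A.J w) (A.child w v) (W.aper i w v hw hv)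
      rw [show D + A.l + n * A.l = D + (n + 1) * A.l by ring] at h1
      have := A.q_posR
      exact mul_le_mul_of_nonneg_left h1 (by positivity)
    · exact le_rfl

/-- Two blocks of one system are bounded by one block of the next one. -/
lemma Tower.double_iter (W : Tower) (i : ℕ) (n : ℕ) (f : ℕ → ℤ → ℝ) (hf : ∀ J v, 0 ≤ f J v)
    (J : ℕ) (v : ℤ) :
    (W.sys i).PP^[2 * n] f J v ≤ (W.sys (i + 1)).PP^[n] f J v := by
  induction n generalizing f with
  | zero => simp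
  | succ n ih =>
    rw [show 2 * (n + 1) = 2 * n + 2 by ring, Function.iterate_add_apply, Function.iterate_succ_apply]
    refine le_trans ?_ (ih _ (fun J v => (W.sys (i + 1)).PP_nonneg_one hf J v))
    refine (W.sys i).PP_mono ?_ _ J v
    intro J v
    exact W.double i f hf J v

/-- The recursion for the masses. -/
lemma Sys.Str.mass_step : ∃ l₀ : ℕ, ∀ A : Sys, A.Str → l₀ ≤ A.l → ∀ n : ℕ, 17 * A.blk ≤ n →
    ∀ (J : ℕ) (v : ℤ), A.Z * A.PP^[n] (fun _ _ => 1) J v -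
      (1 / 2 : ℝ) ^ (100 * A.l) * A.PP^[n - 17 * A.blk] (fun _ _ => 1) J v ≤
      A.PP^[n + 1] (fun _ _ => 1) J v := by
  obtain ⟨l₁, h₁⟩ := Sys.Str.eqd
  obtain ⟨l₂, h₂⟩ := Sys.Str.iter_one_le'
  refine ⟨max l₁ l₂, fun A hA hl n hn J v => ?_⟩
  have hq1 : 1 ≤ A.q := A.q_pos
  have e1 : ∀ (J : ℕ) (v : ℤ), A.PP (fun _ _ => 1) J v = A.T 1 (fun _ => 1) v := fun J v =>
    A.PP_iter_const 1 (fun _ => 1) J v
  have hper : ∀ J, Per (A.q ^ 1) (A.PP (fun _ _ => 1) J) := by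
    intro J
    exact A.PP_per 0 (fun _ _ => 1) (fun _ _ => rfl) J
  have h3 := h₁ A hA ((le_max_left _ _).trans hl) n (A.PP (fun _ _ => 1)) hn
    (fun J => (hper J).pow_le (by norm_num)) (fun J v => A.PP_nonneg_one (fun _ _ => zero_le_one) J v) ?_ J v
  · have e2 : ∀ J, mean (A.q ^ 101) (A.PP (fun _ _ => 1) J) = A.Z := by
      intro J
      rw [mean_pow hq1 (by norm_num : 1 ≤ 101) (hper J), pow_one]
      unfold mean Sys.Z
      rw [S_congr (e1 J)]
    have e3 : (fun (J : ℕ) (_ : ℤ) => mean (A.q ^ 101) (A.PP (fun _ _ => 1) J)) =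
        fun _ _ => A.Z * 1 := by
      funext J v
      rw [e2, mul_one]
    rw [e3, A.PP_smul, ← Function.iterate_succ_apply (f := A.PP)] at h3
    have h4 := (abs_le.1 h3).1
    linarith
  · intro J v
    rw [e1]
    have h5 := h₂ A hA ((le_max_right _ _).trans hl) 1 (by omega) v
    refine h5.trans ?_
    rw [show (4 : ℝ) = 2 ^ 2 by norm_num, ← pow_mul]
    exact pow_le_pow_right₀ (by norm_num) (by omega)

/-! ### Numerical estimates -/

lemma num1 (k : ℕ) : (2 : ℝ) ^ k * ((99 / 100) ^ (100 * k) + (1 / 2) ^ (94 * (100 * k))) ≤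
    2 * (3 / 4) ^ k := by
  have h1 : (2 : ℝ) ^ k * (99 / 100) ^ (100 * k) ≤ (3 / 4) ^ k := by
    rw [pow_mul, ← mul_pow]
    exact pow_le_pow_left₀ (by positivity) (by norm_num) k
  have h2 : (2 : ℝ) ^ k * (1 / 2) ^ (94 * (100 * k)) ≤ (3 / 4) ^ k := by
    rw [show 94 * (100 * k) = 9400 * k by ring, pow_mul, ← mul_pow]
    refine pow_le_pow_left₀ (by positivity) ?_ k
    calc (2 : ℝ) * (1 / 2) ^ 9400 ≤ 2 * (1 / 2) ^ 2 := by
          gcongr 2 * ?_
          exact pow_le_pow_of_le_one (by norm_num) (by norm_num) (by norm_num)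
      _ ≤ 3 / 4 := by norm_num
  calc _ = (2 : ℝ) ^ k * (99 / 100) ^ (100 * k) + (2 : ℝ) ^ k * (1 / 2) ^ (94 * (100 * k)) := by ring
    _ ≤ _ := by linarith

lemma num2 (j : ℕ) {k : ℕ} (hk : 6 * (j + 2) ≤ k) : 2 * (3 / 4 : ℝ) ^ k ≤ 1 / 8 * (1 / 2) ^ j := by
  calc 2 * (3 / 4 : ℝ) ^ k ≤ 2 * (3 / 4) ^ (6 * (j + 2)) := by
        gcongr 2 * ?_
        exact pow_le_pow_of_le_one (by norm_num) (by norm_num) hk
    _ = 2 * ((3 / 4) ^ 6) ^ (j + 2) := by rw [pow_mul]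
    _ ≤ 2 * (1 / 4) ^ (j + 2) := by
        gcongr 2 * ?_
        exact pow_le_pow_left₀ (by norm_num) (by norm_num) _
    _ = 1 / 8 * (1 / 4) ^ j := by rw [pow_add]; ring
    _ ≤ 1 / 8 * (1 / 2) ^ j := by
        gcongr 1 / 8 * ?_
        exact pow_le_pow_left₀ (by norm_num) (by norm_num) _

lemma num3 (l : ℕ) : (1 / 2 : ℝ) ^ (100 * l) * 64 ^ l = (1 / 2) ^ (94 * l) := by
  have h : (1 / 2 : ℝ) ^ (6 * l) * 64 ^ l = 1 := by
    rw [pow_mul, ← mul_pow, show ((1 / 2 : ℝ) ^ 6 * 64) = 1 by norm_num, one_pow]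
  rw [show 100 * l = 94 * l + 6 * l by ring, pow_add, mul_assoc, h, mul_one]

/-! ### The stages -/

lemma Tower.st_blk_eq (W : Tower) (i : ℕ) : (W.sys i).blk = 2 ^ 2 ^ i := by
  unfold Sys.blk
  rw [W.l_eq]
  congr 1
  omega

lemma Tower.st_l_succ (W : Tower) (i : ℕ) : (W.sys (i + 1)).l = 2 * (W.sys i).l := by
  rw [W.l_eq, W.l_eq]
  ring

lemma Tower.st_blk_succ (W : Tower) (i : ℕ) : (W.sys (i + 1)).blk = (W.sys i).blk ^ 2 := by
  rw [W.st_blk_eq, W.st_blk_eq, ← pow_mul, pow_succ]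

lemma Tower.blk_ge (W : Tower) {i : ℕ} (hi : 5 ≤ i) : 35 ≤ (W.sys i).blk := by
  rw [W.st_blk_eq]
  calc 35 ≤ 2 ^ 2 ^ 5 := by norm_num
    _ ≤ 2 ^ 2 ^ i := Nat.pow_le_pow_right (by norm_num) (Nat.pow_le_pow_right (by norm_num) hi)

/-- The state after the stage `j`; the system in use is the one of index `i`. -/
structure Stage (W : Tower) (y : ℤ) (a₀ Yf : ℝ) (i j D : ℕ) (Λ : (ℕ → ℤ → ℝ) → ℝ) : Prop where
  lin : Lin (Reg D (Yf - 2 * (1 / 2) ^ j)) Λ
  one : Λ (fun _ _ => 1) ≤ 16 ^ (W.sys i).l * a₀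
  mass : ∀ n ≤ (W.sys i).blk ^ 6, (1 / 4 + 1 / 4 * (1 / 2) ^ j) * a₀ ≤
    Λ ((W.sys i).PP^[n] (fun _ _ => 1))
  cnt : ∀ X : ℝ, Λ (fun J v => 2 ^ J / 3 ^ D * NX X v) ≤ NX X y
  D_ge : 22 * (W.sys i).l ≤ D

theorem Tower.stage_step (W : Tower) : ∃ i₀ : ℕ, ∀ (i j D : ℕ) (y : ℤ) (a₀ Yf : ℝ)
    (Λ : (ℕ → ℤ → ℝ) → ℝ), i₀ ≤ i → j ≤ i → 0 < a₀ → Stage W y a₀ Yf i j D Λ →
    Stage W y a₀ Yf (i + 1) (j + 1) (D + (W.sys i).blk * (W.sys i).l)
      (fun g => Λ ((W.sys i).PP^[(W.sys i).blk] g)) := by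
  obtain ⟨l₁, h₁⟩ := Sys.Str.mass_step
  obtain ⟨l₂, h₂⟩ := Sys.Str.iter_one_le'
  refine ⟨max (max l₁ l₂) 5, fun i j D y a₀ Yf Λ hi hji ha hst => ?_⟩
  have hi1 : l₁ ≤ i := (le_max_left _ _).trans ((le_max_left _ _).trans hi)
  have hi2 : l₂ ≤ i := (le_max_right _ _).trans ((le_max_left _ _).trans hi)
  have hi5 : 5 ≤ i := (le_max_right _ _).trans hi
  have hlt : i < 2 ^ i := Nat.lt_two_pow_self
  have hli : i ≤ (W.sys i).l := by rw [W.l_eq]; omega
  have hls : (W.sys (i + 1)).l = 2 * (W.sys i).l := W.st_l_succ i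
  have hbs : (W.sys (i + 1)).blk = (W.sys i).blk ^ 2 := W.st_blk_succ i
  have hb : 35 ≤ (W.sys i).blk := W.blk_ge hi5
  -- the new functional
  have hlin' := W.lin_blocks i hst.lin (W.sys i).blk
  -- (one)
  have hone : Λ ((W.sys i).PP^[(W.sys i).blk] (fun _ _ => 1)) ≤ 16 ^ (W.sys (i + 1)).l * a₀ := by
    have h3 : ∀ (J : ℕ) (v : ℤ), (W.sys i).PP^[(W.sys i).blk] (fun _ _ => 1) J v ≤
        4 ^ (W.sys i).l * 1 := by
      intro J v
      rw [Sys.PP_iter_const, mul_one]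
      refine h₂ _ (W.str i) (by omega) _ ?_ v
      exact (Nat.le_self_pow (by norm_num) _).trans (Nat.le_succ _)
    calc Λ ((W.sys i).PP^[(W.sys i).blk] (fun _ _ => 1)) ≤ Λ (fun _ _ => 4 ^ (W.sys i).l * 1) :=
          hst.lin.mono _ _ fun J v _ => h3 J v
      _ = 4 ^ (W.sys i).l * Λ (fun _ _ => 1) := hst.lin.smul _ _
      _ ≤ 4 ^ (W.sys i).l * (16 ^ (W.sys i).l * a₀) :=
          mul_le_mul_of_nonneg_left hst.one (by positivity)
      _ = 64 ^ (W.sys i).l * a₀ := by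
          rw [← mul_assoc, ← mul_pow]; norm_num
      _ ≤ 16 ^ (W.sys (i + 1)).l * a₀ := by
          rw [hls, pow_mul]
          gcongr
          norm_num
  refine ⟨?_, hone, ?_, ?_, ?_⟩
  · -- linearity on the region
    refine hlin'.weaken fun J v hJ => hJ.mono ?_
    have h3 : (2 : ℝ) ^ ((W.sys i).l + 1) * (15 / 16) ^ D ≤ (1 / 2) ^ j := by
      have h4 : (15 / 16 : ℝ) ^ D ≤ (1 / 4) ^ (W.sys i).l := by
        calc (15 / 16 : ℝ) ^ D ≤ (15 / 16) ^ (22 * (W.sys i).l) :=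
              pow_le_pow_of_le_one (by norm_num) (by norm_num) hst.D_ge
          _ = ((15 / 16) ^ 22) ^ (W.sys i).l := by rw [pow_mul]
          _ ≤ (1 / 4) ^ (W.sys i).l := pow_le_pow_left₀ (by norm_num) (by norm_num) _
      calc (2 : ℝ) ^ ((W.sys i).l + 1) * (15 / 16) ^ D
          ≤ 2 ^ ((W.sys i).l + 1) * (1 / 4) ^ (W.sys i).l := by gcongr
        _ = 2 * (1 / 2) ^ (W.sys i).l := by
            rw [pow_succ, mul_comm _ (2 : ℝ), mul_assoc, ← mul_pow]; norm_num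
        _ ≤ 2 * (1 / 2) ^ (j + 1) := by
            gcongr 2 * ?_
            refine pow_le_pow_of_le_one (by norm_num) (by norm_num) ?_
            rw [W.l_eq]
            omega
        _ = (1 / 2) ^ j := by rw [pow_succ]; ring
    have h5 : (1 / 2 : ℝ) ^ (j + 1) = (1 / 2) ^ j / 2 := by rw [pow_succ]; ring
    rw [h5]
    linarith
  · -- masses
    set A := W.sys i with hA
    set B := W.sys (i + 1) with hB
    set v : ℕ → ℝ := fun n => Λ (A.PP^[A.blk] (B.PP^[n] (fun _ _ => 1))) with hv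
    set c : ℝ := 1 / 4 + 1 / 4 * (1 / 2) ^ j with hc
    have hc1 : c ≤ 1 / 2 := by
      have : (1 / 2 : ℝ) ^ j ≤ 1 := pow_le_one₀ (by norm_num) (by norm_num)
      rw [hc]; linarith
    have hsmall : ∀ n ≤ 17 * B.blk, c * a₀ ≤ v n := by
      intro n hn
      have h3 : A.blk + 2 * n ≤ A.blk ^ 6 := by
        rw [hbs] at hn
        have h4 : A.blk + 2 * n ≤ 35 * A.blk ^ 2 := by nlinarith
        have h5 : 35 * A.blk ^ 2 ≤ A.blk * A.blk ^ 2 := Nat.mul_le_mul_right _ hb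
        have h6 : A.blk * A.blk ^ 2 ≤ A.blk ^ 6 := by
          rw [← pow_succ']
          exact Nat.pow_le_pow_right (by omega) (by norm_num)
        omega
      refine (hst.mass _ h3).trans ?_
      rw [Function.iterate_add_apply]
      refine hst.lin.mono _ _ fun J v _ => A.PP_mono (fun J v => ?_) _ J v
      exact W.double_iter i n _ (fun _ _ => zero_le_one) J v
    have hlarge : ∀ m : ℕ, 17 * B.blk + m ≤ B.blk ^ 6 →
        (c - m * ((99 / 100) ^ B.l + (1 / 2) ^ (94 * B.l))) * a₀ ≤ v (17 * B.blk + m) := by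
      intro m
      induction m with
      | zero =>
        intro _
        have := hsmall (17 * B.blk) le_rfl
        simpa using this
      | succ m ih =>
        intro hm
        have h3 := ih (by omega)
        -- the recursion
        have h4 : B.Z * v (17 * B.blk + m) - (1 / 2) ^ (100 * B.l) * v m ≤
            v (17 * B.blk + (m + 1)) := by
          have h5 := h₁ B (W.str (i + 1)) (by omega) (17 * B.blk + m) (by omega)
          rw [Nat.add_sub_cancel_left] at h5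
          have h6 : Λ (A.PP^[A.blk] (fun J v => B.Z * B.PP^[17 * B.blk + m] (fun _ _ => 1) J v -
              (1 / 2) ^ (100 * B.l) * B.PP^[m] (fun _ _ => 1) J v)) ≤ v (17 * B.blk + (m + 1)) :=
            hst.lin.mono _ _ fun J v _ => A.PP_mono (fun J v => h5 J v) _ J v
          refine le_trans (le_of_eq ?_) h6
          have h7 := hlin'.sub (fun J v => B.Z * B.PP^[17 * B.blk + m] (fun _ _ => 1) J v)
            (fun J v => (1 / 2) ^ (100 * B.l) * B.PP^[m] (fun _ _ => 1) J v)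
          have h8 := hlin'.smul B.Z (B.PP^[17 * B.blk + m] (fun _ _ => 1))
          have h9 := hlin'.smul ((1 / 2) ^ (100 * B.l)) (B.PP^[m] (fun _ _ => 1))
          simp only at h7 h8 h9
          rw [h7, h8, h9]
        have h10 : v m ≤ 64 ^ B.l * a₀ := by
          have h11 : ∀ (J : ℕ) (v : ℤ), B.PP^[m] (fun _ _ => 1) J v ≤ 4 ^ B.l * 1 := by
            intro J v
            rw [Sys.PP_iter_const, mul_one]
            exact h₂ B (W.str (i + 1)) (by omega) m (by omega) v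
          calc v m ≤ Λ (A.PP^[A.blk] (fun _ _ => 4 ^ B.l * 1)) :=
                hst.lin.mono _ _ fun J v _ => A.PP_mono (fun J v => h11 J v) _ J v
            _ = 4 ^ B.l * Λ (A.PP^[A.blk] (fun _ _ => 1)) := hlin'.smul _ _
            _ ≤ 4 ^ B.l * (16 ^ B.l * a₀) := mul_le_mul_of_nonneg_left hone (by positivity)
            _ = 64 ^ B.l * a₀ := by rw [← mul_assoc, ← mul_pow]; norm_num
        have h12 : (1 / 2 : ℝ) ^ (100 * B.l) * v m ≤ (1 / 2) ^ (94 * B.l) * a₀ := by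
          calc (1 / 2 : ℝ) ^ (100 * B.l) * v m ≤ (1 / 2) ^ (100 * B.l) * (64 ^ B.l * a₀) :=
                mul_le_mul_of_nonneg_left h10 (by positivity)
            _ = (1 / 2) ^ (94 * B.l) * a₀ := by
                rw [← mul_assoc, num3]
        have hZ0 : 0 ≤ B.Z := by
          refine le_trans ?_ (W.str (i + 1)).Z_ge
          have : (99 / 100 : ℝ) ^ B.l ≤ 1 := pow_le_one₀ (by norm_num) (by norm_num)
          linarith
        have hZ1 := (W.str (i + 1)).Z_ge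
        rw [← hB] at hZ1
        have h13 : B.Z * ((c - m * ((99 / 100) ^ B.l + (1 / 2) ^ (94 * B.l))) * a₀) ≤
            B.Z * v (17 * B.blk + m) := mul_le_mul_of_nonneg_left h3 hZ0
        set u : ℝ := c - m * ((99 / 100) ^ B.l + (1 / 2) ^ (94 * B.l)) with hu
        have hu1 : u ≤ 1 := by
          have : 0 ≤ (m : ℝ) * ((99 / 100) ^ B.l + (1 / 2) ^ (94 * B.l)) := by positivity
          rw [hu]; linarith
        have hZle := (W.str (i + 1)).Z_le
        rw [← hB] at hZle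
        have h14 : (u - (99 / 100) ^ B.l) * a₀ ≤ B.Z * (u * a₀) := by
          rw [← mul_assoc]
          refine mul_le_mul_of_nonneg_right ?_ ha.le
          nlinarith [pow_nonneg (show (0 : ℝ) ≤ 99 / 100 by norm_num) B.l]
        push_cast
        have h15 : (c - ((m : ℝ) + 1) * ((99 / 100) ^ B.l + (1 / 2) ^ (94 * B.l))) * a₀ =
            (u - (99 / 100) ^ B.l) * a₀ - (1 / 2) ^ (94 * B.l) * a₀ := by
          rw [hu]; ring
        rw [h15]
        linarith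
    intro n hn
    have hcc : 1 / 4 + 1 / 4 * (1 / 2 : ℝ) ^ (j + 1) = c - 1 / 8 * (1 / 2) ^ j := by
      rw [hc, pow_succ]; ring
    rw [hcc]
    rcases le_or_gt n (17 * B.blk) with h | h
    · refine le_trans ?_ (hsmall n h)
      refine mul_le_mul_of_nonneg_right ?_ ha.le
      have : (0 : ℝ) ≤ 1 / 8 * (1 / 2) ^ j := by positivity
      linarith
    · obtain ⟨m, rfl⟩ := Nat.exists_eq_add_of_le h.le
      refine le_trans ?_ (hlarge m hn)
      refine mul_le_mul_of_nonneg_right ?_ ha.le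
      have h16 : (m : ℝ) ≤ 2 ^ (6 * 2 ^ (i + 1)) := by
        have h17 : m ≤ B.blk ^ 6 := by omega
        have h18 : B.blk ^ 6 = 2 ^ (6 * 2 ^ (i + 1)) := by
          rw [hB, W.st_blk_eq, ← pow_mul, mul_comm]
        rw [h18] at h17
        exact_mod_cast h17
      have h19 : B.l = 100 * (6 * 2 ^ (i + 1)) := by
        rw [hB, W.l_eq]; ring
      have h20 := num1 (6 * 2 ^ (i + 1))
      have hlt1 : i + 1 < 2 ^ (i + 1) := Nat.lt_two_pow_self
      have h21 := num2 j (k := 6 * 2 ^ (i + 1)) (by omega)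
      have h22 : (m : ℝ) * ((99 / 100) ^ B.l + (1 / 2) ^ (94 * B.l)) ≤
          2 ^ (6 * 2 ^ (i + 1)) * ((99 / 100) ^ (100 * (6 * 2 ^ (i + 1))) +
            (1 / 2) ^ (94 * (100 * (6 * 2 ^ (i + 1))))) := by
        rw [h19]
        exact mul_le_mul_of_nonneg_right h16 (by positivity)
      linarith
  · -- counting
    intro X
    refine le_trans (hst.lin.mono _ _ fun J v hJ => ?_) (hst.cnt X)
    exact W.count_blocks i X (W.sys i).blk D J v hJ.ap
  · rw [hls]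
    have h3 := hst.D_ge
    have h4 : 22 * (W.sys i).l ≤ (W.sys i).blk * (W.sys i).l := Nat.mul_le_mul_right _ (by omega)
    omega

theorem Tower.stages (W : Tower) : ∃ i₀ : ℕ, ∀ i₁ ≥ i₀, ∀ y : ℤ, Ap y → ∃ (a₀ Y : ℝ) (D : ℕ → ℕ)
    (Λ : ℕ → (ℕ → ℤ → ℝ) → ℝ), 0 < a₀ ∧ 0 ≤ Y ∧
    (∀ i ≥ i₁, Lin (Reg (D i) Y) (Λ i)) ∧
    (∀ i ≥ i₁, Λ i (fun _ _ => 1) ≤ 16 ^ (W.sys i).l * a₀) ∧
    (∀ i ≥ i₁, ∀ n ≤ (W.sys i).blk ^ 6, a₀ / 4 ≤ Λ i ((W.sys i).PP^[n] (fun _ _ => 1))) ∧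
    (∀ i ≥ i₁, ∀ X : ℝ, Λ i (fun J v => 2 ^ J / 3 ^ D i * NX X v) ≤ NX X y) ∧
    (∀ i ≥ i₁, D (i + 1) = D i + (W.sys i).blk * (W.sys i).l) ∧
    (∀ i ≥ i₁, 22 * (W.sys i).l ≤ D i) := by
  obtain ⟨i₂, hstep⟩ := W.stage_step
  obtain ⟨l₃, hbase⟩ := Sys.Str.base
  refine ⟨max (max i₂ l₃) 5, fun i₁ hi y hy => ?_⟩
  have hi2 : i₂ ≤ i₁ := (le_max_left _ _).trans ((le_max_left _ _).trans hi)
  have hi3 : l₃ ≤ i₁ := (le_max_right _ _).trans ((le_max_left _ _).trans hi)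
  have hi5 : 5 ≤ i₁ := (le_max_right _ _).trans hi
  have hlt : i₁ < 2 ^ i₁ := Nat.lt_two_pow_self
  obtain ⟨n₀, hn₀, hn⟩ := hbase (W.sys i₁) (W.str i₁) (by rw [W.l_eq]; omega) y
  set a₀ : ℝ := ((W.sys i₁).T 1)^[n₀] (fun _ => 1) y with ha₀
  have ha : 0 < a₀ := (W.sys i₁).iter_pos n₀ (fun _ => one_pos) y
  set Yf : ℝ := |(y : ℝ)| + 2 ^ ((W.sys i₁).l + 1) + 2 with hYf
  let DL : ℕ → ℕ × ((ℕ → ℤ → ℝ) → ℝ) := fun j => Nat.rec
    (n₀ * (W.sys i₁).l, fun g => (W.sys i₁).PP^[n₀] g 0 y)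
    (fun j p => (p.1 + (W.sys (i₁ + j)).blk * (W.sys (i₁ + j)).l,
      fun g => p.2 ((W.sys (i₁ + j)).PP^[(W.sys (i₁ + j)).blk] g))) j
  have hDL0 : DL 0 = (n₀ * (W.sys i₁).l, fun g => (W.sys i₁).PP^[n₀] g 0 y) := rfl
  have hDLs : ∀ j, DL (j + 1) = ((DL j).1 + (W.sys (i₁ + j)).blk * (W.sys (i₁ + j)).l,
      fun g => (DL j).2 ((W.sys (i₁ + j)).PP^[(W.sys (i₁ + j)).blk] g)) := fun j => rfl
  have hst : ∀ j, Stage W y a₀ Yf (i₁ + j) j (DL j).1 (DL j).2 := by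
    intro j
    induction j with
    | zero =>
      rw [hDL0, add_zero]
      refine ⟨?_, ?_, ?_, ?_, ?_⟩
      · have h1 := W.lin_blocks i₁ (lin_start y hy) n₀
        rw [zero_add] at h1
        refine h1.weaken fun J v hJ => hJ.mono ?_
        rw [hYf]
        simp
      · show (W.sys i₁).PP^[n₀] (fun _ _ => 1) 0 y ≤ _
        rw [Sys.PP_iter_const, ← ha₀]
        exact le_mul_of_one_le_left ha.le (one_le_pow₀ (by norm_num))
      · intro n hn'
        show _ ≤ (W.sys i₁).PP^[n₀] ((W.sys i₁).PP^[n] (fun _ _ => 1)) 0 y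
        rw [← Function.iterate_add_apply, Sys.PP_iter_const]
        refine le_trans (le_of_eq ?_) (hn n hn')
        ring
      · intro X
        show (W.sys i₁).PP^[n₀] (fun J v => 2 ^ J / 3 ^ (n₀ * (W.sys i₁).l) * NX X v) 0 y ≤ _
        have h1 := W.count_blocks i₁ X n₀ 0 0 y hy
        simpa using h1
      · show 22 * (W.sys i₁).l ≤ n₀ * (W.sys i₁).l
        refine Nat.mul_le_mul_right _ ?_
        have := W.blk_ge hi5
        omega
    | succ j ih =>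
      rw [hDLs, ← add_assoc]
      exact hstep (i₁ + j) j (DL j).1 y a₀ Yf (DL j).2 (by omega) (by omega) ha ih
  refine ⟨a₀, Yf, fun i => (DL (i - i₁)).1, fun i => (DL (i - i₁)).2, ha, by positivity, ?_, ?_, ?_, ?_, ?_, ?_⟩
  · intro i hi'
    obtain ⟨j, rfl⟩ := Nat.exists_eq_add_of_le hi'
    simp only [Nat.add_sub_cancel_left]
    refine (hst j).lin.weaken fun J v hJ => hJ.mono ?_
    have : (0 : ℝ) < (1 / 2) ^ j := by positivity
    linarith
  · intro i hi'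
    obtain ⟨j, rfl⟩ := Nat.exists_eq_add_of_le hi'
    simp only [Nat.add_sub_cancel_left]
    exact (hst j).one
  · intro i hi' n hn'
    obtain ⟨j, rfl⟩ := Nat.exists_eq_add_of_le hi'
    simp only [Nat.add_sub_cancel_left]
    refine le_trans ?_ ((hst j).mass n hn')
    have : (0 : ℝ) ≤ 1 / 4 * (1 / 2) ^ j * a₀ := by positivity
    linarith
  · intro i hi' X
    obtain ⟨j, rfl⟩ := Nat.exists_eq_add_of_le hi'
    simp only [Nat.add_sub_cancel_left]
    exact (hst j).cnt X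
  · intro i hi'
    obtain ⟨j, rfl⟩ := Nat.exists_eq_add_of_le hi'
    simp only [Nat.add_sub_cancel_left, add_assoc]
    rw [hDLs]
  · intro i hi'
    obtain ⟨j, rfl⟩ := Nat.exists_eq_add_of_le hi'
    simp only [Nat.add_sub_cancel_left]
    exact (hst j).D_ge

end CollatzOne
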