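import Pool.Agent.CollatzDens.Conc
import Pool.Agent.CollatzDens.Equi
import Pool.Agent.CollatzDens.Cross2
import Pool.Agent.CollatzDens.Renewal
import Pool.Agent.CollatzDens.Stages
import Pool.Agent.CollatzDens.Merge

set_option autoImplicit false

/-!
The predecessor set of every integer not divisible by three has positive lower density.
-/

namespace CollatzOne

theorem psiOK : PsiOK where
  nonneg := psi_nonneg
  le := fun M _ hs v => psi_le M hs v
  per := psi_per
  mean := fun l _ hl hs hs' => psi_mean l hl hs hs'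
  count := fun M _ _ hs _ hv hX => psi_count M hs hv hX

theorem collatz_density (a : ℤ) (ha : ¬ (3 : ℤ) ∣ a) :
    ∃ c : ℝ, 0 < c ∧ ∀ x : ℝ, |(a : ℝ)| ≤ x →
      c * x ≤ ({n : ℤ | |(n : ℝ)| ≤ x ∧ ∃ k : ℕ, CollatzExp.C^[k] n = a}.ncard : ℝ) :=
  density_of tower tower.stages (tower.cross Sys.Str.eqd psiOK) a ha

end CollatzOne
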