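import Pool.Agent.CollatzDens.Defs

set_option autoImplicit false

/-!
Elementary facts on the operator `PP`.
-/

namespace CollatzOne

lemma mean_mono {N : ℕ} {f g : ℤ → ℝ} (h : ∀ x, f x ≤ g x) : mean N f ≤ mean N g :=
  div_le_div_of_nonneg_right (S_mono h) (Nat.cast_nonneg _)

lemma mean_const {N : ℕ} (hN : 1 ≤ N) (c : ℝ) : mean N (fun _ => c) = c := by
  have : (N : ℝ) ≠ 0 := by positivity
  unfold mean
  rw [S_const]
  field_simp

lemma mean_nonneg {N : ℕ} {f : ℤ → ℝ} (h : ∀ x, 0 ≤ f x) : 0 ≤ mean N f :=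
  div_nonneg (S_nonneg h) (Nat.cast_nonneg _)

lemma mean_congr {N : ℕ} {f g : ℤ → ℝ} (h : ∀ x, f x = g x) : mean N f = mean N g := by
  have : f = g := funext h
  rw [this]

lemma mean_smul (N : ℕ) (c : ℝ) (f : ℤ → ℝ) : mean N (fun x => c * f x) = c * mean N f := by
  unfold mean
  rw [S_mul_left]
  ring

lemma mean_add (N : ℕ) (f g : ℤ → ℝ) : mean N (fun x => f x + g x) = mean N f + mean N g := by
  unfold mean
  rw [S_add]
  ring

/-- The mean of a periodic function over a multiple of the period. -/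
lemma mean_mul {N M : ℕ} (hM : 1 ≤ M) {f : ℤ → ℝ} (h : Per N f) : mean (N * M) f = mean N f := by
  have hM' : (M : ℝ) ≠ 0 := by positivity
  unfold mean
  rw [S_mul]
  have h1 : ∀ a : ℤ, S M (fun u => f (a + N * u)) = M * f a := by
    intro a
    rw [← S_const]
    exact S_congr fun u => h.add_mul a u
  rw [S_congr h1, S_mul_left]
  push_cast
  rcases Nat.eq_zero_or_pos N with rfl | hN
  · simp
  · field_simp

lemma Per.pow_le {q k m : ℕ} (h : k ≤ m) {f : ℤ → ℝ} (hf : Per (q ^ k) f) : Per (q ^ m) f := by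
  obtain ⟨d, rfl⟩ := Nat.exists_eq_add_of_le h
  rw [pow_add]
  exact hf.mul_right

lemma mean_pow {q k m : ℕ} (hq : 1 ≤ q) (h : k ≤ m) {f : ℤ → ℝ} (hf : Per (q ^ k) f) :
    mean (q ^ m) f = mean (q ^ k) f := by
  obtain ⟨d, rfl⟩ := Nat.exists_eq_add_of_le h
  rw [pow_add]
  exact mean_mul (Nat.one_le_pow _ _ hq) hf

namespace Sys
variable (A : Sys)

lemma PP_iter (n : ℕ) (g : ℕ → ℤ → ℝ) (J : ℕ) (v : ℤ) :
    A.PP^[n] g J v = ∑ p ∈ A.nodes v n, A.wt 1 n p.1 * g (J + p.1) p.2 := by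
  induction n generalizing g with
  | zero => simp [nodes, wt]
  | succ n ih =>
    rw [Function.iterate_succ_apply, ih, sum_nodes_succ]
    refine Finset.sum_congr rfl fun p _ => ?_
    unfold PP
    rw [Finset.mul_sum]
    refine Finset.sum_congr rfl fun w _ => ?_
    by_cases h : A.valid w p.2
    · rw [if_pos h, if_pos h, wt_succ, Real.rpow_one, add_assoc, mul_assoc]
    · rw [if_neg h, if_neg h, mul_zero]

lemma PP_iter_const (n : ℕ) (φ : ℤ → ℝ) (J : ℕ) (v : ℤ) :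
    A.PP^[n] (fun _ => φ) J v = (A.T 1)^[n] φ v := by
  rw [PP_iter, iter_eq']

lemma PP_mono {f g : ℕ → ℤ → ℝ} (h : ∀ J v, f J v ≤ g J v) (n : ℕ) (J : ℕ) (v : ℤ) :
    A.PP^[n] f J v ≤ A.PP^[n] g J v := by
  rw [PP_iter, PP_iter]
  exact Finset.sum_le_sum fun p _ => mul_le_mul_of_nonneg_left (h _ _) (A.wt_pos _ _ _).le

lemma PP_mono_one {f g : ℕ → ℤ → ℝ} (h : ∀ J v, f J v ≤ g J v) (J : ℕ) (v : ℤ) :
    A.PP f J v ≤ A.PP g J v := A.PP_mono h 1 J v

/-- Monotonicity on the nodes. -/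
lemma PP_mono' {f g : ℕ → ℤ → ℝ} (n : ℕ) (J : ℕ) (v : ℤ)
    (h : ∀ p ∈ A.nodes v n, f (J + p.1) p.2 ≤ g (J + p.1) p.2) :
    A.PP^[n] f J v ≤ A.PP^[n] g J v := by
  rw [PP_iter, PP_iter]
  exact Finset.sum_le_sum fun p hp => mul_le_mul_of_nonneg_left (h p hp) (A.wt_pos _ _ _).le

lemma PP_nonneg {f : ℕ → ℤ → ℝ} (h : ∀ J v, 0 ≤ f J v) (n : ℕ) (J : ℕ) (v : ℤ) :
    0 ≤ A.PP^[n] f J v := by
  rw [PP_iter]
  exact Finset.sum_nonneg fun p _ => mul_nonneg (A.wt_pos _ _ _).le (h _ _)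

lemma PP_nonneg_one {f : ℕ → ℤ → ℝ} (h : ∀ J v, 0 ≤ f J v) (J : ℕ) (v : ℤ) : 0 ≤ A.PP f J v :=
  A.PP_nonneg h 1 J v

lemma PP_add (f g : ℕ → ℤ → ℝ) (n : ℕ) (J : ℕ) (v : ℤ) :
    A.PP^[n] (fun J v => f J v + g J v) J v = A.PP^[n] f J v + A.PP^[n] g J v := by
  rw [PP_iter, PP_iter, PP_iter, ← Finset.sum_add_distrib]
  exact Finset.sum_congr rfl fun p _ => by ring

lemma PP_sub (f g : ℕ → ℤ → ℝ) (n : ℕ) (J : ℕ) (v : ℤ) :
    A.PP^[n] (fun J v => f J v - g J v) J v = A.PP^[n] f J v - A.PP^[n] g J v := by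
  rw [PP_iter, PP_iter, PP_iter, ← Finset.sum_sub_distrib]
  exact Finset.sum_congr rfl fun p _ => by ring

lemma PP_smul (c : ℝ) (f : ℕ → ℤ → ℝ) (n : ℕ) (J : ℕ) (v : ℤ) :
    A.PP^[n] (fun J v => c * f J v) J v = c * A.PP^[n] f J v := by
  rw [PP_iter, PP_iter, Finset.mul_sum]
  exact Finset.sum_congr rfl fun p _ => by ring

lemma PP_sum {κ : Type*} (s : Finset κ) (f : κ → ℕ → ℤ → ℝ) (n : ℕ) (J : ℕ) (v : ℤ) :
    A.PP^[n] (fun J v => ∑ i ∈ s, f i J v) J v = ∑ i ∈ s, A.PP^[n] (f i) J v := by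
  simp only [PP_iter]
  rw [Finset.sum_comm]
  exact Finset.sum_congr rfl fun p _ => by rw [Finset.mul_sum]

/-- Sum over a period of the function of the child. -/
lemma S_child (k : ℕ) {φ : ℤ → ℝ} (h : Per (A.q ^ k) φ) (w : A.ι) :
    S (A.q ^ (k + 1)) (fun v => if A.valid w v then φ (A.child w v) else 0) = S (A.q ^ k) φ := by
  rw [pow_succ', S_mul]
  have h1 : ∀ a : ℤ, S (A.q ^ k) (fun u => if A.valid w (a + A.q * u) then φ (A.child w (a + A.q * u)) else 0) =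
      if A.valid w (1 * a + 0) then S (A.q ^ k) φ else 0 := by
    intro a
    rw [one_mul, add_zero]
    by_cases hv : A.valid w a
    · rw [if_pos hv, ← S_affine h (A.coprime_two_pow (A.J w) k) (A.child w a)]
      refine S_congr fun u => ?_
      rw [if_pos ((A.valid_add w a u).2 hv), A.child_add hv, add_comm]
    · rw [if_neg hv]
      have h2 : ∀ u : ℤ, (if A.valid w (a + A.q * u) then φ (A.child w (a + A.q * u)) else 0) = 0 :=
        fun u => if_neg fun h' => hv ((A.valid_add w a u).1 h')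
      rw [S_congr h2]
      simp [S]
  rw [S_congr h1]
  exact A.S_valid w 1 0 isCoprime_one_left _

/-- The mean of one step. -/
lemma mean_PP (k : ℕ) (g : ℕ → ℤ → ℝ) (hg : ∀ J, Per (A.q ^ k) (g J)) (J : ℕ) :
    mean (A.q ^ (k + 1)) (A.PP g J) = ∑ w, 1 / 2 ^ A.J w * mean (A.q ^ k) (g (J + A.J w)) := by
  have hq := A.q_posR
  unfold mean PP
  rw [S_sum, Finset.sum_div]
  refine Finset.sum_congr rfl fun w _ => ?_
  have h1 : ∀ v : ℤ, (if A.valid w v then (A.q : ℝ) / 2 ^ A.J w * g (J + A.J w) (A.child w v) else 0) =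
      (A.q : ℝ) / 2 ^ A.J w * (if A.valid w v then g (J + A.J w) (A.child w v) else 0) := by
    intro v
    split_ifs <;> ring
  rw [S_congr h1, S_mul_left, A.S_child k (hg _)]
  push_cast
  rw [pow_succ]
  field_simp

lemma PP_per (k : ℕ) (g : ℕ → ℤ → ℝ) (hg : ∀ J, Per (A.q ^ k) (g J)) (J : ℕ) :
    Per (A.q ^ (k + 1)) (A.PP g J) := by
  intro v
  unfold PP
  refine Finset.sum_congr rfl fun w _ => ?_
  rw [show v + ((A.q ^ (k + 1) : ℕ) : ℤ) = v + A.q * (A.q : ℤ) ^ k by push_cast; ring]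
  by_cases h : A.valid w v
  · rw [if_pos ((A.valid_add _ _ _).2 h), if_pos h, A.child_add h]
    congr 1
    have := (hg (J + A.J w)).add_mul (A.child w v) (2 ^ A.J w)
    push_cast at this
    rw [mul_comm] at this
    exact this
  · rw [if_neg (fun h' => h ((A.valid_add _ _ _).1 h')), if_neg h]

end Sys

/-! ### Positive functionals -/

namespace Lin

variable {R R' : ℕ → ℤ → Prop} {Λ : (ℕ → ℤ → ℝ) → ℝ}

lemma nonneg (h : Lin R Λ) {f : ℕ → ℤ → ℝ} (hf : ∀ J v, R J v → 0 ≤ f J v) : 0 ≤ Λ f := by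
  have h1 := h.smul 0 (fun _ _ => 0)
  have h2 : Λ (fun _ _ => 0) = 0 := by
    have h3 : (fun (_ : ℕ) (_ : ℤ) => (0 : ℝ) * 0) = fun _ _ => 0 := by funext J v; ring
    rw [h3] at h1
    linarith
  rw [← h2]
  exact h.mono _ _ hf

lemma congr' (h : Lin R Λ) {f g : ℕ → ℤ → ℝ} (hf : ∀ J v, R J v → f J v = g J v) : Λ f = Λ g :=
  le_antisymm (h.mono _ _ fun J v hJ => (hf J v hJ).le) (h.mono _ _ fun J v hJ => (hf J v hJ).ge)

lemma sub (h : Lin R Λ) (f g : ℕ → ℤ → ℝ) : Λ (fun J v => f J v - g J v) = Λ f - Λ g := by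
  have h1 := h.add f (fun J v => -1 * g J v)
  rw [h.smul] at h1
  have h2 : (fun (J : ℕ) (v : ℤ) => f J v - g J v) = fun J v => f J v + -1 * g J v := by
    funext J v; ring
  rw [h2, h1]
  ring

lemma weaken (h : Lin R Λ) (hR : ∀ J v, R J v → R' J v) : Lin R' Λ :=
  ⟨fun f g hfg => h.mono f g fun J v hJ => hfg J v (hR J v hJ), h.add, h.smul⟩

/-- Composition with one step. -/
lemma comp (h : Lin R Λ) (A : Sys)
    (hR : ∀ J v w, R J v → A.valid w v → R' (J + A.J w) (A.child w v)) :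
    Lin R' (fun g => Λ (A.PP g)) := by
  refine ⟨fun f g hfg => h.mono _ _ fun J v hJ => ?_, fun f g => ?_, fun c f => ?_⟩
  · unfold Sys.PP
    refine Finset.sum_le_sum fun w _ => ?_
    by_cases hv : A.valid w v
    · rw [if_pos hv, if_pos hv]
      have := A.q_posR
      exact mul_le_mul_of_nonneg_left (hfg _ _ (hR J v w hJ hv)) (by positivity)
    · rw [if_neg hv, if_neg hv]
  · rw [← h.add]
    congr 1
    funext J v
    exact A.PP_add f g 1 J v
  · rw [← h.smul]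
    congr 1
    funext J v
    exact A.PP_smul c f 1 J v

/-- Composition with several steps; `R k` is the region after `k` steps. -/
lemma comp_iter (A : Sys) (R : ℕ → ℕ → ℤ → Prop) (n : ℕ) (h : Lin (R 0) Λ)
    (hR : ∀ k J v w, k < n → R k J v → A.valid w v → R (k + 1) (J + A.J w) (A.child w v)) :
    Lin (R n) (fun g => Λ (A.PP^[n] g)) := by
  induction n with
  | zero => exact h
  | succ n ih =>
    have h1 := ih fun k J v w hk => hR k J v w (by omega)
    have h2 := h1.comp A (R' := R (n + 1)) fun J v w => hR n J v w (by omega)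
    have h3 : (fun g => Λ (A.PP^[n + 1] g)) = fun g => Λ (A.PP^[n] (A.PP g)) := by
      funext g
      rw [Function.iterate_succ_apply]
    rw [h3]
    exact h2

lemma sum (h : Lin R Λ) {κ : Type*} (s : Finset κ) (f : κ → ℕ → ℤ → ℝ) :
    Λ (fun J v => ∑ i ∈ s, f i J v) = ∑ i ∈ s, Λ (f i) := by
  classical
  induction s using Finset.induction_on with
  | empty =>
    simp only [Finset.sum_empty]
    have h1 := h.smul 0 (fun _ _ => 0)
    simp only [zero_mul] at h1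
    exact h1
  | insert a s ha ih =>
    rw [Finset.sum_insert ha, ← ih, ← h.add]
    congr 1
    funext J v
    rw [Finset.sum_insert ha]

end Lin

end CollatzOne
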