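import Pool.Agent.CollatzDens.Final

set_option autoImplicit false

/-!
Uniform positive density of the predecessor sets.
-/

namespace CollatzOne

open Filter

/-- Uniform choice of the starting point of the stages. -/
lemma exists_start_unif {L : ℕ} {c δ B : ℝ} (hc : 0 < c) (hδ : δ * L < 1) : ∃ N : ℕ, ∀ w : ℕ → ℝ,
    (∀ n, 0 < w n) → (∀ n < L, w n ≤ B) → (∀ n : ℕ, c * (1 / 2 : ℝ) ^ (δ * n) ≤ w n) →
    ∃ n₀ : ℕ, L ≤ n₀ ∧ n₀ ≤ N ∧ ∀ n ≤ n₀, n₀ ≤ n + L → w n ≤ 2 * w n₀ := by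
  set ρ : ℝ := 2 * (1 / 2 : ℝ) ^ (δ * L) with hρ
  have hρ1 : 1 < ρ := by
    rw [hρ]
    have h1 : (1 / 2 : ℝ) ^ (1 : ℝ) < (1 / 2 : ℝ) ^ (δ * L) :=
      Real.rpow_lt_rpow_of_exponent_gt (by norm_num) (by norm_num) hδ
    rw [Real.rpow_one] at h1
    linarith
  set B' : ℝ := max B 0 with hB'
  obtain ⟨k₀, hk₀⟩ := ((tendsto_pow_atTop_atTop_of_one_lt hρ1).eventually_gt_atTop (B' / c)).exists
  refine ⟨k₀ * L, fun w hw hB hlow => ?_⟩
  by_contra hcon
  push Not at hcon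
  have hclaim0 : ∀ n ≤ k₀ * L, w n ≤ B' := by
    intro n
    induction n using Nat.strong_induction_on with
    | _ n ih =>
      intro hnN
      rcases lt_or_ge n L with h | h
      · exact (hB n h).trans (le_max_left _ _)
      · obtain ⟨m, hm1, hm2, hm3⟩ := hcon n h hnN
        have hmn : m < n := by
          rcases hm1.lt_or_eq with h' | h'
          · exact h'
          · subst h'
            have := hw m
            linarith
        have h1 := ih m hmn (by omega)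
        have h2 := hw n
        linarith
  have hclaim : ∀ k n : ℕ, k * L ≤ n → n ≤ k₀ * L → w n ≤ B' * (1 / 2) ^ k := by
    intro k
    induction k with
    | zero => intro n _ hn; simpa using hclaim0 n hn
    | succ k ih =>
      intro n hn hnN
      have hL : L ≤ n := by nlinarith
      obtain ⟨m, hm1, hm2, hm3⟩ := hcon n hL hnN
      have h1 := ih m (by
        have : (k + 1) * L = k * L + L := by ring
        omega) (by omega)
      rw [pow_succ]
      linarith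
  have h1 := hlow (k₀ * L)
  have h2 := hclaim k₀ (k₀ * L) le_rfl le_rfl
  have h3 : (1 / 2 : ℝ) ^ (δ * ((k₀ * L : ℕ) : ℝ)) = ((1 / 2 : ℝ) ^ (δ * L)) ^ k₀ := by
    rw [← Real.rpow_natCast, ← Real.rpow_mul (by norm_num)]
    congr 1
    push_cast
    ring
  rw [h3] at h1
  rw [div_lt_iff₀ hc, hρ, mul_pow] at hk₀
  have h4 : c * ((1 / 2 : ℝ) ^ (δ * L)) ^ k₀ ≤ B' * (1 / 2) ^ k₀ := h1.trans h2
  have h5 := mul_le_mul_of_nonneg_left h4 (show (0 : ℝ) ≤ 2 ^ k₀ by positivity)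
  have h6 : (2 : ℝ) ^ k₀ * (B' * (1 / 2) ^ k₀) = B' := by
    rw [mul_comm B', ← mul_assoc, ← mul_pow]
    norm_num
  rw [h6] at h5
  linarith

theorem Sys.Str.base_unif : ∃ l₀ : ℕ, ∀ A : Sys, A.Str → l₀ ≤ A.l → ∃ (N : ℕ) (c' : ℝ), 0 < c' ∧
    ∀ (y : ℤ), ∃ n₀ : ℕ, 17 * A.blk ≤ n₀ ∧ n₀ ≤ N ∧ c' ≤ (A.T 1)^[n₀] (fun _ => 1) y ∧
    ∀ n ≤ A.blk ^ 6, (A.T 1)^[n₀] (fun _ => 1) y / 2 ≤ (A.T 1)^[n₀ + n] (fun _ => 1) y := by
  obtain ⟨l₁, h₁⟩ := Sys.Str.worst
  obtain ⟨l₂, h₂⟩ := Sys.Str.mass_abs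
  obtain ⟨l₃, h₃⟩ := Sys.exists_small1
  refine ⟨max (max l₁ l₂) (max l₃ 1200), fun A hA hl => ?_⟩
  have hl1 : l₁ ≤ A.l := (le_max_left _ _).trans ((le_max_left _ _).trans hl)
  have hl2 : l₂ ≤ A.l := (le_max_right _ _).trans ((le_max_left _ _).trans hl)
  have hl3 : l₃ ≤ A.l := (le_max_left _ _).trans ((le_max_right _ _).trans hl)
  have hl4 : 1200 ≤ A.l := (le_max_right _ _).trans ((le_max_right _ _).trans hl)
  obtain ⟨c, hc, hlow⟩ := h₁ A hA hl1
  have hδ : 88 * (A.l : ℝ) * (99 / 100) ^ A.l * ((17 * A.blk : ℕ) : ℝ) < 1 := by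
    obtain ⟨-, h4⟩ := h₃ A.l hl3
    have h5 := Sys.blk_kappa A.l
    calc 88 * (A.l : ℝ) * (99 / 100) ^ A.l * ((17 * A.blk : ℕ) : ℝ)
        = 1496 * ((A.l : ℝ) ^ 1 * (2 ^ (A.l / 600) * (99 / 100) ^ A.l)) := by
          unfold Sys.blk
          push_cast
          ring
      _ ≤ 1496 * ((A.l : ℝ) ^ 1 * (199 / 200) ^ A.l) := by gcongr
      _ < 1 := h4
  have hδ0 : 0 ≤ 88 * (A.l : ℝ) * (99 / 100) ^ A.l := by positivity
  obtain ⟨N, hN⟩ := exists_start_unif (L := 17 * A.blk) (B := 4 ^ A.l) hc hδ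
  refine ⟨N, c * (1 / 2 : ℝ) ^ (88 * (A.l : ℝ) * (99 / 100) ^ A.l * N), by positivity, fun y => ?_⟩
  set w : ℕ → ℝ := fun n => (A.T 1)^[n] (fun _ => 1) y with hw
  have hwpos : ∀ n, 0 < w n := fun n => A.iter_pos n (fun _ => one_pos) y
  have hb35 : 2 ≤ A.blk := by
    unfold Sys.blk
    calc 2 = 2 ^ 1 := by norm_num
      _ ≤ 2 ^ (A.l / 600) := Nat.pow_le_pow_right (by norm_num) (by omega)
  have hLb : 17 * A.blk ≤ A.blk ^ 6 + 1 := by
    have h1 : 32 ≤ A.blk ^ 5 := by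
      calc 32 = 2 ^ 5 := by norm_num
        _ ≤ A.blk ^ 5 := Nat.pow_le_pow_left hb35 5
    have h2 : A.blk ^ 6 = A.blk ^ 5 * A.blk := by ring
    nlinarith
  obtain ⟨n₀, hn₀, hn₀N, hstart⟩ := hN w hwpos (fun n hn => hA.iter_one_le'' (by omega) y) (fun n => hlow n y)
  refine ⟨n₀, hn₀, hn₀N, ?_, ?_⟩
  · refine le_trans ?_ (hlow n₀ y)
    refine mul_le_mul_of_nonneg_left ?_ hc.le
    refine Real.rpow_le_rpow_of_exponent_ge (by norm_num) (by norm_num) ?_
    refine mul_le_mul_of_nonneg_left ?_ hδ0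
    exact_mod_cast hn₀N
  set a : ℝ := w n₀ with ha
  have ha0 : 0 < a := hwpos n₀
  set e : ℝ := (1 / 2) ^ (100 * A.l) with he
  set κ : ℝ := (99 / 100) ^ A.l with hκ
  have hstep : ∀ m, 17 * A.blk ≤ m → |w (m + 1) - A.Z * w m| ≤ e * w (m - 17 * A.blk) := by
    intro m hm
    have h5 := h₂ A hA hl2 m hm 0 y
    rw [Sys.PP_iter_const, Sys.PP_iter_const, Sys.PP_iter_const] at h5
    exact h5
  have hZ1 := hA.Z_ge
  have hZ2 := hA.Z_le
  rw [← hκ] at hZ1
  have hκ0 : 0 < κ := by positivity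
  have he0 : 0 < e := by positivity
  have main : ∀ n ≤ A.blk ^ 6, (∀ n' ≤ n, w (n₀ + n') ≤ 3 * a) ∧
      w (n₀ + n) ≤ a + 3 * (n * (κ + e)) * a ∧ a - 3 * (n * (κ + e)) * a ≤ w (n₀ + n) := by
    intro n
    induction n with
    | zero =>
      intro _
      refine ⟨fun n' hn' => ?_, ?_, ?_⟩
      · have : n' = 0 := by omega
        subst this
        rw [add_zero, ← ha]
        linarith
      · simp [ha]
      · simp [ha]
    | succ n ih =>
      intro hn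
      obtain ⟨h5, h6, h7⟩ := ih (by omega)
      have h8 := hstep (n₀ + n) (by omega)
      have h9 : w (n₀ + n - 17 * A.blk) ≤ 3 * a := by
        rcases le_or_gt (17 * A.blk) n with h | h
        · rw [Nat.add_sub_assoc h]
          exact h5 _ (Nat.sub_le _ _)
        · have h10 := hstart (n₀ + n - 17 * A.blk) (by omega) (by omega)
          linarith
      have h11 : e * w (n₀ + n - 17 * A.blk) ≤ e * (3 * a) := mul_le_mul_of_nonneg_left h9 he0.le
      have h12 := abs_le.1 (h8.trans h11)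
      have h13 := hwpos (n₀ + n)
      have h14 := h5 n le_rfl
      have hnum := num_base hl4 (n := n + 1) (by simpa [Sys.blk] using hn)
      rw [← hκ, ← he] at hnum
      have h15 : A.Z * w (n₀ + n) ≤ w (n₀ + n) := mul_le_of_le_one_left h13.le hZ2
      have h16 : w (n₀ + n) - κ * (3 * a) ≤ A.Z * w (n₀ + n) := by
        have : (1 - A.Z) * w (n₀ + n) ≤ κ * (3 * a) :=
          mul_le_mul (by linarith) h14 h13.le hκ0.le
        linarith
      have h17 : w (n₀ + (n + 1)) ≤ a + 3 * (((n + 1 : ℕ) : ℝ) * (κ + e)) * a := by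
        rw [← add_assoc]
        push_cast
        have : 0 ≤ κ * (3 * a) := by positivity
        linarith [h12.2]
      have h18 : a - 3 * (((n + 1 : ℕ) : ℝ) * (κ + e)) * a ≤ w (n₀ + (n + 1)) := by
        rw [← add_assoc]
        push_cast
        linarith [h12.1]
      refine ⟨fun n' hn' => ?_, h17, h18⟩
      rcases hn'.lt_or_eq with h | h
      · exact h5 n' (by omega)
      · subst h
        refine h17.trans ?_
        have := mul_le_mul_of_nonneg_right hnum ha0.le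
        linarith
  intro n hn
  obtain ⟨-, -, h5⟩ := main n hn
  have hnum := num_base hl4 (n := n) (by simpa [Sys.blk] using hn)
  rw [← hκ, ← he] at hnum
  have := mul_le_mul_of_nonneg_right hnum ha0.le
  change a / 2 ≤ w (n₀ + n)
  linarith

theorem Tower.stages_unif (W : Tower) : ∃ i₀ : ℕ, ∀ i₁ ≥ i₀, ∃ (N : ℕ) (c' : ℝ), 0 < c' ∧
    ∀ y : ℤ, Ap y → ∃ (a₀ Y : ℝ) (D : ℕ → ℕ)
    (Λ : ℕ → (ℕ → ℤ → ℝ) → ℝ), c' ≤ a₀ ∧ Y = |(y : ℝ)| + 2 ^ ((W.sys i₁).l + 1) + 2 ∧ D i₁ ≤ N ∧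
    (∀ i ≥ i₁, Lin (Reg (D i) Y) (Λ i)) ∧
    (∀ i ≥ i₁, Λ i (fun _ _ => 1) ≤ 16 ^ (W.sys i).l * a₀) ∧
    (∀ i ≥ i₁, ∀ n ≤ (W.sys i).blk ^ 6, a₀ / 4 ≤ Λ i ((W.sys i).PP^[n] (fun _ _ => 1))) ∧
    (∀ i ≥ i₁, ∀ X : ℝ, Λ i (fun J v => 2 ^ J / 3 ^ D i * NX X v) ≤ NX X y) ∧
    (∀ i ≥ i₁, D (i + 1) = D i + (W.sys i).blk * (W.sys i).l) ∧
    (∀ i ≥ i₁, 22 * (W.sys i).l ≤ D i) := by
  obtain ⟨i₂, hstep⟩ := W.stage_step
  obtain ⟨l₃, hbase⟩ := Sys.Str.base_unif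
  refine ⟨max (max i₂ l₃) 5, fun i₁ hi => ?_⟩
  have hi2 : i₂ ≤ i₁ := (le_max_left _ _).trans ((le_max_left _ _).trans hi)
  have hi3 : l₃ ≤ i₁ := (le_max_right _ _).trans ((le_max_left _ _).trans hi)
  have hi5 : 5 ≤ i₁ := (le_max_right _ _).trans hi
  have hlt : i₁ < 2 ^ i₁ := Nat.lt_two_pow_self
  obtain ⟨N, c', hc', hbase⟩ := hbase (W.sys i₁) (W.str i₁) (by rw [W.l_eq]; omega)
  refine ⟨N * (W.sys i₁).l, c', hc', fun y hy => ?_⟩
  obtain ⟨n₀, hn₀, hn₀N, hn₀c, hn⟩ := hbase y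
  set a₀ : ℝ := ((W.sys i₁).T 1)^[n₀] (fun _ => 1) y with ha₀
  have ha : 0 < a₀ := (W.sys i₁).iter_pos n₀ (fun _ => one_pos) y
  set Yf : ℝ := |(y : ℝ)| + 2 ^ ((W.sys i₁).l + 1) + 2 with hYf
  let DL : ℕ → ℕ × ((ℕ → ℤ → ℝ) → ℝ) := fun j => Nat.rec
    (n₀ * (W.sys i₁).l, fun g => (W.sys i₁).PP^[n₀] g 0 y)
    (fun j p => (p.1 + (W.sys (i₁ + j)).blk * (W.sys (i₁ + j)).l,
      fun g => p.2 ((W.sys (i₁ + j)).PP^[(W.sys (i₁ + j)).blk] g))) j
  have hDL0 : DL 0 = (n₀ * (W.sys i₁).l, fun g => (W.sys i₁).PP^[n₀] g 0 y) := rfl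
  have hDLs : ∀ j, DL (j + 1) = ((DL j).1 + (W.sys (i₁ + j)).blk * (W.sys (i₁ + j)).l,
      fun g => (DL j).2 ((W.sys (i₁ + j)).PP^[(W.sys (i₁ + j)).blk] g)) := fun j => rfl
  have hst : ∀ j, Stage W y a₀ Yf (i₁ + j) j (DL j).1 (DL j).2 := by
    intro j
    induction j with
    | zero =>
      rw [hDL0, add_zero]
      refine ⟨?_, ?_, ?_, ?_, ?_⟩
      · have h1 := W.lin_blocks i₁ (lin_start y hy) n₀
        rw [zero_add] at h1
        refine h1.weaken fun J v hJ => hJ.mono ?_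
        rw [hYf]
        simp
      · show (W.sys i₁).PP^[n₀] (fun _ _ => 1) 0 y ≤ _
        rw [Sys.PP_iter_const, ← ha₀]
        exact le_mul_of_one_le_left ha.le (one_le_pow₀ (by norm_num))
      · intro n hn'
        show _ ≤ (W.sys i₁).PP^[n₀] ((W.sys i₁).PP^[n] (fun _ _ => 1)) 0 y
        rw [← Function.iterate_add_apply, Sys.PP_iter_const]
        refine le_trans (le_of_eq ?_) (hn n hn')
        ring
      · intro X
        show (W.sys i₁).PP^[n₀] (fun J v => 2 ^ J / 3 ^ (n₀ * (W.sys i₁).l) * NX X v) 0 y ≤ _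
        have h1 := W.count_blocks i₁ X n₀ 0 0 y hy
        simpa using h1
      · show 22 * (W.sys i₁).l ≤ n₀ * (W.sys i₁).l
        refine Nat.mul_le_mul_right _ ?_
        have := W.blk_ge hi5
        omega
    | succ j ih =>
      rw [hDLs, ← add_assoc]
      exact hstep (i₁ + j) j (DL j).1 y a₀ Yf (DL j).2 (by omega) (by omega) ha ih
  refine ⟨a₀, Yf, fun i => (DL (i - i₁)).1, fun i => (DL (i - i₁)).2, hn₀c, rfl, ?_, ?_, ?_, ?_, ?_, ?_, ?_⟩
  · show (DL (i₁ - i₁)).1 ≤ N * (W.sys i₁).l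
    rw [Nat.sub_self, hDL0]
    exact Nat.mul_le_mul_right _ hn₀N
  · intro i hi'
    obtain ⟨j, rfl⟩ := Nat.exists_eq_add_of_le hi'
    simp only [Nat.add_sub_cancel_left]
    refine (hst j).lin.weaken fun J v hJ => hJ.mono ?_
    have : (0 : ℝ) < (1 / 2) ^ j := by positivity
    linarith
  · intro i hi'
    obtain ⟨j, rfl⟩ := Nat.exists_eq_add_of_le hi'
    simp only [Nat.add_sub_cancel_left]
    exact (hst j).one
  · intro i hi' n hn'
    obtain ⟨j, rfl⟩ := Nat.exists_eq_add_of_le hi'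
    simp only [Nat.add_sub_cancel_left]
    refine le_trans ?_ ((hst j).mass n hn')
    have : (0 : ℝ) ≤ 1 / 4 * (1 / 2) ^ j * a₀ := by positivity
    linarith
  · intro i hi' X
    obtain ⟨j, rfl⟩ := Nat.exists_eq_add_of_le hi'
    simp only [Nat.add_sub_cancel_left]
    exact (hst j).cnt X
  · intro i hi'
    obtain ⟨j, rfl⟩ := Nat.exists_eq_add_of_le hi'
    simp only [Nat.add_sub_cancel_left, add_assoc]
    rw [hDLs]
  · intro i hi'
    obtain ⟨j, rfl⟩ := Nat.exists_eq_add_of_le hi'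
    simp only [Nat.add_sub_cancel_left]
    exact (hst j).D_ge

/-- Linear lower bound for the number of predecessors of a nonperiodic point. -/
theorem density_root_unif (W : Tower) (hC : CrossStmt W) :
    ∃ c x₀ : ℝ, 0 < c ∧ 0 < x₀ ∧ ∀ y : ℤ, Ap y → ∀ x : ℝ, x₀ * (|(y : ℝ)| + 1) ≤ x →
      c * x / (|(y : ℝ)| + 1) ≤ NX x y := by
  obtain ⟨i₀, hS⟩ := W.stages_unif
  obtain ⟨j₀, hC⟩ := hC
  set i₁ := max i₀ j₀ with hi₁
  obtain ⟨N, c', hc', hS⟩ := hS i₁ (le_max_left _ _)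
  set Q : ℝ := 6 * (2 ^ ((W.sys i₁).l + 1) + 3) + 18 with hQ
  have hQ0 : 0 < Q := by positivity
  set i₂ := i₁ + N + 10 with hi₂
  set lo₂ : ℕ := 11 * (N + (W.sys i₂).l * (W.sys i₂).blk + 17 * (W.sys i₂).blk * (W.sys i₂).l) +
    11 * (W.sys i₂).l + 1 with hlo₂
  refine ⟨c' / (128 * Q), Q * 2 ^ lo₂, by positivity, by positivity, fun y hy => ?_⟩
  obtain ⟨a₀, Y, D, Λ, hca, hYeq, hDN, hLin, hone, hlow, hcount, hD, hD22⟩ := hS y hy
  have ha₀ : 0 < a₀ := lt_of_lt_of_le hc' hca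
  have hY : 0 ≤ Y := by rw [hYeq]; positivity
  set lo : ℕ → ℕ := fun i => 11 * (D i + 17 * (W.sys i).blk * (W.sys i).l) + 11 * (W.sys i).l + 1 with hlo
  -- growth of the depths
  have hDle : ∀ k : ℕ, D (i₁ + k) ≤ D i₁ + (W.sys (i₁ + k)).l * (W.sys (i₁ + k)).blk := by
    intro k
    induction k with
    | zero => simp
    | succ k ih =>
      rw [← add_assoc, hD _ (by omega), W.l_succ, W.blk_succ]
      have h1 : 1 ≤ (W.sys (i₁ + k)).blk := by rw [W.blk_eq]; exact Nat.one_le_two_pow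
      have h2 : (W.sys (i₁ + k)).blk ≤ (W.sys (i₁ + k)).blk ^ 2 := by nlinarith
      nlinarith [Nat.mul_le_mul_left (W.sys (i₁ + k)).l h2]
  have hrange : ∀ i ≥ i₂, 16 * lo (i + 1) ≤ (W.sys i).l * (W.sys i).blk ^ 6 := by
    intro i hi
    obtain ⟨k, rfl⟩ : ∃ k, i = i₁ + k := ⟨i - i₁, by omega⟩
    have h1 := hDle k
    have h2 := W.le_blk (i₁ + k)
    have h3 := hD (i₁ + k) (by omega)
    have hl : 1 ≤ (W.sys (i₁ + k)).l := (W.sys (i₁ + k)).hl
    simp only [hlo]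
    rw [W.blk_succ, W.l_succ, h3]
    set m := (W.sys (i₁ + k)).blk with hm
    set l := (W.sys (i₁ + k)).l with hl'
    have hm10 : D i₁ + 10 ≤ m := by omega
    have hmm : m ≤ m ^ 2 := by nlinarith
    have h4 : 6880 ≤ m ^ 4 := by
      calc 6880 ≤ 10 ^ 4 := by norm_num
        _ ≤ m ^ 4 := Nat.pow_le_pow_left (by omega) 4
    have h5 : l * m ≤ l * m ^ 2 := Nat.mul_le_mul_left l hmm
    have h6 : D i₁ ≤ l * m ^ 2 := by nlinarith
    have hm0 : 0 < m := by omega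
    have h7 : l ≤ l * m ^ 2 := Nat.le_mul_of_pos_right l (by positivity)
    have h8 : 1 ≤ l * m ^ 2 := hl.trans h7
    calc 16 * (11 * (D (i₁ + k) + m * l + 17 * m ^ 2 * (2 * l)) + 11 * (2 * l) + 1)
        ≤ 16 * (11 * (D i₁ + l * m + m * l + 17 * m ^ 2 * (2 * l)) + 11 * (2 * l) + 1) := by
          gcongr
      _ ≤ 6880 * (l * m ^ 2) := by nlinarith
      _ ≤ m ^ 4 * (l * m ^ 2) := Nat.mul_le_mul_right _ h4
      _ = l * m ^ 6 := by ring
  have hlo_ge : ∀ i, i ≤ lo i := by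
    intro i
    have h1 := W.le_blk i
    have hl : 1 ≤ (W.sys i).l := (W.sys i).hl
    simp only [hlo]
    nlinarith
  have hloi₂ : lo i₂ ≤ lo₂ := by
    have h1 := hDle (N + 10)
    rw [show i₁ + (N + 10) = i₂ by omega] at h1
    simp only [hlo, hlo₂]
    omega
  set C : ℝ := 6 * Y + 18 with hCdef
  have hC0 : 0 < C := by positivity
  have hCQ : C ≤ Q * (|(y : ℝ)| + 1) := by
    have h1 := abs_nonneg (y : ℝ)
    have h2 : (0 : ℝ) < 2 ^ ((W.sys i₁).l + 1) := by positivity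
    have h3 : 0 ≤ (2 : ℝ) ^ ((W.sys i₁).l + 1) * |(y : ℝ)| := by positivity
    rw [hCdef, hQ, hYeq]
    nlinarith
  -- the main estimate
  have hrange' : ∀ i ≥ i₂, i₁ ≤ i := fun i hi => by omega
  have key : ∀ t : ℕ, lo i₂ ≤ t → 2 ^ t * (a₀ / 64) ≤ NX (C * 2 ^ t) y := by
    intro t ht
    -- the stage
    obtain ⟨i, hi, h1, h2⟩ : ∃ i, i₂ ≤ i ∧ lo i ≤ t ∧ t < lo (i + 1) := by
      by_contra hcon
      push Not at hcon
      have hall : ∀ k, lo (i₂ + k) ≤ t := by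
        intro k
        induction k with
        | zero => exact ht
        | succ k ih => exact hcon (i₂ + k) (by omega) ih
      have := hlo_ge (i₂ + (t + 1))
      have := hall (t + 1)
      omega
    have hrng := hrange i hi
    obtain ⟨g, hg⟩ : ∃ g, t = g + 11 * (W.sys i).l + 1 := ⟨t - 11 * (W.sys i).l - 1, by
      simp only [hlo] at h1
      omega⟩
    have hg1 : 11 * (D i + 17 * (W.sys i).blk * (W.sys i).l) ≤ g := by
      simp only [hlo] at h1
      omega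
    have hg2 : 16 * g ≤ (W.sys i).l * (W.sys i).blk ^ 6 := by omega
    have hi1 : i₁ ≤ i := by omega
    have h3 := hC i ((le_max_right _ _).trans hi1) (D i) Y a₀ (C * 2 ^ t) (Λ i) g ha₀ hY (hLin i hi1)
      (hD22 i hi1) (hone i hi1) (hlow i hi1) hg1 hg2 (by rw [hg])
    rw [← hg] at h3
    exact h3.trans (hcount i hi1 _)
  intro x hx
  have hy1 : 0 < |(y : ℝ)| + 1 := by positivity
  have hx1 : 2 ^ lo i₂ ≤ x / C := by
    rw [le_div_iff₀ hC0]
    calc (2 : ℝ) ^ lo i₂ * C ≤ 2 ^ lo₂ * (Q * (|(y : ℝ)| + 1)) :=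
          mul_le_mul (pow_le_pow_right₀ (by norm_num) hloi₂) hCQ hC0.le (by positivity)
      _ = Q * 2 ^ lo₂ * (|(y : ℝ)| + 1) := by ring
      _ ≤ x := hx
  have hx2 : 1 ≤ x / C := (one_le_pow₀ (by norm_num)).trans hx1
  obtain ⟨t, ht1, ht2⟩ := exists_nat_pow_near hx2 (by norm_num : (1 : ℝ) < 2)
  have ht : lo i₂ ≤ t := by
    have h1 : (2 : ℝ) ^ lo i₂ < 2 ^ (t + 1) := hx1.trans_lt ht2
    have h2 := (pow_lt_pow_iff_right₀ (by norm_num : (1 : ℝ) < 2)).1 h1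
    omega
  have h1 := key t ht
  have h2 : C * 2 ^ t ≤ x := by
    rw [le_div_iff₀ hC0] at ht1
    linarith
  have h3 := NX_mono h2 y
  refine le_trans ?_ (h1.trans h3)
  rw [div_lt_iff₀ hC0] at ht2
  have h4 : x ≤ 2 * C * 2 ^ t := by
    rw [pow_succ] at ht2
    linarith
  have h5 : x ≤ 2 * (Q * (|(y : ℝ)| + 1)) * 2 ^ t := h4.trans (by gcongr)
  rw [div_le_iff₀ hy1]
  calc c' / (128 * Q) * x ≤ c' / (128 * Q) * (2 * (Q * (|(y : ℝ)| + 1)) * 2 ^ t) := by gcongr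
    _ = 2 ^ t * (c' / 64) * (|(y : ℝ)| + 1) := by field_simp; ring
    _ ≤ 2 ^ t * (a₀ / 64) * (|(y : ℝ)| + 1) := by gcongr


end CollatzOne

namespace CollatzExp

/-- One of two children of any point is not periodic. -/
lemma exists_aper_child_bdd {a : ℤ} (ha : a % 3 = 2) :
    ∃ e, 1 ≤ e ∧ e ≤ 6 ∧ valid e a ∧ Aper (child e a) := by
  obtain ⟨e₁, e₂, h1, h16, h2, h26, hne, hv1, hv2⟩ := two_valid ha
  have key : ∀ e f : ℕ, 1 ≤ e → valid e a → valid f a → e < f → ¬ Aper (child e a) →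
      ¬ Aper (child f a) → False := by
    intro e f he hve hvf hlt hpe hpf
    unfold Aper at hpe hpf
    push Not at hpe hpf
    obtain ⟨p, hp, hpe⟩ := hpe
    obtain ⟨q, hq, hqf⟩ := hpf
    have hpe' : ∀ t : ℕ, C^[t * p] (child e a) = child e a := by
      intro t
      induction t with
      | zero => simp
      | succ t ih => rw [add_mul, one_mul, Function.iterate_add_apply, hpe, ih]
    have hqf' : ∀ t : ℕ, C^[t * q] (child f a) = child f a := by
      intro t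
      induction t with
      | zero => simp
      | succ t ih => rw [add_mul, one_mul, Function.iterate_add_apply, hqf, ih]
    -- both return after `(e + 1) * p * q` steps
    set R := (e + 1) * p * q with hR
    have hRge : e + 1 ≤ R := by
      rw [hR, mul_assoc]
      exact Nat.le_mul_of_pos_right _ (by positivity)
    have hR1 : C^[R] (child e a) = child e a := by
      rw [hR, show (e + 1) * p * q = ((e + 1) * q) * p by ring]; exact hpe' _
    have hR2 : C^[R] (child f a) = child f a := hqf' _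
    apply child_sep he hve hvf hlt
    have h3 : C^[R] (C^[f - e] (child f a)) = C^[f - e] (child f a) := by
      rw [← Function.iterate_add_apply, add_comm, Function.iterate_add_apply, hR2]
    rw [← h3, ← hR1]
    rw [show R = (R - (e + 1)) + (e + 1) by omega, Function.iterate_add_apply, Function.iterate_add_apply C (R - (e + 1)) (e + 1) (child e a),
      C_iter_child_full he hve]
    congr 1
    rw [← Function.iterate_add_apply, show e + 1 + (f - e) = f + 1 by omega,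
      C_iter_child_full (by omega) hvf]
  by_contra hcon
  push Not at hcon
  rcases Nat.lt_or_gt_of_ne hne with h | h
  · exact key e₁ e₂ h1 hv1 hv2 h (hcon e₁ h1 h16 hv1) (hcon e₂ h2 h26 hv2)
  · exact key e₂ e₁ h2 hv2 hv1 h (hcon e₂ h2 h26 hv2) (hcon e₁ h1 h16 hv1)


end CollatzExp

namespace CollatzOne

/-- Uniform positive density of the predecessor sets. -/
theorem uniform_density : ∃ c : ℝ, 0 < c ∧ ∀ a : ℤ, ¬ (3 : ℤ) ∣ a → ∀ x : ℝ, |(a : ℝ)| ≤ x →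
    c * x / |(a : ℝ)| ≤ ({n : ℤ | |(n : ℝ)| ≤ x ∧ ∃ k : ℕ, CollatzExp.C^[k] n = a}.ncard : ℝ) := by
  classical
  obtain ⟨c, x₀, hc, hx₀, hmain⟩ := density_root_unif tower (tower.cross Sys.Str.eqd psiOK)
  refine ⟨min (c / 24) (1 / (24 * x₀)), lt_min (by positivity) (by positivity), fun a ha x hx => ?_⟩
  have ha1 : (1 : ℝ) ≤ |(a : ℝ)| := by
    have h : 1 ≤ |a| := Int.one_le_abs (by rintro rfl; exact ha (dvd_zero 3))
    exact_mod_cast h
  obtain ⟨y, hy, hya, k₀, hk₀⟩ : ∃ y : ℤ, y % 3 = 2 ∧ |(y : ℝ)| ≤ 2 * |(a : ℝ)| ∧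
      ∃ k, CollatzExp.C^[k] y = a := by
    have : a % 3 = 1 ∨ a % 3 = 2 := by omega
    rcases this with h1 | h1
    · refine ⟨2 * a, by omega, ?_, 1, ?_⟩
      · push_cast
        rw [abs_mul, abs_of_pos (show (0 : ℝ) < 2 by norm_num)]
      · rw [Function.iterate_one, CollatzExp.C_even (by omega)]; omega
    · exact ⟨a, h1, by linarith, 0, rfl⟩
  obtain ⟨e, he, he6, hv, hap⟩ := CollatzExp.exists_aper_child_bdd hy
  have hbabs := CollatzExp.abs_child_le he hy hv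
  set b := CollatzExp.child e y with hb
  have hb3 : b % 3 = 2 := CollatzExp.valid_child hv
  obtain ⟨v, hvb⟩ : ∃ v : ℤ, b = 3 * v - 1 := ⟨(b + 1) / 3, by omega⟩
  have hAp : Ap v := by unfold Ap; rw [← hvb]; exact hap
  have hvabs : |(v : ℝ)| + 1 ≤ 24 * |(a : ℝ)| := by
    have h1 : (2 : ℝ) ^ e ≤ 2 ^ 6 := pow_le_pow_right₀ (by norm_num) he6
    have h2 : |(b : ℝ)| ≤ 2 ^ 6 / 3 * (2 * |(a : ℝ)| + 1) := by
      refine hbabs.trans ?_
      gcongr
    have h3 : (3 : ℝ) * v = b + 1 := by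
      have : b + 1 = 3 * v := by omega
      exact_mod_cast this.symm
    have h4 : 3 * |(v : ℝ)| ≤ |(b : ℝ)| + 1 := by
      have h5 : 3 * |(v : ℝ)| = |(b : ℝ) + 1| := by
        rw [← h3, abs_mul, abs_of_pos (show (0 : ℝ) < 3 by norm_num)]
      rw [h5]
      refine (abs_add_le _ _).trans ?_
      rw [abs_one]
    norm_num at h2
    linarith
  have hreach : ∀ n : ℤ, (∃ k, CollatzExp.C^[k] n = b) → ∃ k, CollatzExp.C^[k] n = a := by
    rintro n ⟨k, hk⟩
    refine ⟨k₀ + (e + 1) + k, ?_⟩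
    rw [Function.iterate_add_apply, hk, Function.iterate_add_apply,
      CollatzExp.C_iter_child_full he hv, hk₀]
  have hcount : ∀ x : ℝ, ({n : ℤ | |(n : ℝ)| ≤ x ∧ ∃ k : ℕ, CollatzExp.C^[k] n = a}.ncard : ℝ)
      = ((CollatzExp.DD a x).card : ℝ) := by
    intro x
    rw [← Set.ncard_coe_finset]
    congr 2
    ext n
    rw [Finset.mem_coe, CollatzExp.mem_DD]
    rfl
  have hx0 : 0 < x := by linarith
  rw [hcount, div_le_iff₀ (by linarith)]
  by_cases hxx : x₀ * (|(v : ℝ)| + 1) ≤ x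
  · have h1 := hmain v hAp x hxx
    have h2 : NX x v ≤ ((CollatzExp.DD a x).card : ℝ) := by
      unfold NX
      rw [← hvb]
      refine Nat.cast_le.2 (Finset.card_le_card fun n hn => ?_)
      rw [CollatzExp.mem_DD] at hn ⊢
      exact ⟨hn.1, hreach n hn.2⟩
    rw [div_le_iff₀ (by positivity)] at h1
    have h3 : (0 : ℝ) ≤ ((CollatzExp.DD a x).card : ℝ) := Nat.cast_nonneg _
    calc min (c / 24) (1 / (24 * x₀)) * x ≤ c / 24 * x :=
          mul_le_mul_of_nonneg_right (min_le_left _ _) hx0.le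
      _ = c * x / 24 := by ring
      _ ≤ NX x v * (|(v : ℝ)| + 1) / 24 := by gcongr
      _ ≤ ((CollatzExp.DD a x).card : ℝ) * (24 * |(a : ℝ)|) / 24 := by gcongr
      _ = ((CollatzExp.DD a x).card : ℝ) * |(a : ℝ)| := by ring
  · push Not at hxx
    have h1 : a ∈ CollatzExp.DD a x := CollatzExp.mem_DD.2 ⟨hx, 0, rfl⟩
    have h2 : 1 ≤ (CollatzExp.DD a x).card := Finset.card_pos.2 ⟨a, h1⟩
    have h3 : (1 : ℝ) ≤ (CollatzExp.DD a x).card := by exact_mod_cast h2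
    have h4 : x ≤ x₀ * (24 * |(a : ℝ)|) := hxx.le.trans (by gcongr)
    calc min (c / 24) (1 / (24 * x₀)) * x ≤ 1 / (24 * x₀) * (x₀ * (24 * |(a : ℝ)|)) :=
          mul_le_mul (min_le_right _ _) h4 hx0.le (by positivity)
      _ = 1 * |(a : ℝ)| := by field_simp
      _ ≤ ((CollatzExp.DD a x).card : ℝ) * |(a : ℝ)| := by gcongr

end CollatzOne
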